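import Mathlib

set_option autoImplicit false
set_option linter.unusedSectionVars false

/-!
# Numerical estimates
-/

namespace Pool.Agent.W966.Kron

open Finset Filter Topology

theorem primorial_lower : ∀ᶠ n : ℕ in atTop, 2 ^ n ≤ primorial (2 * n) := by
  have h1 : ∀ᶠ x : ℝ in atTop, Real.log x ≤ 1 / 20 * x ^ (1 / 2 : ℝ) := by
    have := (isLittleO_log_rpow_atTop (r := 1 / 2) (by norm_num)).bound
      (show (0 : ℝ) < 1 / 20 by norm_num)
    filter_upwards [this, eventually_ge_atTop (1 : ℝ)] with x hx hx1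
    rw [Real.norm_of_nonneg (Real.log_nonneg hx1),
      Real.norm_of_nonneg (Real.rpow_nonneg (by linarith) _)] at hx
    exact hx
  obtain ⟨B, hB⟩ := eventually_atTop.1 h1
  obtain ⟨B', hB'⟩ := exists_nat_ge B
  filter_upwards [eventually_ge_atTop B', eventually_ge_atTop 1] with n hn hn1
  have hnR : (1 : ℝ) ≤ n := by exact_mod_cast hn1
  have hnB : B ≤ (n : ℝ) := hB'.trans (by exact_mod_cast hn)
  have h2 := Chebyshev.theta_ge (2 * n)
  rw [Chebyshev.theta_eq_log_primorial, Nat.floor_natCast] at h2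
  have h3 := hB ((2 * n : ℕ) : ℝ) (by push_cast; linarith)
  have h4 := hB (((2 * n : ℕ) : ℝ) + 1) (by push_cast; linarith)
  rw [← Real.sqrt_eq_rpow] at h3 h4
  have h5 : 2 * √((2 * n : ℕ) : ℝ) * Real.log ((2 * n : ℕ) : ℝ) ≤ 1 / 10 * ((2 * n : ℕ) : ℝ) := by
    have := Real.mul_self_sqrt (show (0 : ℝ) ≤ ((2 * n : ℕ) : ℝ) from Nat.cast_nonneg _)
    nlinarith [Real.sqrt_nonneg ((2 * n : ℕ) : ℝ)]
  have h6 : √(((2 * n : ℕ) : ℝ) + 1) ≤ ((2 * n : ℕ) : ℝ) + 1 := by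
    rw [Real.sqrt_le_left (by push_cast; linarith)]
    push_cast
    nlinarith
  have h7 := Real.log_two_gt_d9
  have hp : (0 : ℝ) < (primorial (2 * n) : ℝ) := by exact_mod_cast primorial_pos _
  have h8 : Real.log ((2 : ℝ) ^ n) ≤ Real.log (primorial (2 * n) : ℝ) := by
    rw [Real.log_pow]
    refine le_trans ?_ h2
    push_cast at h3 h4 h5 h6 ⊢
    nlinarith
  have h9 := (Real.log_le_log_iff (by positivity) hp).1 h8
  exact_mod_cast h9

theorem exp_small (ε : ℝ) (hε : 0 < ε) : ∀ᶠ w : ℕ in atTop,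
    (2 : ℝ) ^ (9 * w ^ 10) * (16 * ((w : ℝ) ^ 10 * Real.exp (-((w : ℝ) ^ 18 / 16)) +
      w * 2 ^ (20 * w ^ 55) * Real.exp (-((w : ℝ) ^ 56 / 128)))) ≤ ε := by
  have h1 : Tendsto (fun w : ℕ => Real.exp (-(w : ℝ))) atTop (𝓝 0) :=
    Real.tendsto_exp_neg_atTop_nhds_zero.comp tendsto_natCast_atTop_atTop
  filter_upwards [h1.eventually_le_const (show (0 : ℝ) < ε / 32 by positivity),
    eventually_ge_atTop (128 * 31)] with w hw hw1
  have hwR : (128 * 31 : ℝ) ≤ w := by exact_mod_cast hw1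
  have hw0 : (0 : ℝ) < w := by linarith
  have h2e : (2 : ℝ) ≤ Real.exp 1 := by
    have := Real.add_one_le_exp (1 : ℝ)
    linarith
  have h2p : ∀ n : ℕ, (2 : ℝ) ^ n ≤ Real.exp n := by
    intro n
    calc (2 : ℝ) ^ n ≤ (Real.exp 1) ^ n := pow_le_pow_left₀ (by norm_num) h2e n
      _ = Real.exp n := by rw [← Real.exp_nat_mul, mul_one]
  have hle : ∀ x : ℝ, x ≤ Real.exp x := fun x => by
    have := Real.add_one_le_exp x
    linarith
  have hpw : ∀ a b : ℕ, a ≤ b → (w : ℝ) ^ a ≤ (w : ℝ) ^ b := fun a b h =>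
    pow_le_pow_right₀ (by linarith) h
  have hA : (2 : ℝ) ^ (9 * w ^ 10) ≤ Real.exp (9 * (w : ℝ) ^ 10) := by
    have := h2p (9 * w ^ 10)
    push_cast at this
    exact this
  have hB : (2 : ℝ) ^ (20 * w ^ 55) ≤ Real.exp (20 * (w : ℝ) ^ 55) := by
    have := h2p (20 * w ^ 55)
    push_cast at this
    exact this
  have hC : (w : ℝ) ^ 10 * Real.exp (-((w : ℝ) ^ 18 / 16)) ≤
      Real.exp ((w : ℝ) ^ 10 + -((w : ℝ) ^ 18 / 16)) := by
    rw [Real.exp_add]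
    exact mul_le_mul_of_nonneg_right (hle _) (Real.exp_pos _).le
  have hD : (w : ℝ) * 2 ^ (20 * w ^ 55) * Real.exp (-((w : ℝ) ^ 56 / 128)) ≤
      Real.exp (w + 20 * (w : ℝ) ^ 55 + -((w : ℝ) ^ 56 / 128)) := by
    rw [Real.exp_add, Real.exp_add]
    refine mul_le_mul_of_nonneg_right ?_ (Real.exp_pos _).le
    exact mul_le_mul (hle _) hB (by positivity) (Real.exp_pos _).le
  have h10 : (w : ℝ) ≤ (w : ℝ) ^ 10 := by
    have := hpw 1 10 (by norm_num)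
    rwa [pow_one] at this
  have h11 : (176 : ℝ) * (w : ℝ) ^ 10 ≤ (w : ℝ) ^ 18 := by
    have h := hpw 1 8 (by norm_num)
    rw [pow_one] at h
    calc (176 : ℝ) * (w : ℝ) ^ 10 ≤ (w : ℝ) ^ 8 * (w : ℝ) ^ 10 := by gcongr; linarith
      _ = _ := by ring
  have h12 : (128 * 31 : ℝ) * (w : ℝ) ^ 55 ≤ (w : ℝ) ^ 56 := by
    calc (128 * 31 : ℝ) * (w : ℝ) ^ 55 ≤ w * (w : ℝ) ^ 55 := by gcongr
      _ = _ := by ring
  have h13 : (w : ℝ) ^ 10 ≤ (w : ℝ) ^ 55 := hpw _ _ (by norm_num)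
  have hE : Real.exp (9 * (w : ℝ) ^ 10) * Real.exp ((w : ℝ) ^ 10 + -((w : ℝ) ^ 18 / 16)) ≤
      Real.exp (-w) := by
    rw [← Real.exp_add]
    apply Real.exp_le_exp.2
    linarith
  have hF : Real.exp (9 * (w : ℝ) ^ 10) *
      Real.exp (w + 20 * (w : ℝ) ^ 55 + -((w : ℝ) ^ 56 / 128)) ≤ Real.exp (-w) := by
    rw [← Real.exp_add]
    apply Real.exp_le_exp.2
    linarith
  calc (2 : ℝ) ^ (9 * w ^ 10) * (16 * ((w : ℝ) ^ 10 * Real.exp (-((w : ℝ) ^ 18 / 16)) +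
      w * 2 ^ (20 * w ^ 55) * Real.exp (-((w : ℝ) ^ 56 / 128))))
      ≤ Real.exp (9 * (w : ℝ) ^ 10) * (16 * (Real.exp ((w : ℝ) ^ 10 + -((w : ℝ) ^ 18 / 16)) +
        Real.exp (w + 20 * (w : ℝ) ^ 55 + -((w : ℝ) ^ 56 / 128)))) := by
        gcongr
    _ = 16 * (Real.exp (9 * (w : ℝ) ^ 10) * Real.exp ((w : ℝ) ^ 10 + -((w : ℝ) ^ 18 / 16)) +
        Real.exp (9 * (w : ℝ) ^ 10) *
          Real.exp (w + 20 * (w : ℝ) ^ 55 + -((w : ℝ) ^ 56 / 128))) := by ring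
    _ ≤ 16 * (Real.exp (-w) + Real.exp (-w)) := by gcongr
    _ ≤ ε := by linarith

theorem pow_small : ∀ᶠ w : ℕ in atTop, 2 * w ^ 60 ≤ 2 ^ w := by
  have h := tendsto_pow_const_div_const_pow_of_one_lt 60 (show (1 : ℝ) < 2 by norm_num)
  filter_upwards [h.eventually_le_const (show (0 : ℝ) < 1 / 2 by norm_num)] with w hw
  rw [div_le_iff₀ (by positivity)] at hw
  have : (2 : ℝ) * (w : ℝ) ^ 60 ≤ 2 ^ w := by linarith
  exact_mod_cast this

theorem succ_small : ∀ᶠ w : ℕ in atTop, (w + 1) ^ 60 ≤ 2 * w ^ 60 := by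
  have h : Tendsto (fun w : ℕ => (1 + 1 / (w : ℝ)) ^ 60) atTop (𝓝 ((1 + 0) ^ 60)) :=
    (tendsto_one_div_atTop_nhds_zero_nat.const_add 1).pow 60
  rw [add_zero, one_pow] at h
  filter_upwards [h.eventually_le_const (show (1 : ℝ) < 2 by norm_num),
    eventually_gt_atTop 0] with w hw hw0
  have hw0' : (0 : ℝ) < w := by exact_mod_cast hw0
  have h1 : (1 + 1 / (w : ℝ)) * w = w + 1 := by
    field_simp
  have h2 : ((w : ℝ) + 1) ^ 60 ≤ 2 * (w : ℝ) ^ 60 := by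
    rw [← h1, mul_pow]
    gcongr
  exact_mod_cast h2

theorem c_small (ε : ℝ) (hε : 0 < ε) : ∀ᶠ w : ℕ in atTop,
    ∃ c : ℕ, 64 * w ^ 65 ≤ 2 ^ c ∧ (8 : ℝ) + 4 * c < ε * w := by
  have hr : (1 : ℝ) < (2 : ℝ) ^ (ε / 8) := Real.one_lt_rpow (by norm_num) (by positivity)
  have h := tendsto_pow_const_div_const_pow_of_one_lt 65 hr
  have h2 : Tendsto (fun w : ℕ => ε * (w : ℝ)) atTop atTop :=
    (tendsto_natCast_atTop_atTop).const_mul_atTop hε
  filter_upwards [h.eventually_le_const (show (0 : ℝ) < 1 / 128 by norm_num),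
    h2.eventually_gt_atTop 16] with w hw hw2
  refine ⟨⌊ε * w / 8⌋₊, ?_, ?_⟩
  · rw [div_le_iff₀ (by positivity), ← Real.rpow_natCast ((2 : ℝ) ^ (ε / 8)), ← Real.rpow_mul
      (by norm_num)] at hw
    have h3 : ε * w / 8 < ⌊ε * w / 8⌋₊ + 1 := Nat.lt_floor_add_one _
    have h4 : (2 : ℝ) ^ (ε / 8 * (w : ℝ)) ≤ (2 : ℝ) ^ ((⌊ε * w / 8⌋₊ : ℝ) + 1) := by
      apply Real.rpow_le_rpow_of_exponent_le (by norm_num)
      calc ε / 8 * (w : ℝ) = ε * w / 8 := by ring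
        _ ≤ _ := h3.le
    rw [Real.rpow_add (by norm_num), Real.rpow_one, Real.rpow_natCast] at h4
    have h5 : (64 : ℝ) * (w : ℝ) ^ 65 ≤ 2 ^ ⌊ε * w / 8⌋₊ := by linarith
    exact_mod_cast h5
  · have h3 : (⌊ε * w / 8⌋₊ : ℝ) ≤ ε * w / 8 := Nat.floor_le (by positivity)
    linarith

/-- Between consecutive powers. -/
theorem exists_root (W X : ℕ) (hX : W ^ 60 ≤ X) : ∃ w, W ≤ w ∧ w ^ 60 ≤ X ∧ X < (w + 1) ^ 60 := by
  have hex : ∃ v : ℕ, X < v ^ 60 := ⟨X + 1, by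
    calc X < X + 1 := Nat.lt_succ_self _
      _ ≤ (X + 1) ^ 60 := Nat.le_self_pow (by norm_num) _⟩
  classical
  have h1 := Nat.find_spec hex
  have h2 : Nat.find hex ≠ 0 := by
    intro h0
    rw [h0] at h1
    simp at h1
  obtain ⟨w, hw⟩ := Nat.exists_eq_succ_of_ne_zero h2
  refine ⟨w, ?_, ?_, ?_⟩
  · by_contra hlt
    rw [not_le] at hlt
    rw [hw] at h1
    have : (w + 1) ^ 60 ≤ W ^ 60 := Nat.pow_le_pow_left hlt _
    have h3 : X < (w + 1) ^ 60 := h1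
    omega
  · have := Nat.find_min hex (m := w) (by omega)
    omega
  · rw [hw] at h1
    exact h1

end Pool.Agent.W966.Kron
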