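import Pool.Agent.W966.Grp
import Pool.Agent.W966.Param

set_option autoImplicit false
set_option linter.unusedSectionVars false

/-!
# Circulant matrices of finite abelian groups over a field of characteristic zero
-/

namespace Pool.Agent.W966.Kron

open Matrix Finset Filter

theorem exists_primes (n : ℕ) : ∃ (P : Type) (_ : Fintype P) (p : P → ℕ),
    (∀ i, (p i).Prime) ∧ Pairwise (Function.onFun Nat.Coprime p) ∧ (∀ i, p i ≤ n) ∧
    Fintype.card P ≤ n ∧ ∏ i, p i = primorial n := by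
  classical
  refine ⟨{p // p ∈ (Finset.range (n + 1)).filter Nat.Prime}, Finset.Subtype.fintype _,
    fun i => i.1,
    fun i => (Finset.mem_filter.1 i.2).2, ?_, ?_, ?_, ?_⟩
  · intro i i' hii'
    exact (Nat.coprime_primes (Finset.mem_filter.1 i.2).2 (Finset.mem_filter.1 i'.2).2).2
      fun h => hii' (Subtype.ext h)
  · intro i
    have := Finset.mem_range.1 (Finset.mem_filter.1 i.2).1
    change i.1 ≤ n
    omega
  · rw [Fintype.card_coe]
    have : (Finset.range (n + 1)).filter Nat.Prime ⊆ Finset.Icc 1 n := by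
      intro x hx
      rw [Finset.mem_filter, Finset.mem_range] at hx
      rw [Finset.mem_Icc]
      exact ⟨hx.2.one_lt.le, by omega⟩
    simpa using Finset.card_le_card this
  · exact Finset.prod_coe_sort ((Finset.range (n + 1)).filter Nat.Prime) (fun x => x)

theorem final_ineq {A A' B B' x y E1 E2 : ℝ} (hA : A ≤ A') (hB : B ≤ B') (hA0 : 0 ≤ A)
    (hB0 : 0 ≤ B) (hx : 0 ≤ x) (hy : 0 ≤ y) (h1 : 0 ≤ E1) (h2 : 0 ≤ E2) :
    A * (16 * (x * E1 + y * B * E2)) ≤ A' * (16 * (x * E1 + y * B' * E2)) := by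
  have hA' : 0 ≤ A' := hA0.trans hA
  gcongr

theorem strict_step (F : Type*) [Field F] [CharZero F] (ε : ℝ) (w c : ℕ) (hw : 2 ≤ w)
    (hsucc : (w + 1) ^ 60 ≤ 2 * w ^ 60) (hpow : 2 * w ^ 60 ≤ 2 ^ w)
    (hprim : 2 ^ (2 * w ^ 5) ≤ primorial (2 * (2 * w ^ 5)))
    (hc1 : 64 * w ^ 65 ≤ 2 ^ c) (hc2 : (8 : ℝ) + 4 * c < ε * w)
    (hexp : (2 : ℝ) ^ (9 * w ^ 10) * (16 * ((w : ℝ) ^ 10 * Real.exp (-((w : ℝ) ^ 18 / 16)) +
      w * 2 ^ (20 * w ^ 55) * Real.exp (-((w : ℝ) ^ 56 / 128)))) ≤ ε)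
    (G : Type) [AddCommGroup G] [Fintype G]
    (hG1 : w ^ 60 ≤ Nat.log 2 (Fintype.card G)) (hG2 : Nat.log 2 (Fintype.card G) < (w + 1) ^ 60)
    (f : G → F) :
    ∃ S : Matrix G G F,
      (((Matrix.of fun x y : G => f (x - y)) - S).rank : ℝ) ≤ ε * Fintype.card G ∧
      ({p : G × G | S p.1 p.2 ≠ 0}.ncard : ℝ) < (Fintype.card G : ℝ) ^ (1 + ε) := by
  classical
  have hNne : Fintype.card G ≠ 0 := by
    have : Nonempty G := ⟨0⟩
    exact Fintype.card_ne_zero
  have hNlt : Fintype.card G < 2 ^ (2 * w ^ 60) := by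
    refine (Nat.lt_pow_succ_log_self (b := 2) (by norm_num) _).trans_le ?_
    exact Nat.pow_le_pow_right (by norm_num) (by omega)
  have hNge : 2 ^ (w ^ 60) ≤ Fintype.card G :=
    (Nat.pow_le_pow_right (by norm_num) hG1).trans (Nat.pow_log_le_self 2 hNne)
  have hw0 : 0 < w := by omega
  have hle : ∀ a b : ℕ, a ≤ b → w ^ a ≤ w ^ b := fun a b h => Nat.pow_le_pow_right hw0 h
  obtain ⟨ι₁, J, _, _, q, m, E, hE0, hET, hq, hm, ⟨e⟩⟩ := struct_thm G (2 ^ (w ^ 10))
    (Nat.one_le_two_pow)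
  have hcardG : Fintype.card G = (∏ i, q i) * ∏ j, m j := by
    have : ∀ i, NeZero (q i) := fun i => ⟨by have := (hq i).1; omega⟩
    have : ∀ j, NeZero (m j) := fun j => ⟨by have := hm j; omega⟩
    rw [Fintype.card_congr e.toEquiv, Fintype.card_prod, Fintype.card_pi, Fintype.card_pi]
    congr 1
    · exact Finset.prod_congr rfl fun i _ => ZMod.card _
    · exact Finset.prod_congr rfl fun i _ => ZMod.card _
  have hqpos : 0 < ∏ i, q i := Finset.prod_pos fun i _ => by have := (hq i).1; omega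
  have hmpos : 0 < ∏ j, m j := Finset.prod_pos fun j _ => by have := hm j; omega
  have hqle : ∏ i, q i < 2 ^ (2 * w ^ 60) := by
    refine lt_of_le_of_lt ?_ hNlt
    rw [hcardG]
    exact Nat.le_mul_of_pos_right _ hmpos
  have hmle : ∏ j, m j < 2 ^ (2 * w ^ 60) := by
    refine lt_of_le_of_lt ?_ hNlt
    rw [hcardG]
    exact Nat.le_mul_of_pos_left _ hqpos
  have hι₁ : Fintype.card ι₁ ≤ 2 * w ^ 60 := by
    have h1 : 2 ^ Fintype.card ι₁ ≤ ∏ i, q i := by
      rw [← Finset.card_univ, ← Finset.prod_const]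
      exact Finset.prod_le_prod' fun i _ => (hq i).1
    exact ((Nat.pow_lt_pow_iff_right (by norm_num)).1 (h1.trans_lt hqle)).le
  have hm1 : ∀ j, 1 < m j := fun j => (Nat.one_le_two_pow).trans_lt (hm j)
  have hJ : Fintype.card J ≤ 2 * w ^ 50 := by
    have h1 : 2 ^ (w ^ 10 * Fintype.card J) ≤ ∏ j, m j := by
      rw [pow_mul, ← Finset.card_univ, ← Finset.prod_const]
      exact Finset.prod_le_prod' fun i _ => (hm i).le
    have h2 := ((Nat.pow_lt_pow_iff_right (by norm_num)).1 (h1.trans_lt hmle)).le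
    have h3 : w ^ 10 * Fintype.card J ≤ w ^ 10 * (2 * w ^ 50) := by
      calc w ^ 10 * Fintype.card J ≤ 2 * w ^ 60 := h2
        _ = w ^ 10 * (2 * w ^ 50) := by ring
    exact Nat.le_of_mul_le_mul_left h3 (by positivity)
  -- the primes
  obtain ⟨n, hn⟩ : ∃ n, n = 2 * (2 * w ^ 5) := ⟨_, rfl⟩
  obtain ⟨P, _, p, hpprime, hpcop, hple, hPcard, hpprod⟩ := exists_primes n
  have hMup : ∏ i, p i ≤ 2 ^ (8 * w ^ 5) := by
    rw [hpprod]
    refine (primorial_le_four_pow n).trans ?_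
    rw [show (4 : ℕ) = 2 ^ 2 by norm_num, ← pow_mul]
    exact Nat.pow_le_pow_right (by norm_num) (by rw [hn]; ring_nf; rfl)
  have hMlow : 2 ^ (2 * w ^ 5) ≤ ∏ i, p i := by
    rw [hpprod, hn]
    exact hprim
  obtain ⟨M, hMdef⟩ : ∃ M, M = ∏ i, p i := ⟨_, rfl⟩
  rw [← hMdef] at hMup hMlow
  have hw5 : 1 ≤ w ^ 5 := Nat.one_le_pow _ _ hw0
  have hMlow' : 2 * 2 ^ (w ^ 5) ≤ M := by
    refine le_trans ?_ hMlow
    rw [← pow_succ']
    exact Nat.pow_le_pow_right (by norm_num) (by omega)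
  obtain ⟨b, hb1, hb2⟩ : ∃ b, 2 * b ≤ M + 1 ∧ M ≤ 2 * b := ⟨(M + 1) / 2, by omega, by omega⟩
  have hb3 : 2 ^ (w ^ 5) ≤ b := by omega
  have hb4 : b ≤ 2 ^ (8 * w ^ 5) := by
    refine le_trans ?_ hMup
    have : 1 ≤ M := by
      have := Nat.one_le_two_pow (n := w ^ 5)
      omega
    omega
  have hb5 : 1 < b := by
    refine lt_of_lt_of_le ?_ hb3
    exact Nat.one_lt_two_pow (by omega)
  -- the number of digits
  have hρ : ∑ j, Nat.clog b (m j) ≤ 4 * w ^ 55 := by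
    have h1 : ∀ j, 2 ^ (w ^ 5 * (Nat.clog b (m j) - 1)) ≤ m j := by
      intro j
      rw [pow_mul]
      calc (2 ^ w ^ 5) ^ (Nat.clog b (m j) - 1) ≤ b ^ (Nat.clog b (m j) - 1) :=
            Nat.pow_le_pow_left hb3 _
        _ ≤ m j := (Nat.pow_pred_clog_lt_self hb5 (hm1 j)).le
    have h2 : 2 ^ (w ^ 5 * ∑ j, (Nat.clog b (m j) - 1)) ≤ ∏ j, m j := by
      rw [Finset.mul_sum, ← Finset.prod_pow_eq_pow_sum]
      exact Finset.prod_le_prod' fun j _ => h1 j
    have h3 := ((Nat.pow_lt_pow_iff_right (by norm_num)).1 (h2.trans_lt hmle)).le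
    have h4 : w ^ 5 * ∑ j, (Nat.clog b (m j) - 1) ≤ w ^ 5 * (2 * w ^ 55) := by
      calc w ^ 5 * ∑ j, (Nat.clog b (m j) - 1) ≤ 2 * w ^ 60 := h3
        _ = w ^ 5 * (2 * w ^ 55) := by ring
    have h5 := Nat.le_of_mul_le_mul_left h4 (by positivity)
    have h6 : ∑ j, Nat.clog b (m j) = ∑ j, (Nat.clog b (m j) - 1) + Fintype.card J := by
      rw [← Finset.card_univ, Finset.card_eq_sum_ones, ← Finset.sum_add_distrib]
      refine Finset.sum_congr rfl fun j _ => ?_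
      have : 0 < Nat.clog b (m j) := Nat.clog_pos hb5 (hm1 j)
      omega
    have h7 := hle 50 55 (by norm_num)
    omega
  have hqT : ∀ i, q i ≤ 2 ^ (w ^ 10) := fun i => (Nat.le_of_dvd hE0 (hq i).2).trans hET
  have hF : ((E * M : ℕ) : F) ≠ 0 := by
    have : E * M ≠ 0 := by
      have h2 : 0 < M := hMlow.trans_lt' (Nat.two_pow_pos _)
      exact (Nat.mul_pos hE0 h2).ne'
    exact Nat.cast_ne_zero.2 this
  have hnw : n = 4 * w ^ 5 := by omega
  have hnw' : n ≤ 2 ^ w := by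
    rw [hnw]
    refine le_trans ?_ hpow
    have h1 : 2 * w ^ 5 ≤ w ^ 60 := by
      calc 2 * w ^ 5 ≤ w * w ^ 5 := Nat.mul_le_mul_right _ hw
        _ = w ^ 6 := by ring
        _ ≤ w ^ 60 := hle _ _ (by norm_num)
    omega
  obtain ⟨S, hS1, hS2⟩ := group_bound f q m E hE0 hq hm1 e p hpcop (fun i => (hpprime i).pos)
    b hb5 (hMdef ▸ hb1) (hMdef ▸ hb2) (hMdef ▸ hF) (t₁ := w ^ 39) (t₂ := w ^ 58) (by positivity) (by positivity)
    (2 * (w : ℝ) ^ 60) (16 * (w : ℝ) ^ 60) (4 * w ^ 55) hρ (by exact_mod_cast hι₁) (by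
      have h1 : (4 * w ^ 55) * Fintype.card P ≤ 16 * w ^ 60 := by
        calc (4 * w ^ 55) * Fintype.card P ≤ (4 * w ^ 55) * (4 * w ^ 5) :=
              Nat.mul_le_mul_left _ (hPcard.trans hnw.le)
          _ = 16 * w ^ 60 := by ring
      exact_mod_cast h1) (by positivity) (by positivity) (w ^ 10) w hqT
    (fun i => (hple i).trans hnw') (2 ^ (2 * w ^ 10)) (2 ^ c) Nat.one_le_two_pow
    Nat.one_le_two_pow (by
      calc ∑ i, q i ≤ ∑ i : ι₁, 2 ^ (w ^ 10) := Finset.sum_le_sum fun i _ => hqT i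
        _ = Fintype.card ι₁ * 2 ^ (w ^ 10) := by
            rw [Finset.sum_const, Finset.card_univ, smul_eq_mul]
        _ ≤ (2 * w ^ 60) * 2 ^ (w ^ 10) := Nat.mul_le_mul_right _ hι₁
        _ ≤ 2 ^ (w ^ 10) * 2 ^ (w ^ 10) := by
            refine Nat.mul_le_mul_right _ (hpow.trans ?_)
            exact Nat.pow_le_pow_right (by norm_num) (Nat.le_self_pow (by norm_num) _)
        _ = 2 ^ (2 * w ^ 10) := by rw [← pow_add]; ring_nf) (by
      calc (4 * w ^ 55) * ∑ i, p i ≤ (4 * w ^ 55) * (n * n) := by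
            refine Nat.mul_le_mul_left _ ?_
            calc ∑ i, p i ≤ ∑ i : P, n := Finset.sum_le_sum fun i _ => hple i
              _ = Fintype.card P * n := by
                  rw [Finset.sum_const, Finset.card_univ, smul_eq_mul]
              _ ≤ n * n := Nat.mul_le_mul_right _ hPcard
        _ = 64 * w ^ 65 := by rw [hnw]; ring
        _ ≤ 2 ^ c := hc1)
  have hNR : (0 : ℝ) < Fintype.card G := by exact_mod_cast Nat.pos_of_ne_zero hNne
  have hwR : (0 : ℝ) < w := by exact_mod_cast hw0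
  rw [← hMdef] at hS1
  refine ⟨S, hS1.trans ?_, ?_⟩
  · rw [mul_comm ε]
    refine mul_le_mul_of_nonneg_left (le_trans ?_ hexp) hNR.le
    have h1 : (((w ^ 39 : ℕ) : ℝ) ^ 2 / (8 * (2 * (w : ℝ) ^ 60))) = (w : ℝ) ^ 18 / 16 := by
      push_cast
      field_simp
      ring
    have h2 : (((w ^ 58 : ℕ) : ℝ) ^ 2 / (8 * (16 * (w : ℝ) ^ 60))) = (w : ℝ) ^ 56 / 128 := by
      push_cast
      field_simp
      ring
    rw [h1, h2]
    have h3 : ((E * M : ℕ) : ℝ) ≤ (2 : ℝ) ^ (9 * w ^ 10) := by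
      have : E * M ≤ 2 ^ (9 * w ^ 10) := by
        calc E * M ≤ 2 ^ (w ^ 10) * 2 ^ (8 * w ^ 5) := Nat.mul_le_mul hET hMup
          _ = 2 ^ (w ^ 10 + 8 * w ^ 5) := by rw [pow_add]
          _ ≤ 2 ^ (9 * w ^ 10) := by
              refine Nat.pow_le_pow_right (by norm_num) ?_
              have := hle 5 10 (by norm_num)
              omega
      exact_mod_cast this
    have h4 : (2 : ℝ) ^ (4 * w ^ 55) * (b : ℝ) ^ Fintype.card J ≤ 2 ^ (20 * w ^ 55) := by
      have : 2 ^ (4 * w ^ 55) * b ^ Fintype.card J ≤ 2 ^ (20 * w ^ 55) := by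
        calc 2 ^ (4 * w ^ 55) * b ^ Fintype.card J
            ≤ 2 ^ (4 * w ^ 55) * (2 ^ (8 * w ^ 5)) ^ (2 * w ^ 50) := by
              refine Nat.mul_le_mul_left _ ?_
              exact (Nat.pow_le_pow_left hb4 _).trans (Nat.pow_le_pow_right (by positivity) hJ)
          _ = 2 ^ (20 * w ^ 55) := by
              rw [← pow_mul, ← pow_add]
              ring_nf
      exact_mod_cast this
    rw [Nat.cast_pow w 10]
    exact final_ineq h3 h4 (Nat.cast_nonneg _)
      (mul_nonneg (pow_nonneg zero_le_two _) (pow_nonneg (Nat.cast_nonneg _) _))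
      (pow_nonneg hwR.le _) hwR.le (Real.exp_pos _).le (Real.exp_pos _).le
  · have h1 : ({p : G × G | S p.1 p.2 ≠ 0}.ncard : ℝ) ≤
        (Fintype.card G : ℝ) * 2 ^ ((8 + 4 * c) * w ^ 59) := by
      have h0 : Fintype.card G * ((2 ^ (2 * w ^ 10)) ^ (4 * w ^ 10 * w ^ 39) *
          (2 ^ c) ^ (4 * w * w ^ 58)) = Fintype.card G * 2 ^ ((8 + 4 * c) * w ^ 59) := by
        rw [← pow_mul, ← pow_mul, ← pow_add]
        congr 2
        ring
      rw [h0] at hS2
      have h00 : (({p : G × G | S p.1 p.2 ≠ 0}.ncard : ℕ) : ℝ) ≤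
          ((Fintype.card G * 2 ^ ((8 + 4 * c) * w ^ 59) : ℕ) : ℝ) := Nat.cast_le.2 hS2
      rw [Nat.cast_mul, Nat.cast_pow, Nat.cast_ofNat] at h00
      exact h00
    refine h1.trans_lt ?_
    rw [Real.rpow_add hNR, Real.rpow_one]
    refine mul_lt_mul_of_pos_left ?_ hNR
    have hε : 0 < ε := by
      by_contra hneg
      rw [not_lt] at hneg
      have : ε * w ≤ 0 := mul_nonpos_of_nonpos_of_nonneg hneg hwR.le
      have : (0 : ℝ) ≤ c := Nat.cast_nonneg _
      linarith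
    have h2 : ((2 : ℝ) ^ (w ^ 60)) ^ ε ≤ (Fintype.card G : ℝ) ^ ε := by
      refine Real.rpow_le_rpow (by positivity) ?_ hε.le
      exact_mod_cast hNge
    refine lt_of_lt_of_le ?_ h2
    rw [← Real.rpow_natCast, ← Real.rpow_natCast, ← Real.rpow_mul (by norm_num)]
    apply Real.rpow_lt_rpow_of_exponent_lt (by norm_num)
    push_cast
    calc ((8 : ℝ) + 4 * c) * (w : ℝ) ^ 59 < (ε * w) * (w : ℝ) ^ 59 :=
          mul_lt_mul_of_pos_right hc2 (by positivity)
      _ = (w : ℝ) ^ 60 * ε := by ring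

/-- For every `ε > 0`, every sufficiently large finite abelian group `G` and every function `f`
from `G` to a field of characteristic zero, fewer than `|G| ^ (1 + ε)` changes in this field
make the rank of `f (x - y)` at most `ε |G|`. -/
theorem strict (ε : ℝ) (hε : 0 < ε) : ∃ N₀ : ℕ, ∀ (F : Type) [Field F] [CharZero F]
    (G : Type) [AddCommGroup G] [Fintype G], N₀ ≤ Fintype.card G → ∀ f : G → F,
    ∃ S : Matrix G G F,
      (((Matrix.of fun x y : G => f (x - y)) - S).rank : ℝ) ≤ ε * Fintype.card G ∧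
      ({p : G × G | S p.1 p.2 ≠ 0}.ncard : ℝ) < (Fintype.card G : ℝ) ^ (1 + ε) := by
  have h5 : Tendsto (fun w : ℕ => 2 * w ^ 5) atTop atTop := by
    refine tendsto_atTop_mono (fun w => ?_) tendsto_id
    calc w ≤ w ^ 5 := Nat.le_self_pow (by norm_num) _
      _ ≤ 2 * w ^ 5 := by omega
  have hall := (((eventually_ge_atTop 2).and succ_small).and
    (pow_small.and (h5.eventually primorial_lower))).and ((c_small ε hε).and (exp_small ε hε))
  obtain ⟨W, hW⟩ := eventually_atTop.1 hall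
  refine ⟨2 ^ (W ^ 60), ?_⟩
  intro F _ _ G _ _ hN f
  have hlog : W ^ 60 ≤ Nat.log 2 (Fintype.card G) :=
    Nat.le_log_of_pow_le (by norm_num) hN
  obtain ⟨w, hWw, h1, h2⟩ := exists_root W _ hlog
  obtain ⟨⟨⟨ha, hb⟩, ⟨hc, hd⟩⟩, ⟨⟨c, he, hf⟩, hg⟩⟩ := hW w hWw
  exact strict_step F ε w c ha hb hc hd he hf hg G h1 h2 f

end Pool.Agent.W966.Kron
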