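import Mathlib

set_option autoImplicit false
set_option linter.unusedSectionVars false

/-!
# Triangular decomposition with a permutation of the rows
-/

namespace Pool.Agent.W966.Kron

open Matrix Finset

variable {K : Type*} [Field K]

/-- Extension of a permutation by a fixed point `0`. -/
def extPerm {n : ℕ} (σ : Equiv.Perm (Fin n)) : Equiv.Perm (Fin (n + 1)) :=
  Equiv.Perm.decomposeFin.symm (0, σ)

@[simp] theorem extPerm_zero {n : ℕ} (σ : Equiv.Perm (Fin n)) : extPerm σ 0 = 0 := by
  simp [extPerm]

@[simp] theorem extPerm_succ {n : ℕ} (σ : Equiv.Perm (Fin n)) (i : Fin n) :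
    extPerm σ i.succ = (σ i).succ := by
  simp [extPerm]

theorem plu : ∀ {n : ℕ} (A : Matrix (Fin n) (Fin n) K),
    ∃ (σ : Equiv.Perm (Fin n)) (L U : Matrix (Fin n) (Fin n) K),
      (∀ a c, a < c → L a c = 0) ∧ (∀ a, L a a = 1) ∧ (∀ a c, c < a → U a c = 0) ∧
      A.submatrix σ id = L * U := by
  intro n
  induction n with
  | zero =>
    intro A
    exact ⟨1, 1, 1, fun a => a.elim0, fun a => a.elim0, fun a => a.elim0, by
      ext a; exact a.elim0⟩
  | succ n ih =>
    intro A
    -- the pivot
    obtain ⟨p, hp⟩ : ∃ p, A p 0 = 0 → ∀ i, A i 0 = 0 := by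
      by_cases h : ∃ p, A p 0 ≠ 0
      · obtain ⟨p, hp⟩ := h
        exact ⟨p, fun h0 => absurd h0 hp⟩
      · push Not at h
        exact ⟨0, fun _ => h⟩
    let τ : Equiv.Perm (Fin (n + 1)) := Equiv.swap 0 p
    have hτ : τ 0 = p := Equiv.swap_apply_left 0 p
    set a := A p 0 with ha
    let D : Matrix (Fin n) (Fin n) K := fun i j =>
      A (τ i.succ) j.succ - A (τ i.succ) 0 / a * A p j.succ
    obtain ⟨σ, L, U, hL, hL1, hU, hD⟩ := ih D
    have hcol : ∀ i, A i 0 / a * a = A i 0 := by
      intro i
      by_cases h0 : a = 0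
      · rw [hp h0 i, h0]
        simp
      · field_simp
    refine ⟨(extPerm σ).trans τ, Matrix.of fun i => Fin.cases (Fin.cases 1 (fun _ => 0))
      (fun i' => Fin.cases (A (τ (σ i').succ) 0 / a) (fun j' => L i' j')) i,
      Matrix.of fun i => Fin.cases (fun j => A p j)
      (fun i' => Fin.cases 0 (fun j' => U i' j')) i, ?_, ?_, ?_, ?_⟩
    · intro i j hij
      refine Fin.cases (fun j => ?_) (fun i' => ?_) i j hij
      · refine Fin.cases ?_ (fun j' => ?_) j
        · intro h
          exact absurd h (lt_irrefl _)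
        · intro _
          rfl
      · intro j
        refine Fin.cases ?_ (fun j' => ?_) j
        · intro h
          exact absurd h (Fin.not_lt_zero _)
        · intro h
          exact hL i' j' (Fin.succ_lt_succ_iff.1 h)
    · intro i
      refine Fin.cases rfl (fun i' => hL1 i') i
    · intro i j hij
      refine Fin.cases (fun j => ?_) (fun i' => ?_) i j hij
      · intro h
        exact absurd h (Fin.not_lt_zero _)
      · intro j
        refine Fin.cases ?_ (fun j' => ?_) j
        · intro _
          rfl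
        · intro h
          exact hU i' j' (Fin.succ_lt_succ_iff.1 h)
    · ext i j
      rw [Matrix.submatrix_apply, Matrix.mul_apply, Fin.sum_univ_succ]
      simp only [Matrix.of_apply]
      refine Fin.cases ?_ (fun i' => ?_) i
      · simp only [Equiv.trans_apply, extPerm_zero, hτ, id, Fin.cases_zero, one_mul,
          Fin.cases_succ, zero_mul, Finset.sum_const_zero, add_zero]
      · simp only [Equiv.trans_apply, extPerm_succ, id, Fin.cases_zero, Fin.cases_succ]
        refine Fin.cases ?_ (fun j' => ?_) j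
        · simp only [Fin.cases_zero, mul_zero, Finset.sum_const_zero, add_zero]
          exact (hcol _).symm
        · simp only [Fin.cases_succ]
          have h1 := congrFun (congrFun hD i') j'
          rw [Matrix.submatrix_apply, Matrix.mul_apply] at h1
          rw [← h1]
          simp only [D, id]
          ring

/-- Every square matrix is, up to permutations of the rows and of the columns, a product of
invertible triangular matrices and of a diagonal matrix. -/
theorem plu_all {n : ℕ} (M : Matrix (Fin n) (Fin n) K) :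
    ∃ (σ τ : Equiv.Perm (Fin n)) (L U L' U' : Matrix (Fin n) (Fin n) K) (D : Fin n → K),
      (∀ a c, a < c → L a c = 0) ∧ (∀ a c, a < c → L' a c = 0) ∧
      (∀ a c, c < a → U a c = 0) ∧ (∀ a c, c < a → U' a c = 0) ∧
      L.det ≠ 0 ∧ U.det ≠ 0 ∧ L'.det ≠ 0 ∧ U'.det ≠ 0 ∧
      M.submatrix σ τ = L * U * Matrix.diagonal D * (L' * U') := by
  obtain ⟨l, l', D, hM⟩ := Matrix.Pivot.exists_list_transvec_mul_diagonal_mul_list_transvec M
  set X := (List.map Matrix.TransvectionStruct.toMatrix l).prod with hX
  set Y := (List.map Matrix.TransvectionStruct.toMatrix l').prod with hY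
  have hXd : X.det = 1 := Matrix.TransvectionStruct.det_toMatrix_prod l
  have hYd : Y.det = 1 := Matrix.TransvectionStruct.det_toMatrix_prod l'
  have key : ∀ A : Matrix (Fin n) (Fin n) K, A.det ≠ 0 → ∃ (σ : Equiv.Perm (Fin n))
      (L U : Matrix (Fin n) (Fin n) K), (∀ a c, a < c → L a c = 0) ∧
      (∀ a c, c < a → U a c = 0) ∧ L.det ≠ 0 ∧ U.det ≠ 0 ∧ A.submatrix σ id = L * U := by
    intro A hA
    obtain ⟨σ, L, U, hL, -, hU, h⟩ := plu A
    have h1 : (A.submatrix σ id).det ≠ 0 := by
      rw [Matrix.det_permute]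
      exact mul_ne_zero (by
        rcases Int.units_eq_one_or (Equiv.Perm.sign σ) with h | h <;> simp [h]) hA
    rw [h, Matrix.det_mul] at h1
    exact ⟨σ, L, U, hL, hU, left_ne_zero_of_mul h1, right_ne_zero_of_mul h1, h⟩
  obtain ⟨σ, L, U, hL, hU, hLd, hUd, h1⟩ := key X (by rw [hXd]; exact one_ne_zero)
  obtain ⟨τ, L', U', hL', hU', hLd', hUd', h2⟩ := key Yᵀ (by
    rw [Matrix.det_transpose, hYd]; exact one_ne_zero)
  refine ⟨σ, τ, L, U, U'ᵀ, L'ᵀ, D, hL, fun a c h => hU' c a h, hU, fun a c h => hL' c a h, hLd,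
    hUd, by rwa [Matrix.det_transpose], by rwa [Matrix.det_transpose], ?_⟩
  have h3 : Y.submatrix id τ = U'ᵀ * L'ᵀ := by
    rw [← Matrix.transpose_mul, ← h2, Matrix.transpose_submatrix, Matrix.transpose_transpose]
  rw [← h1, ← h3, hM, Matrix.submatrix_mul _ _ σ id τ Function.bijective_id,
    Matrix.submatrix_mul _ _ σ id id Function.bijective_id, Matrix.submatrix_id_id]

end Pool.Agent.W966.Kron
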