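import Pool.Agent.W966.Tail
import Pool.Agent.W966.Plu

set_option autoImplicit false
set_option linter.unusedSectionVars false

/-!
# Kronecker products of arbitrary square matrices
-/

namespace Pool.Agent.W966.Kron

open Matrix Finset

section Ball

variable {ι : Type*} [Fintype ι] [DecidableEq ι] {α : ι → Type*}
  [∀ i, Fintype (α i)] [∀ i, DecidableEq (α i)]

/-- The size of Hamming balls. -/
theorem ball_theta (x : ∀ i, α i) (s : ℕ) (θ : ℝ) (h0 : 0 < θ) (h1 : θ ≤ 1) :
    ((Finset.univ.filter fun y : (∀ i, α i) => hammingDist x y ≤ s).card : ℝ) * θ ^ s ≤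
      Real.exp (θ * ∑ i, (Fintype.card (α i) : ℝ)) := by
  classical
  have e1 : ∑ y : (∀ i, α i), θ ^ hammingDist x y =
      ∏ i, ∑ a : α i, (if x i = a then 1 else θ) := by
    rw [Finset.prod_univ_sum, Fintype.piFinset_univ]
    refine Finset.sum_congr rfl fun y _ => ?_
    rw [hammingDist, Finset.card_filter, Finset.prod_ite]
    simp only [Finset.prod_const_one, one_mul, Finset.prod_const]
    congr 1
    rw [← Finset.card_filter]
  have e2 : ∀ i, ∑ a : α i, (if x i = a then 1 else θ) ≤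
      Real.exp (θ * (Fintype.card (α i) : ℝ)) := by
    intro i
    have e3 : ∑ a : α i, (if x i = a then 1 else θ) =
        ∑ a : α i, ((if x i = a then 1 - θ else 0) + θ) := by
      refine Finset.sum_congr rfl fun a _ => ?_
      split_ifs <;> ring
    rw [e3, Finset.sum_add_distrib, Finset.sum_ite_eq, if_pos (Finset.mem_univ _),
      Finset.sum_const, Finset.card_univ, nsmul_eq_mul]
    have := Real.add_one_le_exp (θ * (Fintype.card (α i) : ℝ))
    linarith
  calc ((Finset.univ.filter fun y : (∀ i, α i) => hammingDist x y ≤ s).card : ℝ) * θ ^ s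
      = ∑ y ∈ Finset.univ.filter (fun y : (∀ i, α i) => hammingDist x y ≤ s), θ ^ s := by
        rw [Finset.sum_const, nsmul_eq_mul]
    _ ≤ ∑ y ∈ Finset.univ.filter (fun y : (∀ i, α i) => hammingDist x y ≤ s),
          θ ^ hammingDist x y := by
        refine Finset.sum_le_sum fun y hy => ?_
        exact pow_le_pow_of_le_one h0.le h1 (Finset.mem_filter.1 hy).2
    _ ≤ ∑ y : (∀ i, α i), θ ^ hammingDist x y :=
        Finset.sum_le_sum_of_subset_of_nonneg (Finset.filter_subset _ _)
          fun y _ _ => pow_nonneg h0.le _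
    _ = ∏ i, ∑ a : α i, (if x i = a then 1 else θ) := e1
    _ ≤ ∏ i, Real.exp (θ * (Fintype.card (α i) : ℝ)) := by
        refine Finset.prod_le_prod (fun i _ => Finset.sum_nonneg fun a _ => ?_) fun i _ => e2 i
        split_ifs
        · exact zero_le_one
        · exact h0.le
    _ = Real.exp (θ * ∑ i, (Fintype.card (α i) : ℝ)) := by
        rw [← Real.exp_sum, Finset.mul_sum]

end Ball

/-- `T` is the sum of a matrix with at most `ρ` nonzero entries in every row and in every column,
and of a matrix of rank at most `r`. -/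
def Spr {K : Type*} [Field K] {m : Type*} [Fintype m] (ρ r : ℝ) (T : Matrix m m K) : Prop :=
  ∃ S : Matrix m m K, ((T - S).rank : ℝ) ≤ r ∧ (∀ x, (({y | S x y ≠ 0} : Set m).ncard : ℝ) ≤ ρ) ∧
    ∀ y, (({x | S x y ≠ 0} : Set m).ncard : ℝ) ≤ ρ

theorem Spr.mono {K : Type*} [Field K] {m : Type*} [Fintype m] {ρ r ρ' r' : ℝ}
    {T : Matrix m m K} (h : Spr ρ r T) (h1 : ρ ≤ ρ') (h2 : r ≤ r') : Spr ρ' r' T := by
  obtain ⟨S, a, b, c⟩ := h
  exact ⟨S, a.trans h2, fun x => (b x).trans h1, fun x => (c x).trans h1⟩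

theorem Spr.trivial {K : Type*} [Field K] {m : Type*} [Fintype m] {ρ r : ℝ}
    (T : Matrix m m K) (hρ : 0 ≤ ρ) (hr : (Fintype.card m : ℝ) ≤ r) : Spr ρ r T := by
  refine ⟨0, ?_, fun x => ?_, fun x => ?_⟩
  · refine le_trans ?_ hr
    exact_mod_cast Matrix.rank_le_card_width (T - 0)
  · simpa using hρ
  · simpa using hρ

theorem Spr.reindex {K : Type*} [Field K] {m m' : Type*} [Fintype m] [Fintype m'] {ρ r : ℝ}
    {T : Matrix m m K} (e e' : m' ≃ m) (h : Spr ρ r (T.submatrix e e')) : Spr ρ r T := by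
  obtain ⟨S, a, b, c⟩ := h
  refine ⟨S.submatrix e.symm e'.symm, ?_, fun x => ?_, fun y => ?_⟩
  · have h1 : T - S.submatrix e.symm e'.symm = (T.submatrix e e' - S).submatrix e.symm e'.symm := by
      ext x y
      simp
    rw [h1, Matrix.rank_submatrix]
    exact a
  · have h1 : {y | (S.submatrix e.symm e'.symm) x y ≠ 0} = e' '' {y | S (e.symm x) y ≠ 0} := by
      ext y
      constructor
      · intro hy
        exact ⟨e'.symm y, hy, by simp⟩
      · rintro ⟨z, hz, rfl⟩
        simpa using hz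
    rw [h1, Set.ncard_image_of_injective _ e'.injective]
    exact b _
  · have h1 : {x | (S.submatrix e.symm e'.symm) x y ≠ 0} = e '' {x | S x (e'.symm y) ≠ 0} := by
      ext x
      constructor
      · intro hx
        exact ⟨e.symm x, hx, by simp⟩
      · rintro ⟨z, hz, rfl⟩
        simpa using hz
    rw [h1, Set.ncard_image_of_injective _ e.injective]
    exact c _

section Arb

variable {K : Type*} [Field K] {ι : Type*} [Fintype ι] [DecidableEq ι] {n : ι → ℕ}

theorem Good.spr {s : ℕ} {r : ℝ} {T : Matrix (∀ i, Fin (n i)) (∀ i, Fin (n i)) K}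
    (h : Good s r T) (θ : ℝ) (h0 : 0 < θ) (h1 : θ ≤ 1) :
    Spr (Real.exp (θ * ∑ i, (n i : ℝ)) / θ ^ s) r T := by
  classical
  obtain ⟨S, R, hT, hR, hS⟩ := h
  have key : ∀ x : (∀ i, Fin (n i)), ∀ A : Set (∀ i, Fin (n i)),
      (∀ y ∈ A, hammingDist x y ≤ s) → (A.ncard : ℝ) ≤ Real.exp (θ * ∑ i, (n i : ℝ)) / θ ^ s := by
    intro x A hA
    rw [le_div_iff₀ (pow_pos h0 _)]
    have h2 := ball_theta x s θ h0 h1
    simp only [Fintype.card_fin] at h2
    refine le_trans ?_ h2
    refine mul_le_mul_of_nonneg_right ?_ (pow_nonneg h0.le _)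
    have h3 : A.ncard ≤ (Finset.univ.filter fun y : (∀ i, Fin (n i)) =>
        hammingDist x y ≤ s).card := by
      rw [← Set.ncard_coe_finset]
      refine Set.ncard_le_ncard ?_ (Set.toFinite _)
      intro y hy
      simpa using hA y hy
    exact_mod_cast h3
  refine ⟨S, ?_, fun x => key x _ fun y hy => hS x y hy, fun y => key y _ fun x hx => ?_⟩
  · rw [hT]
    simpa using hR
  · rw [hammingDist_comm]
    exact hS x y hx

/-- Kronecker products of arbitrary square matrices, up to permutations of rows and columns. -/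
theorem good_arb (M : ∀ i, Matrix (Fin (n i)) (Fin (n i)) K) (hn : ∀ i, 0 < n i)
    {t : ℕ} (ht : 0 < t) (κ : ℝ) (hκ : (Fintype.card ι : ℝ) ≤ κ) (hκ0 : 0 < κ) (j : ℕ)
    (hj : ∀ i, n i ≤ 2 ^ j) :
    ∃ σ τ : (∀ i, Fin (n i)) ≃ (∀ i, Fin (n i)),
      Good (4 * j * t) (16 * j * ((∏ i, (n i : ℝ)) * Real.exp (-((t : ℝ) ^ 2 / (8 * κ)))))
        ((tens M).submatrix σ τ) := by
  classical
  choose σ τ L U L' U' D hL hL' hU hU' hLd hUd hLd' hUd' hM using fun i => plu_all (M i)
  refine ⟨Equiv.piCongrRight σ, Equiv.piCongrRight τ, ?_⟩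
  have h1 : (tens M).submatrix (Equiv.piCongrRight σ) (Equiv.piCongrRight τ) =
      tens (fun i => L i * U i) * tens (fun i => Matrix.diagonal (D i)) *
        tens (fun i => L' i * U' i) := by
    rw [tens_mul, tens_mul]
    have h2 : (fun i => L i * U i * Matrix.diagonal (D i) * (L' i * U' i)) =
        fun i => (M i).submatrix (σ i) (τ i) := funext fun i => (hM i).symm
    rw [h2]
    ext x y
    rfl
  rw [h1]
  have g1 := good_lu_exp L U hL hU hLd hUd hn ht κ hκ hκ0 j hj
  have g2 := good_lu_exp L' U' hL' hU' hLd' hUd' hn ht κ hκ hκ0 j hj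
  have g3 := good_diag (fun i => Matrix.diagonal (D i)) (fun i a c h => by
    by_contra hac
    exact h (Matrix.diagonal_apply_ne _ hac))
  refine ((g1.mul g3).mul g2).mono (by ring_nf; exact le_refl _) (le_of_eq (by ring))

end Arb

end Pool.Agent.W966.Kron
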