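import Pool.Agent.W966.Dft

set_option autoImplicit false
set_option linter.unusedSectionVars false

/-!
# Hamming balls, and the discrete Fourier transform of a length with many coprime factors
-/

namespace Pool.Agent.W966.Kron

open Matrix Finset

variable {K : Type*} [Field K]
variable {ι : Type*} [Fintype ι] [DecidableEq ι] {n : ι → ℕ}

theorem ball_card (x : ∀ i, Fin (n i)) (s d : ℕ) (hd : 0 < d) (hn : ∀ i, n i ≤ d) :
    (Finset.univ.filter fun y : (∀ i, Fin (n i)) => hammingDist x y ≤ s).card ≤
      2 ^ Fintype.card ι * d ^ s := by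
  classical
  have h1 : (Finset.univ.filter fun y : (∀ i, Fin (n i)) => hammingDist x y ≤ s) ⊆
      ((Finset.univ : Finset (Finset ι)).filter fun T => T.card ≤ s).biUnion fun T =>
        Fintype.piFinset fun i => if i ∈ T then (Finset.univ : Finset (Fin (n i))) else {x i} := by
    intro y hy
    rw [Finset.mem_filter] at hy
    rw [Finset.mem_biUnion]
    refine ⟨Finset.univ.filter fun i => x i ≠ y i, ?_, ?_⟩
    · rw [Finset.mem_filter]
      exact ⟨Finset.mem_univ _, hy.2⟩
    · rw [Fintype.mem_piFinset]
      intro i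
      by_cases hi : x i = y i
      · simp [hi]
      · simp [hi]
  refine (Finset.card_le_card h1).trans (Finset.card_biUnion_le.trans ?_)
  have h2 : ∀ T ∈ ((Finset.univ : Finset (Finset ι)).filter fun T => T.card ≤ s),
      (Fintype.piFinset fun i =>
        if i ∈ T then (Finset.univ : Finset (Fin (n i))) else {x i}).card ≤ d ^ s := by
    intro T hT
    rw [Finset.mem_filter] at hT
    rw [Fintype.card_piFinset]
    calc ∏ i, (if i ∈ T then (Finset.univ : Finset (Fin (n i))) else {x i}).card
        ≤ ∏ i, (if i ∈ T then d else 1) := by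
          refine Finset.prod_le_prod' fun i _ => ?_
          split_ifs
          · simpa using hn i
          · simp
      _ = d ^ T.card := by
          rw [Finset.prod_ite_mem, Finset.univ_inter, Finset.prod_const]
      _ ≤ d ^ s := Nat.pow_le_pow_right hd hT.2
  refine (Finset.sum_le_card_nsmul _ _ _ h2).trans ?_
  rw [smul_eq_mul]
  refine Nat.mul_le_mul_right _ ?_
  refine (Finset.card_filter_le _ _).trans ?_
  rw [Finset.card_univ, Fintype.card_finset]

/-- The number of the entries in which the matrices `A` and `B` differ. -/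
noncomputable def changes {m : Type*} (A B : Matrix m m K) : ℕ :=
  {q : m × m | A q.1 q.2 ≠ B q.1 q.2}.ncard

/-- The discrete Fourier transform of length `∏ p i` is not rigid. -/
theorem dft_changes (p : ι → ℕ) (hp0 : ∀ i, 0 < p i)
    (hp : Pairwise (Function.onFun Nat.Coprime p)) (w : K) (hw : IsPrimitiveRoot w (∏ i, p i))
    {t : ℕ} (ht : 0 < t) (j : ℕ) (hj : ∀ i, p i ≤ 2 ^ j) :
    ∃ B : Matrix (Fin (∏ i, p i)) (Fin (∏ i, p i)) K,
      (B.rank : ℝ) ≤ 2 * j * (8 * (∏ i, (p i : ℝ)) * Fintype.card ι / t ^ 2) ∧
      changes (dft w (∏ i, p i)) B ≤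
        (∏ i, p i) * (2 ^ Fintype.card ι * (2 ^ j) ^ (2 * j * t)) := by
  classical
  obtain ⟨e, v, hv, hD⟩ := dft_eq_tens p hp0 hp w hw
  obtain ⟨S, R, hT, hR, hS⟩ := good_vand v hv hp0 ht j hj
  refine ⟨R.submatrix e e, ?_, ?_⟩
  · rw [Matrix.rank_submatrix]
    exact hR
  · rw [hD, hT, changes]
    have h1 : {q : Fin (∏ i, p i) × Fin (∏ i, p i) |
        (S + R).submatrix e e q.1 q.2 ≠ R.submatrix e e q.1 q.2} ⊆
        ((Finset.univ : Finset (Fin (∏ i, p i))).biUnion fun x =>
          (Finset.univ.filter fun y => hammingDist (e x) (e y) ≤ 2 * j * t).map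
            ⟨fun y => (x, y), fun a b h => by simpa using h⟩ :
          Finset (Fin (∏ i, p i) × Fin (∏ i, p i))) := by
      rintro ⟨x, y⟩ hxy
      simp only [Set.mem_setOf_eq, Matrix.submatrix_apply, Matrix.add_apply] at hxy
      have h2 : S (e x) (e y) ≠ 0 := by
        intro h0
        rw [h0, zero_add] at hxy
        exact hxy rfl
      simp only [Finset.coe_biUnion, Set.mem_iUnion, Finset.coe_map, Set.mem_image,
        Finset.mem_coe, Finset.mem_filter, Finset.mem_univ, true_and]
      exact ⟨x, trivial, y, hS _ _ h2, rfl⟩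
    refine (Set.ncard_le_ncard h1 (Finset.finite_toSet _)).trans ?_
    rw [Set.ncard_coe_finset]
    refine Finset.card_biUnion_le.trans ?_
    refine (Finset.sum_le_card_nsmul _ _ (2 ^ Fintype.card ι * (2 ^ j) ^ (2 * j * t)) ?_).trans ?_
    · intro x _
      rw [Finset.card_map]
      refine le_trans (le_of_eq ?_) (ball_card (e x) (2 * j * t) (2 ^ j) (by positivity) hj)
      refine Finset.card_bij (fun y _ => e y) ?_ ?_ ?_
      · intro y hy
        simpa using hy
      · intro a _ b _ hab
        exact e.injective hab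
      · intro z hz
        exact ⟨e.symm z, by simpa using hz, by simp⟩
    · rw [Finset.card_univ, Fintype.card_fin, smul_eq_mul]

end Pool.Agent.W966.Kron
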