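import Mathlib

set_option autoImplicit false
set_option linter.unusedSectionVars false

/-!
# Rank factorisations, tensor products and descent to a smaller field
-/

namespace Pool.Agent.W966.Kron

open Matrix Finset

theorem rank_le_of_eq_mul {K : Type*} [Field K] {m n k : Type*} [Fintype n] [Fintype k]
    (A : Matrix m n K) (P : Matrix m k K) (Q : Matrix k n K) (h : A = P * Q) :
    A.rank ≤ Fintype.card k := by
  rw [h]
  exact (rank_mul_le_right P Q).trans (rank_le_card_height Q)

theorem exists_factor {K : Type*} [Field K] {m n : Type*} [Fintype m] [Fintype n]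
    (A : Matrix m n K) :
    ∃ (P : Matrix m (Fin A.rank) K) (Q : Matrix (Fin A.rank) n K), A = P * Q := by
  classical
  have h1 : Module.finrank K (Submodule.span K (Set.range A.col)) = A.rank :=
    (rank_eq_finrank_span_cols A).symm
  let b : Module.Basis (Fin A.rank) K (Submodule.span K (Set.range A.col)) :=
    Module.finBasisOfFinrankEq K _ h1
  refine ⟨Matrix.of fun x i => (b i : m → K) x,
    Matrix.of fun i y => b.repr ⟨A.col y, Submodule.subset_span ⟨y, rfl⟩⟩ i, ?_⟩
  ext x y
  rw [Matrix.mul_apply]
  simp only [Matrix.of_apply]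
  have h2 := b.sum_repr ⟨A.col y, Submodule.subset_span ⟨y, rfl⟩⟩
  have h3 := congrArg (fun w : Submodule.span K (Set.range A.col) => (w : m → K) x) h2
  simp only [Submodule.coe_sum, Submodule.coe_smul, Finset.sum_apply, Pi.smul_apply,
    smul_eq_mul] at h3
  rw [show A x y = A.col y x from rfl, ← h3]
  exact Finset.sum_congr rfl fun i _ => mul_comm _ _

/-- The rank of a tensor product. -/
theorem rank_kron_le {K : Type*} [Field K] {m n m' n' : Type*} [Fintype m] [Fintype n]
    [Fintype m'] [Fintype n'] (A : Matrix m n K) (B : Matrix m' n' K) :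
    (Matrix.of fun (p : m × m') (q : n × n') => A p.1 q.1 * B p.2 q.2).rank ≤
      A.rank * Fintype.card m' := by
  classical
  obtain ⟨P, Q, h⟩ := exists_factor A
  refine (rank_le_of_eq_mul (k := Fin A.rank × m') _
    (Matrix.of fun p k => P p.1 k.1 * (if p.2 = k.2 then 1 else 0))
    (Matrix.of fun k q => Q k.1 q.1 * B k.2 q.2) ?_).trans ?_
  · ext p q
    rw [Matrix.mul_apply, Fintype.sum_prod_type, Matrix.of_apply]
    simp only [Matrix.of_apply]
    have h1 : A p.1 q.1 = ∑ i, P p.1 i * Q i q.1 := by
      conv_lhs => rw [h]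
      rw [Matrix.mul_apply]
    rw [h1, Finset.sum_mul]
    refine Finset.sum_congr rfl fun i _ => ?_
    rw [Finset.sum_eq_single p.2]
    · rw [if_pos rfl]; ring
    · intro j _ hj
      rw [if_neg (Ne.symm hj)]; ring
    · intro h; exact absurd (Finset.mem_univ _) h
  · rw [Fintype.card_prod, Fintype.card_fin]

/-- The rank of a tensor product. -/
theorem rank_kron_le' {K : Type*} [Field K] {m n m' n' : Type*} [Fintype m] [Fintype n]
    [Fintype m'] [Fintype n'] (A : Matrix m n K) (B : Matrix m' n' K) :
    (Matrix.of fun (p : m × m') (q : n × n') => A p.1 q.1 * B p.2 q.2).rank ≤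
      Fintype.card m * B.rank := by
  classical
  obtain ⟨P, Q, h⟩ := exists_factor B
  refine (rank_le_of_eq_mul (k := m × Fin B.rank) _
    (Matrix.of fun p k => (if p.1 = k.1 then 1 else 0) * P p.2 k.2)
    (Matrix.of fun k q => A k.1 q.1 * Q k.2 q.2) ?_).trans ?_
  · ext p q
    rw [Matrix.mul_apply, Fintype.sum_prod_type, Matrix.of_apply]
    simp only [Matrix.of_apply]
    have h1 : B p.2 q.2 = ∑ i, P p.2 i * Q i q.2 := by
      conv_lhs => rw [h]
      rw [Matrix.mul_apply]
    rw [Finset.sum_eq_single p.1]
    · rw [h1, Finset.mul_sum]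
      refine Finset.sum_congr rfl fun i _ => ?_
      rw [if_pos rfl]; ring
    · intro j _ hj
      refine Finset.sum_eq_zero fun i _ => ?_
      rw [if_neg (Ne.symm hj)]; ring
    · intro h; exact absurd (Finset.mem_univ _) h
  · rw [Fintype.card_prod, Fintype.card_fin]

/-- Descent of a decomposition to a smaller field. -/
theorem descent {F L : Type*} [Field F] [Field L] [Algebra F L] [FiniteDimensional F L]
    {m n : Type*} [Fintype m] [Fintype n] (A : Matrix m n F) (S R : Matrix m n L)
    (h : A.map (algebraMap F L) = S + R) :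
    ∃ S' : Matrix m n F, (∀ x y, S x y = 0 → S' x y = 0) ∧
      (A - S').rank ≤ R.rank * Module.finrank F L := by
  classical
  -- a linear functional with value `1` at `1`
  obtain ⟨lam, hlam⟩ : ∃ lam : L →ₗ[F] F, lam 1 = 1 := by
    obtain ⟨g, hg⟩ := LinearMap.exists_leftInverse_of_injective (Algebra.linearMap F L)
      (LinearMap.ker_eq_bot.2 (algebraMap F L).injective)
    refine ⟨g, ?_⟩
    have := congrArg (fun f : F →ₗ[F] F => f 1) hg
    simpa using this
  obtain ⟨P, Q, hPQ⟩ := exists_factor R
  let b := Module.finBasis F L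
  refine ⟨Matrix.of fun x y => lam (S x y), fun x y hxy => by simp [hxy], ?_⟩
  refine (rank_le_of_eq_mul (k := Fin R.rank × Fin (Module.finrank F L)) _
    (Matrix.of fun x k => lam (P x k.1 * b k.2))
    (Matrix.of fun k y => b.repr (Q k.1 y) k.2) ?_).trans ?_
  · ext x y
    rw [Matrix.mul_apply, Fintype.sum_prod_type, Matrix.sub_apply]
    simp only [Matrix.of_apply]
    have h1 : algebraMap F L (A x y) = S x y + R x y := congrFun (congrFun h x) y
    have h2 : A x y = lam (S x y) + lam (R x y) := by
      rw [← map_add, ← h1, Algebra.algebraMap_eq_smul_one, map_smul, hlam, smul_eq_mul, mul_one]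
    rw [h2, add_sub_cancel_left]
    have h3 : R x y = ∑ i, P x i * Q i y := by
      conv_lhs => rw [hPQ]
      rw [Matrix.mul_apply]
    rw [h3, map_sum]
    refine Finset.sum_congr rfl fun i _ => ?_
    conv_lhs => rw [← b.sum_repr (Q i y), Finset.mul_sum, map_sum]
    refine Finset.sum_congr rfl fun j _ => ?_
    rw [mul_smul_comm, map_smul, smul_eq_mul, mul_comm]
  · rw [Fintype.card_prod, Fintype.card_fin, Fintype.card_fin]

end Pool.Agent.W966.Kron
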