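import Pool.Agent.W966.Tail
import Pool.Agent.W966.Rk

set_option autoImplicit false
set_option linter.unusedSectionVars false

/-!
# Circulant matrices of products of cyclic groups
-/

namespace Pool.Agent.W966.Kron

open Matrix Finset

variable {K : Type*} [Field K]

section Reindex

variable {ι : Type*} [Fintype ι] [DecidableEq ι] {α β : ι → Type*}
  [∀ i, Fintype (α i)] [∀ i, DecidableEq (α i)] [∀ i, Fintype (β i)] [∀ i, DecidableEq (β i)]

theorem Good.reindex {s : ℕ} {r : ℝ} (e : ∀ i, α i ≃ β i) (M : ∀ i, Matrix (β i) (β i) K)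
    (h : Good s r (tens M)) : Good s r (tens fun i => (M i).submatrix (e i) (e i)) := by
  obtain ⟨S, R, hT, hR, hS⟩ := h
  let E : (∀ i, α i) ≃ (∀ i, β i) := Equiv.piCongrRight e
  refine ⟨S.submatrix E E, R.submatrix E E, ?_, ?_, ?_⟩
  · ext x y
    change tens M (E x) (E y) = S (E x) (E y) + R (E x) (E y)
    rw [hT]
    rfl
  · rwa [Matrix.rank_submatrix]
  · intro x y hxy
    have := hS (E x) (E y) hxy
    have h2 : hammingDist (E x) (E y) = hammingDist x y :=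
      hammingDist_comp (fun i => (e i)) (fun i => (e i).injective)
    rwa [h2] at this

theorem tens_one : tens (fun i => (1 : Matrix (α i) (α i) K)) = 1 := by
  ext x y
  simp only [tens, Matrix.one_apply]
  by_cases h : x = y
  · subst h
    simp
  · rw [if_neg h]
    obtain ⟨i, hi⟩ := Function.ne_iff.1 h
    exact Finset.prod_eq_zero (Finset.mem_univ i) (by rw [if_neg hi])

end Reindex

/-- The matrix of the characters of `ZMod m`. -/
def cf (z : K) (m : ℕ) : Matrix (ZMod m) (ZMod m) K := fun a b => z ^ (a.val * b.val)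

/-- The bijection between `ZMod m` and `Fin m`. -/
def zf (m : ℕ) [NeZero m] : ZMod m ≃ Fin m where
  toFun a := ⟨a.val, ZMod.val_lt a⟩
  invFun b := ((b : ℕ) : ZMod m)
  left_inv a := by simp
  right_inv b := by
    ext
    simp [ZMod.val_cast_of_lt b.2]

theorem cf_eq (z : K) (m : ℕ) [NeZero m] :
    cf z m = (Matrix.vandermonde (fun a : Fin m => z ^ (a : ℕ))).submatrix (zf m) (zf m) := by
  ext a b
  simp only [cf, Matrix.submatrix_apply, Matrix.vandermonde_apply, zf, Equiv.coe_fn_mk, pow_mul]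

theorem pow_injective {z : K} {m : ℕ} (hz : IsPrimitiveRoot z m) :
    Function.Injective (fun a : Fin m => z ^ (a : ℕ)) := by
  intro a b hab
  exact Fin.ext (hz.pow_inj a.2 b.2 hab)

theorem cf_det {z : K} {m : ℕ} [NeZero m] (hz : IsPrimitiveRoot z m) : (cf z m).det ≠ 0 := by
  rw [cf_eq, Matrix.det_submatrix_equiv_self]
  exact Matrix.det_vandermonde_ne_zero_iff.2 (pow_injective hz)

theorem cf_sub {z : K} {m : ℕ} [NeZero m] (hz : IsPrimitiveRoot z m) (a b c : ZMod m) :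
    cf z m (a - b) c = cf z m a c * cf z⁻¹ m b c := by
  have hz0 : z ≠ 0 := hz.ne_zero (NeZero.ne m)
  simp only [cf]
  rw [inv_pow, eq_mul_inv_iff_mul_eq₀ (pow_ne_zero _ hz0), ← pow_add, ← add_mul]
  refine pow_modEq hz.pow_eq_one ?_
  refine Nat.ModEq.mul_right _ ?_
  rw [← ZMod.natCast_eq_natCast_iff]
  push_cast
  simp

section

variable {ι : Type*} [Fintype ι] [DecidableEq ι] {n : ι → ℕ} [∀ i, NeZero (n i)]

theorem good_cf (z : ι → K) (hz : ∀ i, IsPrimitiveRoot (z i) (n i))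
    {t : ℕ} (ht : 0 < t) (κ : ℝ) (hκ : (Fintype.card ι : ℝ) ≤ κ)
    (hκ0 : 0 < κ) (j : ℕ) (hj : ∀ i, n i ≤ 2 ^ j) :
    Good (2 * j * t) (8 * j * ((∏ i, (n i : ℝ)) * Real.exp (-((t : ℝ) ^ 2 / (8 * κ)))))
      (tens (fun i => cf (z i) (n i))) := by
  have h1 := good_vand_exp (fun i (a : Fin (n i)) => z i ^ (a : ℕ))
    (fun i => pow_injective (hz i)) (fun i => NeZero.pos (n i)) ht κ hκ hκ0 j hj
  have h2 := h1.reindex (fun i => zf (n i))
  simpa only [← cf_eq] using h2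

theorem tens_cf_inv (z : ι → K) (hz : ∀ i, IsPrimitiveRoot (z i) (n i)) :
    tens (fun i => cf (z i) (n i)) * tens (fun i => (cf (z i) (n i))⁻¹) = 1 := by
  rw [tens_mul, ← tens_one]
  congr 1
  funext i
  exact Matrix.mul_nonsing_inv _ (isUnit_iff_ne_zero.2 (cf_det (hz i)))

theorem tens_cf_sub (z : ι → K) (hz : ∀ i, IsPrimitiveRoot (z i) (n i))
    (a b c : ∀ i, ZMod (n i)) :
    tens (fun i => cf (z i) (n i)) (a - b) c =
      tens (fun i => cf (z i) (n i)) a c * tens (fun i => cf (z i)⁻¹ (n i)) b c := by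
  simp only [tens]
  rw [← Finset.prod_mul_distrib]
  exact Finset.prod_congr rfl fun i _ => cf_sub (hz i) _ _ _

end

section Two

variable {ι₁ ι₂ : Type*} [Fintype ι₁] [DecidableEq ι₁] [Fintype ι₂] [DecidableEq ι₂]
  {q : ι₁ → ℕ} {n : ι₂ → ℕ} [∀ i, NeZero (q i)] [∀ i, NeZero (n i)]
  {X : Type*} [Fintype X] [DecidableEq X]

theorem split_half (φ : X → ∀ i, ZMod (n i))
    (V₁ : Matrix (∀ i, ZMod (q i)) (∀ i, ZMod (q i)) K)
    (V₂ : Matrix (∀ i, ZMod (n i)) (∀ i, ZMod (n i)) K)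
    {s₁ s₂ : ℕ} {r₁ r₂ : ℝ} (h₁ : Good s₁ r₁ V₁) (h₂ : Good s₂ r₂ V₂) :
    ∃ Ps Pr : Matrix ((∀ i, ZMod (q i)) × X) ((∀ i, ZMod (q i)) × (∀ i, ZMod (n i))) K,
      (Matrix.of fun p h => V₁ p.1 h.1 * V₂ (φ p.2) h.2) = Ps + Pr ∧
      (Pr.rank : ℝ) ≤ r₁ * Fintype.card X + Fintype.card (∀ i, ZMod (q i)) * r₂ ∧
      ∀ p h, Ps p h ≠ 0 → hammingDist p.1 h.1 ≤ s₁ ∧ hammingDist (φ p.2) h.2 ≤ s₂ := by
  obtain ⟨S₁, R₁, rfl, hR₁, hS₁⟩ := h₁
  obtain ⟨S₂, R₂, rfl, hR₂, hS₂⟩ := h₂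
  refine ⟨Matrix.of fun p h => S₁ p.1 h.1 * S₂ (φ p.2) h.2,
    (Matrix.of fun p h => R₁ p.1 h.1 * ((S₂ + R₂).submatrix φ id) p.2 h.2) +
      (Matrix.of fun p h => S₁ p.1 h.1 * (R₂.submatrix φ id) p.2 h.2), ?_, ?_, ?_⟩
  · ext p h
    simp only [Matrix.of_apply, Matrix.add_apply, Matrix.submatrix_apply, id]
    ring
  · have h1 : ∀ (A B : Matrix ((∀ i, ZMod (q i)) × X) ((∀ i, ZMod (q i)) × (∀ i, ZMod (n i))) K),
        (A + B).rank ≤ A.rank + B.rank := by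
      intro A B
      unfold Matrix.rank
      rw [Matrix.mulVecLin_add]
      exact (Submodule.finrank_mono (LinearMap.range_add_le _ _)).trans
        (Submodule.finrank_add_le_finrank_add_finrank _ _)
    have h2 := h1 (Matrix.of fun (p : (∀ i, ZMod (q i)) × X)
        (h : (∀ i, ZMod (q i)) × (∀ i, ZMod (n i))) =>
          R₁ p.1 h.1 * ((S₂ + R₂).submatrix φ id) p.2 h.2)
      (Matrix.of fun (p : (∀ i, ZMod (q i)) × X)
        (h : (∀ i, ZMod (q i)) × (∀ i, ZMod (n i))) =>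
          S₁ p.1 h.1 * (R₂.submatrix φ id) p.2 h.2)
    have h3 := rank_kron_le R₁ ((S₂ + R₂).submatrix φ id)
    have h4 := rank_kron_le' S₁ (R₂.submatrix φ id)
    have h5 : (R₂.submatrix φ id).rank ≤ R₂.rank := Matrix.rank_submatrix_le _ _ _
    have h6 : (((Matrix.of fun (p : (∀ i, ZMod (q i)) × X)
        (h : (∀ i, ZMod (q i)) × (∀ i, ZMod (n i))) =>
          R₁ p.1 h.1 * ((S₂ + R₂).submatrix φ id) p.2 h.2) +
        (Matrix.of fun (p : (∀ i, ZMod (q i)) × X)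
        (h : (∀ i, ZMod (q i)) × (∀ i, ZMod (n i))) =>
          S₁ p.1 h.1 * (R₂.submatrix φ id) p.2 h.2)).rank : ℝ) ≤
        R₁.rank * Fintype.card X + Fintype.card (∀ i, ZMod (q i)) * R₂.rank := by
      have := h2.trans (Nat.add_le_add h3 (h4.trans (Nat.mul_le_mul_left _ h5)))
      exact_mod_cast this
    refine h6.trans ?_
    have h7 : (0 : ℝ) ≤ Fintype.card X := Nat.cast_nonneg _
    have h8 : (0 : ℝ) ≤ Fintype.card (∀ i, ZMod (q i)) := Nat.cast_nonneg _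
    nlinarith [mul_le_mul_of_nonneg_right hR₁ h7, mul_le_mul_of_nonneg_left hR₂ h8]
  · intro p h hne
    simp only [Matrix.of_apply] at hne
    exact ⟨hS₁ _ _ (left_ne_zero_of_mul hne), hS₂ _ _ (right_ne_zero_of_mul hne)⟩

/-- Circulant matrices of products of cyclic groups, over a field with enough roots of unity,
restricted to a set of places. -/
theorem circ_split (φ : X → ∀ i, ZMod (n i)) (z₁ : ι₁ → K) (z₂ : ι₂ → K)
    (hz₁ : ∀ i, IsPrimitiveRoot (z₁ i) (q i)) (hz₂ : ∀ i, IsPrimitiveRoot (z₂ i) (n i))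
    (F : (∀ i, ZMod (q i)) → (∀ i, ZMod (n i)) → K)
    {t₁ t₂ : ℕ} (ht₁ : 0 < t₁) (ht₂ : 0 < t₂) (κ₁ κ₂ : ℝ)
    (hκ₁ : (Fintype.card ι₁ : ℝ) ≤ κ₁) (hκ₂ : (Fintype.card ι₂ : ℝ) ≤ κ₂)
    (hκ₁0 : 0 < κ₁) (hκ₂0 : 0 < κ₂) (j₁ j₂ : ℕ) (hj₁ : ∀ i, q i ≤ 2 ^ j₁)
    (hj₂ : ∀ i, n i ≤ 2 ^ j₂) :
    ∃ S R : Matrix ((∀ i, ZMod (q i)) × X) ((∀ i, ZMod (q i)) × X) K,
      (Matrix.of fun p p' => F (p.1 - p'.1) (φ p.2 - φ p'.2)) = S + R ∧
      (R.rank : ℝ) ≤ 16 * (j₁ * ((∏ i, (q i : ℝ)) * Real.exp (-((t₁ : ℝ) ^ 2 / (8 * κ₁)))) *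
          Fintype.card X +
        (∏ i, (q i : ℝ)) *
          (j₂ * ((∏ i, (n i : ℝ)) * Real.exp (-((t₂ : ℝ) ^ 2 / (8 * κ₂)))))) ∧
      ∀ p p', S p p' ≠ 0 → hammingDist p.1 p'.1 ≤ 4 * j₁ * t₁ ∧
        hammingDist (φ p.2) (φ p'.2) ≤ 4 * j₂ * t₂ := by
  classical
  have hi₁ : ∀ i, IsPrimitiveRoot (z₁ i)⁻¹ (q i) := fun i => (hz₁ i).inv
  have hi₂ : ∀ i, IsPrimitiveRoot (z₂ i)⁻¹ (n i) := fun i => (hz₂ i).inv
  have g₁ := good_cf z₁ hz₁ ht₁ κ₁ hκ₁ hκ₁0 j₁ hj₁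
  have g₂ := good_cf z₂ hz₂ ht₂ κ₂ hκ₂ hκ₂0 j₂ hj₂
  have g₁' := good_cf (fun i => (z₁ i)⁻¹) hi₁ ht₁ κ₁ hκ₁ hκ₁0 j₁ hj₁
  have g₂' := good_cf (fun i => (z₂ i)⁻¹) hi₂ ht₂ κ₂ hκ₂ hκ₂0 j₂ hj₂
  obtain ⟨Ps, Pr, hP, hPr, hPs⟩ := split_half φ _ _ g₁ g₂
  obtain ⟨Qs, Qr, hQ, hQr, hQs⟩ := split_half φ _ _ g₁' g₂'
  set V₁ := tens (fun i => cf (z₁ i) (q i)) with hV₁
  set V₂ := tens (fun i => cf (z₂ i) (n i)) with hV₂
  set W₁ := tens (fun i => cf (z₁ i)⁻¹ (q i)) with hW₁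
  set W₂ := tens (fun i => cf (z₂ i)⁻¹ (n i)) with hW₂
  set I₁ := tens (fun i => (cf (z₁ i) (q i))⁻¹) with hI₁
  set I₂ := tens (fun i => (cf (z₂ i) (n i))⁻¹) with hI₂
  -- the Fourier coefficients
  let Λ : (∀ i, ZMod (q i)) × (∀ i, ZMod (n i)) → K := fun h =>
    ∑ w₁, ∑ w₂, I₁ h.1 w₁ * I₂ h.2 w₂ * F w₁ w₂
  have hF : ∀ a b, F a b = ∑ h : (∀ i, ZMod (q i)) × (∀ i, ZMod (n i)),
      V₁ a h.1 * V₂ b h.2 * Λ h := by
    intro a b
    have e1 : ∀ w₁, ∑ h₁, V₁ a h₁ * I₁ h₁ w₁ = if a = w₁ then 1 else 0 := by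
      intro w₁
      rw [← Matrix.mul_apply, hV₁, hI₁, tens_cf_inv z₁ hz₁, Matrix.one_apply]
    have e2 : ∀ w₂, ∑ h₂, V₂ b h₂ * I₂ h₂ w₂ = if b = w₂ then 1 else 0 := by
      intro w₂
      rw [← Matrix.mul_apply, hV₂, hI₂, tens_cf_inv z₂ hz₂, Matrix.one_apply]
    calc F a b = ∑ w₁, ∑ w₂, (if a = w₁ then 1 else 0) * (if b = w₂ then 1 else 0) * F w₁ w₂ := by
          rw [Finset.sum_eq_single a]
          · rw [Finset.sum_eq_single b]
            · simp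
            · intro w _ hw; rw [if_neg (Ne.symm hw)]; ring
            · intro h; exact absurd (Finset.mem_univ _) h
          · intro w _ hw
            refine Finset.sum_eq_zero fun w₂ _ => ?_
            rw [if_neg (Ne.symm hw)]; ring
          · intro h; exact absurd (Finset.mem_univ _) h
      _ = ∑ w₁, ∑ w₂, (∑ h₁, V₁ a h₁ * I₁ h₁ w₁) * (∑ h₂, V₂ b h₂ * I₂ h₂ w₂) * F w₁ w₂ := by
          refine Finset.sum_congr rfl fun w₁ _ => Finset.sum_congr rfl fun w₂ _ => ?_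
          rw [e1, e2]
      _ = ∑ w₁, ∑ w₂, ∑ h₁, ∑ h₂, V₁ a h₁ * V₂ b h₂ * (I₁ h₁ w₁ * I₂ h₂ w₂ * F w₁ w₂) := by
          refine Finset.sum_congr rfl fun w₁ _ => Finset.sum_congr rfl fun w₂ _ => ?_
          rw [Finset.sum_mul_sum, Finset.sum_mul]
          refine Finset.sum_congr rfl fun h₁ _ => ?_
          rw [Finset.sum_mul]
          refine Finset.sum_congr rfl fun h₂ _ => ?_
          ring
      _ = ∑ h₁, ∑ h₂, ∑ w₁, ∑ w₂, V₁ a h₁ * V₂ b h₂ * (I₁ h₁ w₁ * I₂ h₂ w₂ * F w₁ w₂) := by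
          have : ∀ w₁, ∑ w₂, ∑ h₁, ∑ h₂,
              V₁ a h₁ * V₂ b h₂ * (I₁ h₁ w₁ * I₂ h₂ w₂ * F w₁ w₂) =
              ∑ h₁, ∑ h₂, ∑ w₂, V₁ a h₁ * V₂ b h₂ * (I₁ h₁ w₁ * I₂ h₂ w₂ * F w₁ w₂) := by
            intro w₁
            rw [Finset.sum_comm]
            refine Finset.sum_congr rfl fun h₁ _ => ?_
            rw [Finset.sum_comm]
          rw [Finset.sum_congr rfl fun w₁ _ => this w₁, Finset.sum_comm]
          refine Finset.sum_congr rfl fun h₁ _ => ?_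
          rw [Finset.sum_comm]
      _ = _ := by
          rw [Fintype.sum_prod_type]
          refine Finset.sum_congr rfl fun h₁ _ => Finset.sum_congr rfl fun h₂ _ => ?_
          simp only [Λ, Finset.mul_sum]
  have hA : (Matrix.of fun p p' : (∀ i, ZMod (q i)) × X =>
      F (p.1 - p'.1) (φ p.2 - φ p'.2)) =
      (Ps + Pr) * Matrix.diagonal Λ * (Qs + Qr)ᵀ := by
    rw [← hP, ← hQ]
    ext p p'
    rw [Matrix.mul_apply]
    simp only [Matrix.mul_diagonal, Matrix.transpose_apply, Matrix.of_apply]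
    rw [hF]
    refine Finset.sum_congr rfl fun h _ => ?_
    rw [hV₁, hV₂, tens_cf_sub z₁ hz₁, tens_cf_sub z₂ hz₂]
    ring
  refine ⟨Ps * Matrix.diagonal Λ * Qsᵀ,
    Pr * (Matrix.diagonal Λ * (Qs + Qr)ᵀ) + (Ps * Matrix.diagonal Λ) * Qrᵀ, ?_, ?_, ?_⟩
  · rw [hA, Matrix.transpose_add]
    simp only [Matrix.add_mul, Matrix.mul_add, Matrix.mul_assoc]
    abel
  · have h1 : (Pr * (Matrix.diagonal Λ * (Qs + Qr)ᵀ) + (Ps * Matrix.diagonal Λ) * Qrᵀ).rank ≤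
        Pr.rank + Qr.rank := by
      refine (rank_add_le' _ _).trans (Nat.add_le_add (rank_mul_le_left _ _) ?_)
      exact (rank_mul_le_right _ _).trans (le_of_eq (Matrix.rank_transpose Qr))
    have h2 : ((Pr * (Matrix.diagonal Λ * (Qs + Qr)ᵀ) +
        (Ps * Matrix.diagonal Λ) * Qrᵀ).rank : ℝ) ≤ Pr.rank + Qr.rank := by exact_mod_cast h1
    have h3 : (Fintype.card (∀ i, ZMod (q i)) : ℝ) = ∏ i, (q i : ℝ) := by
      rw [Fintype.card_pi]
      push_cast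
      exact Finset.prod_congr rfl fun i _ => by rw [ZMod.card]
    rw [h3] at hPr hQr
    linarith
  · intro p p' hne
    rw [Matrix.mul_apply] at hne
    obtain ⟨h, -, hh⟩ := Finset.exists_ne_zero_of_sum_ne_zero hne
    rw [Matrix.mul_diagonal, Matrix.transpose_apply] at hh
    have a1 := hPs p h (left_ne_zero_of_mul (left_ne_zero_of_mul hh))
    have a2 := hQs p' h (right_ne_zero_of_mul hh)
    constructor
    · calc hammingDist p.1 p'.1 ≤ hammingDist p.1 h.1 + hammingDist h.1 p'.1 :=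
            hammingDist_triangle _ _ _
        _ ≤ 2 * j₁ * t₁ + 2 * j₁ * t₁ := by
            rw [hammingDist_comm h.1 p'.1]
            exact Nat.add_le_add a1.1 a2.1
        _ = _ := by ring
    · calc hammingDist (φ p.2) (φ p'.2) ≤ hammingDist (φ p.2) h.2 + hammingDist h.2 (φ p'.2) :=
            hammingDist_triangle _ _ _
        _ ≤ 2 * j₂ * t₂ + 2 * j₂ * t₂ := by
            rw [hammingDist_comm h.2 (φ p'.2)]
            exact Nat.add_le_add a1.2 a2.2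
        _ = _ := by ring

end Two

end Pool.Agent.W966.Kron
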