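import Pool.Agent.W966.Tri

set_option autoImplicit false
set_option linter.unusedSectionVars false

/-!
# The discrete Fourier transform of a product of pairwise coprime lengths
-/

namespace Pool.Agent.W966.Kron

open Matrix Finset

variable {K : Type*} [Field K]

section Vandermonde

open Polynomial

variable {n : ℕ} (v : Fin n → K)

/-- Newton's polynomials. -/
noncomputable def nw (m : Fin n) : K[X] :=
  ∏ s ∈ Finset.univ.filter (fun s : Fin n => s < m), (X - C (v s))

theorem nw_monic (m : Fin n) : (nw v m).Monic :=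
  monic_prod_of_monic _ _ fun s _ => monic_X_sub_C (v s)

theorem nw_natDegree (m : Fin n) : (nw v m).natDegree = m := by
  rw [nw, natDegree_prod_of_monic _ _ fun s _ => monic_X_sub_C (v s)]
  simp only [natDegree_X_sub_C, Finset.sum_const, smul_eq_mul, mul_one]
  have : (Finset.univ.filter (fun s : Fin n => s < m)) = Finset.Iio m := by
    ext s
    simp
  rw [this, Fin.card_Iio]

/-- The matrix of the coefficients of Newton's polynomials. -/
noncomputable def nwP : Matrix (Fin n) (Fin n) K := fun b m => (nw v m).coeff b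

theorem nwP_upper (b m : Fin n) (h : m < b) : nwP v b m = 0 := by
  refine coeff_eq_zero_of_natDegree_lt ?_
  rw [nw_natDegree]
  exact h

theorem nwP_diag (m : Fin n) : nwP v m m = 1 := by
  have := (nw_monic v m).coeff_natDegree
  rwa [nw_natDegree] at this

theorem nwP_det : (nwP v).det = 1 := by
  rw [Matrix.det_of_isUpperTriangular (fun b m h => nwP_upper v b m h)]
  exact Finset.prod_eq_one fun m _ => nwP_diag v m

theorem vand_mul_nwP (a m : Fin n) :
    (Matrix.vandermonde v * nwP v) a m =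
      ∏ s ∈ Finset.univ.filter (fun s : Fin n => s < m), (v a - v s) := by
  have h1 : (nw v m).natDegree < n := by rw [nw_natDegree]; exact m.2
  have h2 := eval_eq_sum_range' h1 (v a)
  rw [Finset.sum_range] at h2
  have h3 : (nw v m).eval (v a) =
      ∏ s ∈ Finset.univ.filter (fun s : Fin n => s < m), (v a - v s) := by
    rw [nw, eval_prod]
    simp
  rw [← h3, h2, Matrix.mul_apply]
  refine Finset.sum_congr rfl fun b _ => ?_
  rw [Matrix.vandermonde_apply, mul_comm]
  rfl

/-- The triangular decomposition of the Vandermonde matrix. -/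
theorem vand_lu (hv : Function.Injective v) :
    ∃ L U : Matrix (Fin n) (Fin n) K, Matrix.vandermonde v = L * U ∧
      (∀ a c, a < c → L a c = 0) ∧ (∀ a c, c < a → U a c = 0) ∧ L.det ≠ 0 ∧ U.det ≠ 0 := by
  have hdet : IsUnit (nwP v).det := by rw [nwP_det]; exact isUnit_one
  have : Invertible (nwP v) := Matrix.invertibleOfIsUnitDet _ hdet
  refine ⟨Matrix.vandermonde v * nwP v, (nwP v)⁻¹, ?_, ?_, ?_, ?_, ?_⟩
  · rw [Matrix.mul_assoc, Matrix.mul_nonsing_inv _ hdet, Matrix.mul_one]
  · intro a c hac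
    rw [vand_mul_nwP]
    exact Finset.prod_eq_zero (Finset.mem_filter.2 ⟨Finset.mem_univ a, hac⟩) (sub_self _)
  · intro a c hac
    have h1 : (nwP v).BlockTriangular id := fun b m h => nwP_upper v b m h
    exact Matrix.blockTriangular_inv_of_blockTriangular h1 hac
  · rw [Matrix.det_mul, nwP_det, mul_one]
    exact Matrix.det_vandermonde_ne_zero_iff.2 hv
  · have h1 : (nwP v)⁻¹.det * (nwP v).det = 1 := by
      rw [← Matrix.det_mul, Matrix.nonsing_inv_mul _ hdet, Matrix.det_one]
    exact left_ne_zero_of_mul_eq_one h1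

end Vandermonde

variable {ι : Type*} [Fintype ι] [DecidableEq ι] {n : ι → ℕ}

theorem good_vand (v : ∀ i, Fin (n i) → K) (hv : ∀ i, Function.Injective (v i))
    (hn : ∀ i, 0 < n i) {t : ℕ} (ht : 0 < t) (j : ℕ) (hj : ∀ i, n i ≤ 2 ^ j) :
    Good (2 * j * t) (2 * j * (8 * (∏ i, (n i : ℝ)) * Fintype.card ι / t ^ 2))
      (tens (fun i => Matrix.vandermonde (v i))) := by
  choose L U h using fun i => vand_lu (v i) (hv i)
  have h1 : (fun i => Matrix.vandermonde (v i)) = fun i => L i * U i := funext fun i => (h i).1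
  rw [h1]
  exact good_lu L U (fun i => (h i).2.1) (fun i => (h i).2.2.1) (fun i => (h i).2.2.2.1)
    (fun i => (h i).2.2.2.2) hn ht j hj

/-- The `N × N` matrix of the discrete Fourier transform defined by `w`. -/
def dft (w : K) (N : ℕ) : Matrix (Fin N) (Fin N) K := fun x y => w ^ ((x : ℕ) * (y : ℕ))

theorem modEq_of_forall (p : ι → ℕ) (hp : Pairwise (Function.onFun Nat.Coprime p)) (a b : ℕ)
    (h : ∀ i, a ≡ b [MOD p i]) : a ≡ b [MOD ∏ i, p i] := by
  have h1 : ∀ i ∈ (Finset.univ : Finset ι), (p i : ℤ) ∣ (b : ℤ) - a :=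
    fun i _ => (Nat.modEq_iff_dvd.1 (h i))
  have h2 := Finset.prod_dvd_of_coprime (s := fun i => (p i : ℤ)) (t := Finset.univ)
    (fun i _ j _ hij => (Nat.isCoprime_iff_coprime.2 (hp hij))) h1
  rw [Nat.modEq_iff_dvd]
  push_cast
  exact h2

theorem pow_modEq {w : K} {N : ℕ} (hw : w ^ N = 1) {a b : ℕ} (h : a ≡ b [MOD N]) :
    w ^ a = w ^ b := by
  rw [← Nat.div_add_mod a N, ← Nat.div_add_mod b N, pow_add, pow_add, pow_mul, pow_mul, hw,
    one_pow, one_pow, h]

theorem dft_eq_tens (p : ι → ℕ) (hp0 : ∀ i, 0 < p i)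
    (hp : Pairwise (Function.onFun Nat.Coprime p)) (w : K)
    (hw : IsPrimitiveRoot w (∏ i, p i)) :
    ∃ (e : Fin (∏ i, p i) ≃ (∀ i, Fin (p i))) (v : ∀ i, Fin (p i) → K),
      (∀ i, Function.Injective (v i)) ∧
      dft w (∏ i, p i) = (tens (fun i => Matrix.vandermonde (v i))).submatrix e e := by
  -- idempotents
  have hc : ∀ i, ∃ c : ℕ, ∀ j, c ≡ (if j = i then 1 else 0) [MOD p j] := by
    intro i
    obtain ⟨c, hc⟩ := Nat.chineseRemainderOfFinset (fun j => if j = i then 1 else 0) p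
      Finset.univ (fun j _ => (hp0 j).ne') (fun a _ b _ hab => hp hab)
    exact ⟨c, fun j => hc j (Finset.mem_univ j)⟩
  choose c hc using hc
  -- the bijection
  let e₀ : Fin (∏ i, p i) → (∀ i, Fin (p i)) :=
    fun x i => ⟨(x : ℕ) % p i, Nat.mod_lt _ (hp0 i)⟩
  have he₀ : Function.Injective e₀ := by
    intro x y hxy
    have h1 : (x : ℕ) ≡ y [MOD ∏ i, p i] := modEq_of_forall p hp _ _ fun i => by
      have h0 : (x : ℕ) % p i = (y : ℕ) % p i := by
        have := congrFun hxy i
        simpa [e₀, Fin.ext_iff] using this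
      exact h0
    have h2 : (x : ℕ) % (∏ i, p i) = (y : ℕ) % (∏ i, p i) := h1
    rw [Nat.mod_eq_of_lt x.2, Nat.mod_eq_of_lt y.2] at h2
    exact Fin.ext h2
  have he : Function.Bijective e₀ := by
    rw [Fintype.bijective_iff_injective_and_card]
    exact ⟨he₀, by simp [Fintype.card_pi]⟩
  refine ⟨Equiv.ofBijective e₀ he, fun i a => w ^ (c i * (a : ℕ)), ?_, ?_⟩
  · intro i a b hab
    simp only at hab
    have h1 : c i * (a : ℕ) ≡ c i * (b : ℕ) [MOD ∏ i, p i] := by
      have h2 : w ^ (c i * (a : ℕ) % ∏ i, p i) = w ^ (c i * (b : ℕ) % ∏ i, p i) := by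
        rw [pow_modEq hw.pow_eq_one (Nat.mod_modEq (c i * (a : ℕ)) _),
          pow_modEq hw.pow_eq_one (Nat.mod_modEq (c i * (b : ℕ)) _), hab]
      have hN : 0 < ∏ i, p i := Finset.prod_pos fun i _ => hp0 i
      exact hw.pow_inj (Nat.mod_lt _ hN) (Nat.mod_lt _ hN) h2
    have h3 : c i * (a : ℕ) ≡ c i * (b : ℕ) [MOD p i] :=
      h1.of_dvd (Finset.dvd_prod_of_mem p (Finset.mem_univ i))
    have h4 : c i ≡ 1 [MOD p i] := by simpa using hc i i
    have h5 : (a : ℕ) ≡ b [MOD p i] := by
      have h6 := (h4.mul_right (a : ℕ)).symm.trans (h3.trans (h4.mul_right (b : ℕ)))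
      simpa using h6
    have h7 : (a : ℕ) % p i = (b : ℕ) % p i := h5
    rw [Nat.mod_eq_of_lt a.2, Nat.mod_eq_of_lt b.2] at h7
    exact Fin.ext h7
  · ext x y
    simp only [dft, Matrix.submatrix_apply, tens, Matrix.vandermonde_apply]
    have h1 : ∀ i, (w ^ (c i * ((e₀ x i : Fin (p i)) : ℕ))) ^ ((e₀ y i : Fin (p i)) : ℕ) =
        w ^ (c i * (((x : ℕ) % p i) * ((y : ℕ) % p i))) := by
      intro i
      rw [← pow_mul, mul_assoc]
    rw [Equiv.ofBijective_apply, Equiv.ofBijective_apply,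
      Finset.prod_congr rfl (fun i _ => h1 i), Finset.prod_pow_eq_pow_sum]
    refine pow_modEq hw.pow_eq_one (modEq_of_forall p hp _ _ fun j => ?_)
    -- the sum modulo `p j`
    have h2 : ∑ i, c i * (((x : ℕ) % p i) * ((y : ℕ) % p i)) ≡
        ∑ i, (if j = i then 1 else 0) * (((x : ℕ) % p i) * ((y : ℕ) % p i)) [MOD p j] := by
      refine Nat.ModEq.sum fun i _ => ?_
      exact (hc i j).mul_right _
    refine Nat.ModEq.trans ?_ h2.symm
    rw [Finset.sum_eq_single j]
    · rw [if_pos rfl, one_mul]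
      exact ((Nat.mod_modEq (x : ℕ) (p j)).mul (Nat.mod_modEq (y : ℕ) (p j))).symm
    · intro i _ hij
      rw [if_neg (Ne.symm hij), zero_mul]
    · intro h
      exact absurd (Finset.mem_univ j) h

end Pool.Agent.W966.Kron
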