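import Pool.Agent.W966.Circ

set_option autoImplicit false
set_option linter.unusedSectionVars false

/-!
# Hamming balls, digits, and circulant matrices over a small field
-/

namespace Pool.Agent.W966.Kron

open Matrix Finset

section BallSigma

variable {ι : Type*} [Fintype ι] [DecidableEq ι] {α : ι → Type*}
  [∀ i, Fintype (α i)] [∀ i, DecidableEq (α i)]

theorem ball_card' (x : ∀ i, α i) (D : ℕ) (hD : 1 ≤ D) (h : ∑ i, Fintype.card (α i) ≤ D)
    (s : ℕ) :
    (Finset.univ.filter fun y : (∀ i, α i) => hammingDist x y ≤ s).card ≤ D ^ s := by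
  classical
  rcases isEmpty_or_nonempty ι with hι | hι
  · have h1 : (Finset.univ.filter fun y : (∀ i, α i) => hammingDist x y ≤ s).card ≤ 1 := by
      refine Finset.card_le_one.2 fun a _ b _ => ?_
      exact Subsingleton.elim _ _
    exact h1.trans (Nat.one_le_pow _ _ hD)
  induction s with
  | zero =>
    rw [pow_zero]
    refine Finset.card_le_one.2 fun a ha b hb => ?_
    simp only [Finset.mem_filter, Finset.mem_univ, true_and, nonpos_iff_eq_zero,
      hammingDist_eq_zero] at ha hb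
    rw [← ha, ← hb]
  | succ s ih =>
    have h1 : (Finset.univ.filter fun y : (∀ i, α i) => hammingDist x y ≤ s + 1) ⊆
        ((Finset.univ.filter fun y : (∀ i, α i) => hammingDist x y ≤ s) ×ˢ
          (Finset.univ : Finset (Σ i, α i))).image
            fun w => Function.update w.1 w.2.1 w.2.2 := by
      intro y hy
      rw [Finset.mem_filter] at hy
      rw [Finset.mem_image]
      by_cases hxy : x = y
      · refine ⟨(y, ⟨hι.some, y hι.some⟩), ?_, by simp⟩
        rw [Finset.mem_product, Finset.mem_filter]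
        exact ⟨⟨Finset.mem_univ _, by rw [hxy]; simp⟩, Finset.mem_univ _⟩
      · obtain ⟨i, hi⟩ := Function.ne_iff.1 hxy
        refine ⟨(Function.update y i (x i), ⟨i, y i⟩), ?_, by simp⟩
        rw [Finset.mem_product, Finset.mem_filter]
        refine ⟨⟨Finset.mem_univ _, ?_⟩, Finset.mem_univ _⟩
        have h2 : hammingDist x (Function.update y i (x i)) < hammingDist x y := by
          unfold hammingDist
          apply Finset.card_lt_card
          rw [Finset.ssubset_iff_of_subset]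
          · refine ⟨i, ?_, ?_⟩
            · simpa using hi
            · simp
          · intro l hl
            simp only [Finset.mem_filter, Finset.mem_univ, true_and] at hl ⊢
            by_cases hli : l = i
            · subst hli
              simp at hl
            · rwa [Function.update_of_ne hli] at hl
        have := hy.2
        simp only
        omega
    refine (Finset.card_le_card h1).trans (Finset.card_image_le.trans ?_)
    rw [Finset.card_product, Finset.card_univ, Fintype.card_sigma, pow_succ]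
    exact Nat.mul_le_mul ih h

end BallSigma

section Small

variable {F L : Type*} [Field F] [Field L] [Algebra F L] [FiniteDimensional F L]
variable {ι₁ ι₂ : Type*} [Fintype ι₁] [DecidableEq ι₁] [Fintype ι₂] [DecidableEq ι₂]
  {q : ι₁ → ℕ} {n : ι₂ → ℕ} [∀ i, NeZero (q i)] [∀ i, NeZero (n i)]
  {X : Type*} [Fintype X] [DecidableEq X]

/-- Circulant matrices over a small field: few changes inside this field reduce the rank. -/
theorem circ_small (φ : X → ∀ i, ZMod (n i)) (hφ : Function.Injective φ)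
    (z₁ : ι₁ → L) (z₂ : ι₂ → L)
    (hz₁ : ∀ i, IsPrimitiveRoot (z₁ i) (q i)) (hz₂ : ∀ i, IsPrimitiveRoot (z₂ i) (n i))
    (f : (∀ i, ZMod (q i)) → (∀ i, ZMod (n i)) → F)
    {t₁ t₂ : ℕ} (ht₁ : 0 < t₁) (ht₂ : 0 < t₂) (κ₁ κ₂ : ℝ)
    (hκ₁ : (Fintype.card ι₁ : ℝ) ≤ κ₁) (hκ₂ : (Fintype.card ι₂ : ℝ) ≤ κ₂)
    (hκ₁0 : 0 < κ₁) (hκ₂0 : 0 < κ₂) (j₁ j₂ : ℕ) (hj₁ : ∀ i, q i ≤ 2 ^ j₁)
    (hj₂ : ∀ i, n i ≤ 2 ^ j₂) (D₁ D₂ : ℕ) (hD₁ : 1 ≤ D₁) (hD₂ : 1 ≤ D₂)
    (hD₁' : ∑ i, q i ≤ D₁) (hD₂' : ∑ i, n i ≤ D₂) :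
    ∃ S : Matrix ((∀ i, ZMod (q i)) × X) ((∀ i, ZMod (q i)) × X) F,
      (((Matrix.of fun p p' : (∀ i, ZMod (q i)) × X =>
        f (p.1 - p'.1) (φ p.2 - φ p'.2)) - S).rank : ℝ) ≤
        Module.finrank F L * (16 * (j₁ * ((∏ i, (q i : ℝ)) *
          Real.exp (-((t₁ : ℝ) ^ 2 / (8 * κ₁)))) * Fintype.card X +
        (∏ i, (q i : ℝ)) *
          (j₂ * ((∏ i, (n i : ℝ)) * Real.exp (-((t₂ : ℝ) ^ 2 / (8 * κ₂))))))) ∧
      {w : ((∀ i, ZMod (q i)) × X) × ((∀ i, ZMod (q i)) × X) |
        S w.1 w.2 ≠ 0}.ncard ≤ (∏ i, q i) * Fintype.card X *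
          (D₁ ^ (4 * j₁ * t₁) * D₂ ^ (4 * j₂ * t₂)) := by
  classical
  obtain ⟨S, R, hA, hR, hS⟩ := circ_split φ z₁ z₂ hz₁ hz₂
    (fun a b => algebraMap F L (f a b)) ht₁ ht₂ κ₁ κ₂ hκ₁ hκ₂ hκ₁0 hκ₂0 j₁ j₂ hj₁ hj₂
  obtain ⟨S', hS', hrank⟩ := descent
    (Matrix.of fun p p' : (∀ i, ZMod (q i)) × X => f (p.1 - p'.1) (φ p.2 - φ p'.2)) S R (by
      rw [← hA]
      ext p p'
      rfl)
  refine ⟨S', ?_, ?_⟩
  · have h1 : (((Matrix.of fun p p' : (∀ i, ZMod (q i)) × X =>
        f (p.1 - p'.1) (φ p.2 - φ p'.2)) - S').rank : ℝ) ≤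
        R.rank * Module.finrank F L := by exact_mod_cast hrank
    refine h1.trans ?_
    rw [mul_comm]
    exact mul_le_mul_of_nonneg_left hR (Nat.cast_nonneg _)
  · have h0 : {w : ((∀ i, ZMod (q i)) × X) × ((∀ i, ZMod (q i)) × X) | S' w.1 w.2 ≠ 0} =
        ((Finset.univ.filter fun w : ((∀ i, ZMod (q i)) × X) × ((∀ i, ZMod (q i)) × X) =>
          S' w.1 w.2 ≠ 0 : Finset _) : Set _) := by
      ext w
      simp
    rw [h0, Set.ncard_coe_finset]
    have h1 : (Finset.univ.filter fun w : ((∀ i, ZMod (q i)) × X) × ((∀ i, ZMod (q i)) × X) =>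
        S' w.1 w.2 ≠ 0) ⊆ (Finset.univ : Finset ((∀ i, ZMod (q i)) × X)).biUnion fun p =>
          ((Finset.univ.filter fun a => hammingDist p.1 a ≤ 4 * j₁ * t₁) ×ˢ
            (Finset.univ.filter fun y => hammingDist (φ p.2) (φ y) ≤ 4 * j₂ * t₂)).image
              fun a => (p, a) := by
      intro w hw
      rw [Finset.mem_filter] at hw
      have h2 : S w.1 w.2 ≠ 0 := fun h0 => hw.2 (hS' _ _ h0)
      have h3 := hS _ _ h2
      rw [Finset.mem_biUnion]
      refine ⟨w.1, Finset.mem_univ _, ?_⟩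
      rw [Finset.mem_image]
      refine ⟨w.2, ?_, rfl⟩
      rw [Finset.mem_product, Finset.mem_filter, Finset.mem_filter]
      exact ⟨⟨Finset.mem_univ _, h3.1⟩, ⟨Finset.mem_univ _, h3.2⟩⟩
    refine (Finset.card_le_card h1).trans (Finset.card_biUnion_le.trans ?_)
    refine (Finset.sum_le_card_nsmul _ _ (D₁ ^ (4 * j₁ * t₁) * D₂ ^ (4 * j₂ * t₂)) ?_).trans ?_
    · intro p _
      refine Finset.card_image_le.trans ?_
      rw [Finset.card_product]
      refine Nat.mul_le_mul ?_ ?_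
      · refine ball_card' p.1 D₁ hD₁ ?_ _
        simpa using hD₁'
      · have h4 := ball_card' (φ p.2) D₂ hD₂ (by simpa using hD₂') (4 * j₂ * t₂)
        refine le_trans ?_ h4
        rw [← Finset.card_image_of_injective _ hφ]
        apply Finset.card_le_card
        intro y hy
        rw [Finset.mem_image] at hy
        obtain ⟨x, hx, rfl⟩ := hy
        rw [Finset.mem_filter] at hx ⊢
        exact ⟨Finset.mem_univ _, hx.2⟩
    · rw [Finset.card_univ, Fintype.card_prod, smul_eq_mul]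
      have : Fintype.card (∀ i, ZMod (q i)) = ∏ i, q i := by
        rw [Fintype.card_pi]
        exact Finset.prod_congr rfl fun i _ => ZMod.card _
      rw [this]

end Small

section Digits

variable {P : Type*} [Fintype P] (p : P → ℕ) (hp : Pairwise (Function.onFun Nat.Coprime p))
variable {J : Type*} (r : J → ℕ) (b : ℕ)

/-- The digits in base `b`, modulo the numbers `p i`. -/
def dig (a : J → ℕ) : (i : (j : J) × (Fin (r j) × P)) → ZMod (p i.2.2) :=
  fun i => ((a i.1 / b ^ (i.2.1 : ℕ) % b : ℕ) : ZMod (p i.2.2))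

/-- The integers with given differences of digits. -/
noncomputable def undig (z : (i : (j : J) × (Fin (r j) × P)) → ZMod (p i.2.2)) (j : J) : ℤ :=
  ∑ u : Fin (r j), ((ZMod.prodEquivPi p hp).symm fun i => z ⟨j, (u, i)⟩).valMinAbs *
    (b : ℤ) ^ (u : ℕ)

theorem digits_sum (b a r : ℕ) (ha : a < b ^ r) :
    ∑ u ∈ Finset.range r, (a / b ^ u % b) * b ^ u = a := by
  have h : ∀ r, ∑ u ∈ Finset.range r, (a / b ^ u % b) * b ^ u = a % b ^ r := by
    intro r
    induction r with
    | zero => simp [Nat.mod_one]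
    | succ r ih =>
      rw [Finset.sum_range_succ, ih, Nat.mod_pow_succ]
      ring
  rw [h, Nat.mod_eq_of_lt ha]

theorem undig_dig (hb : 0 < b) (hM : 2 * b ≤ (∏ i, p i) + 1) (a c : J → ℕ)
    (ha : ∀ j, a j < b ^ r j) (hc : ∀ j, c j < b ^ r j) (j : J) :
    undig p hp r b (dig p r b a - dig p r b c) j = (a j : ℤ) - c j := by
  have hM0 : NeZero (∏ i, p i) := ⟨by
    intro h0
    rw [h0] at hM
    omega⟩
  unfold undig
  have h1 : ∀ u : Fin (r j), ((ZMod.prodEquivPi p hp).symm fun i =>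
      (dig p r b a - dig p r b c) ⟨j, (u, i)⟩).valMinAbs =
      ((a j / b ^ (u : ℕ) % b : ℕ) : ℤ) - ((c j / b ^ (u : ℕ) % b : ℕ) : ℤ) := by
    intro u
    rw [ZMod.valMinAbs_spec]
    constructor
    · rw [RingEquiv.symm_apply_eq]
      funext i
      rw [map_intCast, Pi.intCast_apply, Pi.sub_apply]
      simp only [dig]
      rw [Int.cast_sub, Int.cast_natCast, Int.cast_natCast]
    · have h2 := Nat.mod_lt (a j / b ^ (u : ℕ)) hb
      have h3 := Nat.mod_lt (c j / b ^ (u : ℕ)) hb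
      constructor <;> omega
  rw [Finset.sum_congr rfl fun u _ => by rw [h1 u]]
  have h2 := digits_sum b (a j) (r j) (ha j)
  have h3 := digits_sum b (c j) (r j) (hc j)
  rw [Finset.sum_range] at h2 h3
  conv_rhs => rw [← h2, ← h3]
  push_cast
  rw [← Finset.sum_sub_distrib]
  exact Finset.sum_congr rfl fun u _ => by ring

end Digits

end Pool.Agent.W966.Kron
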