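import Pool.Agent.W966.Arb

set_option autoImplicit false
set_option linter.unusedSectionVars false

/-!
# Grouping the factors of a Kronecker product
-/

namespace Pool.Agent.W966.Kron

open Matrix Finset

theorem grouping {ι : Type*} [DecidableEq ι] (n : ι → ℕ) (d : ℕ) (hd : 1 ≤ d)
    (hn : ∀ i, 0 < n i ∧ n i ≤ d) (s : Finset ι) :
    ∃ (m : ℕ) (π : ι → ℕ), (∀ i ∈ s, π i ≤ m) ∧
      (∀ g, ∏ i ∈ s.filter (fun i => π i = g), n i ≤ d * d) ∧
      (∏ i ∈ s.filter (fun i => π i = m), n i ≤ d) ∧
      (∀ g < m, d ≤ ∏ i ∈ s.filter (fun i => π i = g), n i) := by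
  classical
  induction s using Finset.induction_on with
  | empty =>
    refine ⟨0, fun _ => 0, by simp, fun g => ?_, by simpa using hd, fun g hg => absurd hg (by omega)⟩
    simpa using Nat.mul_le_mul hd hd
  | insert i s his ih =>
    obtain ⟨m, π, h1, h2, h3, h4⟩ := ih
    have hπ : ∀ l ∈ s, Function.update π i m l = π l := fun l hl =>
      Function.update_of_ne (by rintro rfl; exact his hl) _ _
    have hf : ∀ g, g ≠ m → (insert i s).filter (fun l => Function.update π i m l = g) =
        s.filter (fun l => π l = g) := by
      intro g hg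
      ext l
      simp only [Finset.mem_filter, Finset.mem_insert]
      constructor
      · rintro ⟨rfl | hl, h⟩
        · rw [Function.update_self] at h
          exact absurd h.symm hg
        · exact ⟨hl, by rw [← hπ l hl]; exact h⟩
      · rintro ⟨hl, h⟩
        exact ⟨Or.inr hl, by rw [hπ l hl]; exact h⟩
    have hfm : (insert i s).filter (fun l => Function.update π i m l = m) =
        insert i (s.filter (fun l => π l = m)) := by
      ext l
      simp only [Finset.mem_filter, Finset.mem_insert]
      constructor
      · rintro ⟨rfl | hl, h⟩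
        · exact Or.inl rfl
        · exact Or.inr ⟨hl, by rw [← hπ l hl]; exact h⟩
      · rintro (rfl | ⟨hl, h⟩)
        · exact ⟨Or.inl rfl, Function.update_self _ _ _⟩
        · exact ⟨Or.inr hl, by rw [hπ l hl]; exact h⟩
    have hprod : ∏ l ∈ (insert i s).filter (fun l => Function.update π i m l = m), n l =
        n i * ∏ l ∈ s.filter (fun l => π l = m), n l := by
      rw [hfm, Finset.prod_insert (fun h => his (Finset.mem_filter.1 h).1)]
    have hle : n i * ∏ l ∈ s.filter (fun l => π l = m), n l ≤ d * d :=
      Nat.mul_le_mul (hn i).2 h3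
    have hall : ∀ g, ∏ l ∈ (insert i s).filter (fun l => Function.update π i m l = g), n l ≤
        d * d := by
      intro g
      by_cases hg : g = m
      · rw [hg, hprod]
        exact hle
      · rw [hf g hg]
        exact h2 g
    by_cases hc : n i * ∏ l ∈ s.filter (fun l => π l = m), n l ≤ d
    · refine ⟨m, Function.update π i m, ?_, hall, by rw [hprod]; exact hc, ?_⟩
      · intro l hl
        rw [Finset.mem_insert] at hl
        rcases hl with rfl | hl
        · rw [Function.update_self]
        · rw [hπ l hl]
          exact h1 l hl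
      · intro g hg
        rw [hf g (by omega)]
        exact h4 g hg
    · rw [not_le] at hc
      refine ⟨m + 1, Function.update π i m, ?_, hall, ?_, ?_⟩
      · intro l hl
        rw [Finset.mem_insert] at hl
        rcases hl with rfl | hl
        · rw [Function.update_self]
          omega
        · rw [hπ l hl]
          have := h1 l hl
          omega
      · rw [hf (m + 1) (by omega)]
        have : s.filter (fun l => π l = m + 1) = ∅ := by
          rw [Finset.filter_eq_empty_iff]
          intro l hl h
          have := h1 l hl
          omega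
        rw [this, Finset.prod_empty]
        exact hd
      · intro g hg
        by_cases hgm : g = m
        · rw [hgm, hprod]
          exact hc.le
        · rw [hf g hgm]
          exact h4 g (by omega)

section Merge

variable {K : Type*} [Field K] {ι κ : Type*} [Fintype ι] [DecidableEq ι] [Fintype κ]
  [DecidableEq κ]

/-- Merging the factors of a Kronecker product into groups. -/
theorem merge (n : ι → ℕ) (M : ∀ i, Matrix (Fin (n i)) (Fin (n i)) K) (π : ι → κ) :
    ∃ (M' : ∀ g : κ, Matrix (Fin (∏ i : {i // π i = g}, n i)) (Fin (∏ i : {i // π i = g}, n i)) K)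
      (Ψ : (∀ g : κ, Fin (∏ i : {i // π i = g}, n i)) ≃ (∀ i, Fin (n i))),
      (tens M).submatrix Ψ Ψ = tens M' := by
  classical
  have e : ∀ g : κ, Nonempty ((∀ i : {i // π i = g}, Fin (n i)) ≃
      Fin (∏ i : {i // π i = g}, n i)) := fun g =>
    ⟨Fintype.equivFinOfCardEq (by simp [Fintype.card_pi])⟩
  have e := fun g => (e g).some
  let Ψ : (∀ g : κ, Fin (∏ i : {i // π i = g}, n i)) ≃ (∀ i, Fin (n i)) :=
    { toFun := fun y i => (e (π i)).symm (y (π i)) ⟨i, rfl⟩
      invFun := fun x g => e g (fun i => x i)
      left_inv := by
        intro y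
        funext g
        rw [← Equiv.eq_symm_apply]
        funext ⟨i, hi⟩
        subst hi
        rfl
      right_inv := by
        intro x
        funext i
        simp }
  refine ⟨fun g a b => tens (fun i : {i // π i = g} => M i) ((e g).symm a) ((e g).symm b), Ψ, ?_⟩
  ext x y
  simp only [Matrix.submatrix_apply, tens]
  rw [← Fintype.prod_fiberwise (g := π)]
  refine Finset.prod_congr rfl fun g _ => ?_
  refine Finset.prod_congr rfl fun i _ => ?_
  obtain ⟨i, hi⟩ := i
  subst hi
  rfl

end Merge

end Pool.Agent.W966.Kron
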