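import Mathlib

set_option autoImplicit false
set_option linter.unusedSectionVars false

/-!
# Finite abelian groups: small cyclic factors of small common exponent and large cyclic factors
-/

namespace Pool.Agent.W966.Kron

open Finset

/-- Among pairwise coprime subfamilies of a family of prime powers one of maximal product is
divisible by all members of the family. -/
theorem exists_max {ι : Type} [Fintype ι] (p e : ι → ℕ) (hp : ∀ i, (p i).Prime)
    (he : ∀ i, e i ≠ 0) :
    ∃ s : Finset ι, (∀ i ∈ s, ∀ j ∈ s, i ≠ j → (p i ^ e i).Coprime (p j ^ e j)) ∧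
      ∀ i, p i ^ e i ∣ ∏ j ∈ s, p j ^ e j := by
  classical
  let C : Finset (Finset ι) := Finset.univ.filter fun s =>
    ∀ i ∈ s, ∀ j ∈ s, i ≠ j → (p i ^ e i).Coprime (p j ^ e j)
  have hC : C.Nonempty := ⟨∅, by simp [C]⟩
  obtain ⟨s, hs, hmax⟩ := C.exists_max_image (fun s => ∏ j ∈ s, p j ^ e j) hC
  rw [Finset.mem_filter] at hs
  refine ⟨s, hs.2, fun i => ?_⟩
  by_cases his : i ∈ s
  · exact Finset.dvd_prod_of_mem _ his
  have hpos : ∀ t : Finset ι, 0 < ∏ j ∈ t, p j ^ e j := fun t =>
    Finset.prod_pos fun j _ => pow_pos (hp j).pos _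
  by_cases hcop : ∀ j ∈ s, (p i ^ e i).Coprime (p j ^ e j)
  · exfalso
    have h1 : insert i s ∈ C := by
      rw [Finset.mem_filter]
      refine ⟨Finset.mem_univ _, ?_⟩
      intro a ha b hb hab
      rw [Finset.mem_insert] at ha hb
      rcases ha with rfl | ha <;> rcases hb with rfl | hb
      · exact absurd rfl hab
      · exact hcop b hb
      · exact (hcop a ha).symm
      · exact hs.2 a ha b hb hab
    have h2 := hmax _ h1
    rw [Finset.prod_insert his] at h2
    have h3 : 1 < p i ^ e i := Nat.one_lt_pow (he i) (hp i).one_lt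
    have h4 := hpos s
    nlinarith
  · push Not at hcop
    obtain ⟨j, hj, hij⟩ := hcop
    have hpij : p i = p j := by
      by_contra hne
      exact hij (Nat.Coprime.pow _ _ ((Nat.coprime_primes (hp i) (hp j)).2 hne))
    by_cases hle : e i ≤ e j
    · exact (by rw [hpij]; exact pow_dvd_pow _ hle : p i ^ e i ∣ p j ^ e j).trans
        (Finset.dvd_prod_of_mem _ hj)
    · exfalso
      rw [not_le] at hle
      have his' : i ∉ s.erase j := fun h => his (Finset.mem_of_mem_erase h)
      have h1 : insert i (s.erase j) ∈ C := by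
        rw [Finset.mem_filter]
        refine ⟨Finset.mem_univ _, ?_⟩
        have key : ∀ a ∈ s.erase j, (p i ^ e i).Coprime (p a ^ e a) := by
          intro a ha
          have h2 := hs.2 j hj a (Finset.mem_of_mem_erase ha) (Finset.ne_of_mem_erase ha).symm
          have h3 : (p j).Coprime (p a) := by
            rw [Nat.coprime_pow_left_iff (Nat.pos_of_ne_zero (he j)),
              Nat.coprime_pow_right_iff (Nat.pos_of_ne_zero (he a))] at h2
            exact h2
          rw [hpij]
          exact Nat.Coprime.pow _ _ h3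
        intro a ha b hb hab
        rw [Finset.mem_insert] at ha hb
        rcases ha with rfl | ha <;> rcases hb with rfl | hb
        · exact absurd rfl hab
        · exact key b hb
        · exact (key a ha).symm
        · exact hs.2 a (Finset.mem_of_mem_erase ha) b (Finset.mem_of_mem_erase hb) hab
      have h2 := hmax _ h1
      rw [Finset.prod_insert his', ← Finset.mul_prod_erase s _ hj] at h2
      have h3 : p j ^ e j < p i ^ e i := by
        rw [hpij]
        exact Nat.pow_lt_pow_right (hp j).one_lt hle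
      have h4 := hpos (s.erase j)
      nlinarith

/-- Splitting a product. -/
def piSplit {ι : Type} (s : ι → Prop) [DecidablePred s] (A : ι → Type) [∀ i, AddCommGroup (A i)] :
    (∀ i, A i) ≃+ (∀ i : {i // s i}, A i) × (∀ i : {i // ¬ s i}, A i) where
  toFun x := (fun i => x i, fun i => x i)
  invFun y i := if h : s i then y.1 ⟨i, h⟩ else y.2 ⟨i, h⟩
  left_inv x := by
    funext i
    by_cases h : s i <;> simp [h]
  right_inv y := by
    ext i
    · simp [i.2]
    · simp [i.2]
  map_add' x y := rfl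

/-- Adding a factor. -/
def piOption {J : Type} (m : J → ℕ) (m₀ : ℕ) :
    ZMod m₀ × (∀ j, ZMod (m j)) ≃+ (∀ j : Option J, ZMod (j.elim m₀ m)) where
  toFun x j := match j with
    | none => x.1
    | some j => x.2 j
  invFun y := (y none, fun j => y (some j))
  left_inv x := rfl
  right_inv y := by
    funext j
    cases j <;> rfl
  map_add' x y := by
    funext j
    cases j <;> rfl

theorem struct_aux (T : ℕ) (k : ℕ) : ∀ (ι : Type) [Fintype ι] (p e : ι → ℕ),
    (∀ i, (p i).Prime) → (∀ i, e i ≠ 0) → Fintype.card ι = k → 1 ≤ T →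
    ∃ (ι₁ J : Type) (_ : Fintype ι₁) (_ : Fintype J) (q : ι₁ → ℕ) (m : J → ℕ) (E : ℕ),
      0 < E ∧ E ≤ T ∧ (∀ i, 1 < q i ∧ q i ∣ E) ∧ (∀ j, T < m j) ∧
      Nonempty ((∀ i, ZMod (p i ^ e i)) ≃+ (∀ i, ZMod (q i)) × (∀ j, ZMod (m j))) := by
  classical
  induction k using Nat.strong_induction_on with
  | _ k ih =>
    intro ι _ p e hp he hk hT
    obtain ⟨s, hs, hdvd⟩ := exists_max p e hp he
    have hpos : 0 < ∏ j ∈ s, p j ^ e j := Finset.prod_pos fun j _ => pow_pos (hp j).pos _
    by_cases hle : ∏ j ∈ s, p j ^ e j ≤ T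
    · refine ⟨ι, Empty, inferInstance, inferInstance, fun i => p i ^ e i, fun j => j.elim,
        ∏ j ∈ s, p j ^ e j, hpos, hle, fun i => ⟨Nat.one_lt_pow (he i) (hp i).one_lt, hdvd i⟩,
        fun j => j.elim, ⟨(AddEquiv.prodUnique).symm⟩⟩
    · rw [not_le] at hle
      have hsne : s.Nonempty := by
        rw [Finset.nonempty_iff_ne_empty]
        rintro rfl
        simp at hle
        omega
      -- the complement
      have hcard : Fintype.card {i // ¬ i ∈ s} < k := by
        rw [← hk]
        obtain ⟨i, hi⟩ := hsne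
        exact Fintype.card_subtype_lt (x := i) (by simpa using hi)
      obtain ⟨ι₁, J, _, _, q, m, E, hE0, hET, hq, hm, ⟨f⟩⟩ := ih _ hcard {i // ¬ i ∈ s}
        (fun i => p i) (fun i => e i) (fun i => hp i) (fun i => he i) rfl hT
      -- the chosen part is cyclic
      have hcop : Pairwise (Function.onFun Nat.Coprime
          (fun i : {i // i ∈ s} => p i.1 ^ e i.1)) := by
        intro i j hij
        exact hs i.1 i.2 j.1 j.2 (fun h => hij (Subtype.ext h))
      let g := (ZMod.prodEquivPi (fun i : {i // i ∈ s} => p i.1 ^ e i.1) hcop).symm.toAddEquiv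
      have hprod : ∏ i : {i // i ∈ s}, p i.1 ^ e i.1 = ∏ j ∈ s, p j ^ e j :=
        Finset.prod_coe_sort s (fun j => p j ^ e j)
      refine ⟨ι₁, Option J, inferInstance, inferInstance, q,
        fun j => j.elim (∏ i : {i // i ∈ s}, p i.1 ^ e i.1) m, E, hE0, hET, hq, ?_, ⟨?_⟩⟩
      · intro j
        cases j with
        | none =>
          change T < ∏ i : {i // i ∈ s}, p i.1 ^ e i.1
          rw [hprod]
          exact hle
        | some j => exact hm j
      · -- compose the isomorphisms
        refine (piSplit (fun i => i ∈ s) (fun i => ZMod (p i ^ e i))).trans ?_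
        refine (AddEquiv.prodCongr g f).trans ?_
        refine (AddEquiv.prodAssoc.symm).trans ?_
        refine (AddEquiv.prodCongr AddEquiv.prodComm (AddEquiv.refl _)).trans ?_
        refine AddEquiv.prodAssoc.trans ?_
        exact AddEquiv.prodCongr (AddEquiv.refl _) (piOption m _)

theorem struct_thm (G : Type) [AddCommGroup G] [Finite G] (T : ℕ) (hT : 1 ≤ T) :
    ∃ (ι₁ J : Type) (_ : Fintype ι₁) (_ : Fintype J) (q : ι₁ → ℕ) (m : J → ℕ) (E : ℕ),
      0 < E ∧ E ≤ T ∧ (∀ i, 1 < q i ∧ q i ∣ E) ∧ (∀ j, T < m j) ∧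
      Nonempty (G ≃+ (∀ i, ZMod (q i)) × (∀ j, ZMod (m j))) := by
  classical
  obtain ⟨ι, _, p, hp, e, ⟨f⟩⟩ := AddCommGroup.equiv_directSum_zmod_of_finite G
  let f1 : G ≃+ (∀ i, ZMod (p i ^ e i)) :=
    f.trans (DirectSum.addEquivProd (fun i => ZMod (p i ^ e i)))
  -- drop the trivial factors
  let f2 := piSplit (fun i => e i ≠ 0) (fun i => ZMod (p i ^ e i))
  have hu : Unique (∀ i : {i // ¬ e i ≠ 0}, ZMod (p i ^ e i)) := by
    have hsub : ∀ i : {i // ¬ e i ≠ 0}, Subsingleton (ZMod (p i ^ e i)) := by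
      intro i
      have : e i = 0 := by simpa using i.2
      rw [this, pow_zero]
      infer_instance
    exact ⟨⟨fun _ => 0⟩, fun a => funext fun i => (hsub i).elim _ _⟩
  obtain ⟨ι₁, J, h1, h2, q, m, E, hE0, hET, hq, hm, ⟨g⟩⟩ := struct_aux T _ {i // e i ≠ 0}
    (fun i => p i) (fun i => e i) (fun i => hp i) (fun i => i.2) rfl hT
  exact ⟨ι₁, J, h1, h2, q, m, E, hE0, hET, hq, hm,
    ⟨f1.trans (f2.trans ((AddEquiv.prodUnique).trans g))⟩⟩

end Pool.Agent.W966.Kron
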