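import Pool.Agent.W966.Embed
import Pool.Agent.W966.Struct

set_option autoImplicit false
set_option linter.unusedSectionVars false

/-!
# Circulant matrices of finite abelian groups: few changes reduce the rank
-/

namespace Pool.Agent.W966.Kron

open Matrix Finset

theorem finrank_cyc_le (F : Type*) [Field F] (n : ℕ) [NeZero n] [NeZero (n : F)] :
    Module.finrank F (CyclotomicField n F) ≤ n := by
  have hz := IsCyclotomicExtension.zeta_spec n F (CyclotomicField n F)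
  rw [(hz.powerBasis F).finrank, ← (hz.powerBasis F).natDegree_minpoly]
  have h1 : minpoly F (hz.powerBasis F).gen ∣ (Polynomial.X ^ n - 1 : Polynomial F) := by
    apply minpoly.dvd
    rw [IsPrimitiveRoot.powerBasis_gen]
    simp [hz.pow_eq_one]
  have h2 : (Polynomial.X ^ n - 1 : Polynomial F).natDegree = n := by
    rw [← Polynomial.C_1]
    exact Polynomial.natDegree_X_pow_sub_C
  have h3 : (Polynomial.X ^ n - 1 : Polynomial F) ≠ 0 := by
    intro h0
    rw [h0, Polynomial.natDegree_zero] at h2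
    exact (NeZero.ne n) h2.symm
  exact (Polynomial.natDegree_le_of_dvd h1 h3).trans h2.le

theorem exists_primitive {F L : Type*} [Field F] [Field L] [Algebra F L] {n d : ℕ} {z : L}
    (hn : 0 < n) (hz : IsPrimitiveRoot z n) (hd : d ∣ n) : ∃ y : L, IsPrimitiveRoot y d := by
  obtain ⟨c, hc⟩ := hd
  exact ⟨z ^ c, hz.pow hn (by rw [hc]; ring)⟩

theorem clog_bound {b m : ℕ} (hb : 1 < b) (hm : 1 < m) :
    b ^ (Nat.clog b m) ≤ b * m := by
  have h1 := Nat.pow_pred_clog_lt_self hb hm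
  have h2 : 0 < Nat.clog b m := Nat.clog_pos hb hm
  calc b ^ (Nat.clog b m) = b * b ^ (Nat.clog b m).pred := by
        conv_lhs => rw [← Nat.succ_pred_eq_of_pos h2, pow_succ]
        ring
    _ ≤ b * m := Nat.mul_le_mul_left _ h1.le

section Grp

variable {F : Type*} [Field F] {G : Type*} [AddCommGroup G] [Fintype G]
  {ι₁ J P : Type*} [Fintype ι₁] [Fintype J] [Fintype P]

theorem group_bound (f : G → F) (q : ι₁ → ℕ) (m : J → ℕ) (E : ℕ) (hE : 0 < E)
    (hq : ∀ i, 1 < q i ∧ q i ∣ E) (hm : ∀ j, 1 < m j)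
    (e : G ≃+ (∀ i, ZMod (q i)) × (∀ j, ZMod (m j)))
    (p : P → ℕ) (hp : Pairwise (Function.onFun Nat.Coprime p)) (hp0 : ∀ i, 0 < p i)
    (b : ℕ) (hb : 1 < b) (hM : 2 * b ≤ (∏ i, p i) + 1) (hM' : ∏ i, p i ≤ 2 * b)
    (hF : ((E * ∏ i, p i : ℕ) : F) ≠ 0)
    {t₁ t₂ : ℕ} (ht₁ : 0 < t₁) (ht₂ : 0 < t₂) (κ₁ κ₂ : ℝ) (ρ : ℕ)
    (hρ : ∑ j, Nat.clog b (m j) ≤ ρ)
    (hκ₁ : (Fintype.card ι₁ : ℝ) ≤ κ₁) (hκ₂ : (ρ : ℝ) * Fintype.card P ≤ κ₂)
    (hκ₁0 : 0 < κ₁) (hκ₂0 : 0 < κ₂) (j₁ j₂ : ℕ) (hj₁ : ∀ i, q i ≤ 2 ^ j₁)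
    (hj₂ : ∀ i, p i ≤ 2 ^ j₂) (D₁ D₂ : ℕ) (hD₁ : 1 ≤ D₁) (hD₂ : 1 ≤ D₂)
    (hD₁' : ∑ i, q i ≤ D₁) (hD₂' : ρ * ∑ i, p i ≤ D₂) :
    ∃ S : Matrix G G F,
      (((Matrix.of fun x y : G => f (x - y)) - S).rank : ℝ) ≤
        Fintype.card G * (((E * ∏ i, p i : ℕ) : ℝ) * (16 * (j₁ *
          Real.exp (-((t₁ : ℝ) ^ 2 / (8 * κ₁))) +
          j₂ * (2 ^ ρ * (b : ℝ) ^ (Fintype.card J)) *
            Real.exp (-((t₂ : ℝ) ^ 2 / (8 * κ₂)))))) ∧
      {w : G × G | S w.1 w.2 ≠ 0}.ncard ≤ Fintype.card G *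
          (D₁ ^ (4 * j₁ * t₁) * D₂ ^ (4 * j₂ * t₂)) := by
  classical
  set M := ∏ i, p i with hMdef
  have hM0 : 0 < M := Finset.prod_pos fun i _ => hp0 i
  have : NeZero (E * M) := ⟨(Nat.mul_pos hE hM0).ne'⟩
  have : NeZero ((E * M : ℕ) : F) := ⟨hF⟩
  have : ∀ i, NeZero (q i) := fun i => ⟨by have := (hq i).1; omega⟩
  have : ∀ j, NeZero (m j) := fun j => ⟨by have := hm j; omega⟩
  have : ∀ i, NeZero (p i) := fun i => ⟨(hp0 i).ne'⟩
  let L := CyclotomicField (E * M) F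
  have hz := IsCyclotomicExtension.zeta_spec (E * M) F L
  have : FiniteDimensional F L := IsCyclotomicExtension.finiteDimensional {E * M} F L
  let r : J → ℕ := fun j => Nat.clog b (m j)
  let φ : (∀ j, ZMod (m j)) → (i : (j : J) × (Fin (r j) × P)) → ZMod (p i.2.2) :=
    fun x => dig p r b fun j => (x j).val
  have hlt : ∀ (x : ∀ j, ZMod (m j)) j, (x j).val < b ^ r j := fun x j =>
    (ZMod.val_lt (x j)).trans_le (Nat.le_pow_clog hb _)
  have hund : ∀ x y j, ((undig p hp r b (φ x - φ y) j : ℤ) : ZMod (m j)) = x j - y j := by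
    intro x y j
    rw [undig_dig p hp r b (by omega) hM _ _ (hlt x) (hlt y) j]
    push_cast
    rw [ZMod.natCast_zmod_val, ZMod.natCast_zmod_val]
  have hφ : Function.Injective φ := by
    intro x y hxy
    funext j
    have h1 := hund x y j
    have h2 := hund y y j
    rw [hxy, h2, sub_self] at h1
    exact (sub_eq_zero.1 h1.symm)
  choose z₁ hz₁ using fun i : ι₁ => exists_primitive (F := F) (Nat.mul_pos hE hM0) hz
    ((hq i).2.trans (Dvd.intro _ rfl))
  choose z₂ hz₂ using fun i : ((j : J) × (Fin (r j) × P)) =>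
    exists_primitive (F := F) (d := p i.2.2) (Nat.mul_pos hE hM0) hz
    ((Finset.dvd_prod_of_mem _ (Finset.mem_univ _)).trans (Dvd.intro_left _ rfl))
  have hcard2 : Fintype.card ((j : J) × (Fin (r j) × P)) = (∑ j, r j) * Fintype.card P := by
    rw [Fintype.card_sigma, Finset.sum_mul]
    exact Finset.sum_congr rfl fun j _ => by rw [Fintype.card_prod, Fintype.card_fin]
  have hcardX : Fintype.card (∀ j, ZMod (m j)) = ∏ j, m j := by
    rw [Fintype.card_pi]
    exact Finset.prod_congr rfl fun i _ => ZMod.card _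
  have hcardG : Fintype.card G = (∏ i, q i) * ∏ j, m j := by
    rw [Fintype.card_congr e.toEquiv, Fintype.card_prod, hcardX, Fintype.card_pi]
    congr 1
    exact Finset.prod_congr rfl fun i _ => ZMod.card _
  have hprodn : ∏ i : ((j : J) × (Fin (r j) × P)), p i.2.2 = M ^ (∑ j, r j) := by
    rw [Fintype.prod_sigma, ← Finset.prod_pow_eq_pow_sum]
    refine Finset.prod_congr rfl fun j _ => ?_
    rw [Fintype.prod_prod_type]
    simp [hMdef]
  have hsumn : ∑ i : ((j : J) × (Fin (r j) × P)), p i.2.2 = (∑ j, r j) * ∑ i, p i := by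
    rw [Fintype.sum_sigma, Finset.sum_mul]
    refine Finset.sum_congr rfl fun j _ => ?_
    rw [Fintype.sum_prod_type]
    simp
  have hprodle : M ^ (∑ j, r j) ≤ 2 ^ ρ * b ^ Fintype.card J * ∏ j, m j := by
    calc M ^ (∑ j, r j) ≤ (2 * b) ^ (∑ j, r j) := Nat.pow_le_pow_left hM' _
      _ = 2 ^ (∑ j, r j) * ∏ j, b ^ r j := by
          rw [mul_pow, Finset.prod_pow_eq_pow_sum]
      _ ≤ 2 ^ ρ * ∏ j, (b * m j) := by
          refine Nat.mul_le_mul (Nat.pow_le_pow_right (by norm_num) hρ) ?_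
          exact Finset.prod_le_prod' fun j _ => clog_bound hb (hm j)
      _ = 2 ^ ρ * b ^ Fintype.card J * ∏ j, m j := by
          rw [Finset.prod_mul_distrib, Finset.prod_const, Finset.card_univ]
          ring
  obtain ⟨S, hS1, hS2⟩ := circ_small φ hφ z₁ z₂ hz₁ hz₂
    (fun a z => f (e.symm (a, fun j => ((undig p hp r b z j : ℤ) : ZMod (m j)))))
    ht₁ ht₂ κ₁ κ₂ hκ₁ (by
      rw [hcard2]
      refine le_trans ?_ hκ₂
      push_cast
      exact mul_le_mul_of_nonneg_right (by exact_mod_cast hρ) (Nat.cast_nonneg _))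
    hκ₁0 hκ₂0 j₁ j₂ hj₁ (fun i => hj₂ _) D₁ D₂ hD₁ hD₂ hD₁' (by
      rw [hsumn]
      exact (Nat.mul_le_mul_right _ hρ).trans hD₂')
  refine ⟨S.submatrix e e, ?_, ?_⟩
  · have h1 : ((Matrix.of fun x y : G => f (x - y)) - S.submatrix e e) =
        ((Matrix.of fun p' p'' : (∀ i, ZMod (q i)) × (∀ j, ZMod (m j)) =>
          f (e.symm (p'.1 - p''.1, fun j =>
            ((undig p hp r b (φ p'.2 - φ p''.2) j : ℤ) : ZMod (m j))))) - S).submatrix
            e.toEquiv e.toEquiv := by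
      ext x y
      simp only [Matrix.sub_apply, Matrix.of_apply, Matrix.submatrix_apply]
      congr 2
      apply e.injective
      rw [AddEquiv.apply_symm_apply, map_sub]
      refine Prod.ext rfl ?_
      funext j
      exact (hund _ _ j).symm
    rw [h1, Matrix.rank_submatrix]
    refine hS1.trans ?_
    have h2 : (Module.finrank F L : ℝ) ≤ ((E * M : ℕ) : ℝ) := by
      exact_mod_cast finrank_cyc_le F (E * M)
    rw [hcardX, hcardG]
    have h3 : ((∏ i : ((j : J) × (Fin (r j) × P)), (p i.2.2 : ℝ))) ≤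
        (2 : ℝ) ^ ρ * (b : ℝ) ^ Fintype.card J * ∏ j, (m j : ℝ) := by
      have : ((∏ i : ((j : J) × (Fin (r j) × P)), (p i.2.2 : ℝ))) =
          ((M ^ (∑ j, r j) : ℕ) : ℝ) := by
        rw [← hprodn]
        push_cast
        rfl
      rw [this]
      exact_mod_cast hprodle
    have hQ : (0 : ℝ) ≤ ∏ i, (q i : ℝ) := Finset.prod_nonneg fun i _ => Nat.cast_nonneg _
    have hMm : (0 : ℝ) ≤ ∏ j, (m j : ℝ) := Finset.prod_nonneg fun i _ => Nat.cast_nonneg _
    push_cast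
    set QQ := ∏ i, (q i : ℝ)
    set MM := ∏ j, (m j : ℝ)
    set E1 := Real.exp (-((t₁ : ℝ) ^ 2 / (8 * κ₁))) with hE1
    set E2 := Real.exp (-((t₂ : ℝ) ^ 2 / (8 * κ₂))) with hE2
    have hE1p : 0 < E1 := Real.exp_pos _
    have hE2p : 0 < E2 := Real.exp_pos _
    have h4 : (16 : ℝ) * (j₁ * (QQ * E1) * MM + QQ * (j₂ *
        ((∏ i : ((j : J) × (Fin (r j) × P)), (p i.2.2 : ℝ)) * E2))) ≤
        QQ * MM * (16 * (j₁ * E1 + j₂ * (2 ^ ρ * (b : ℝ) ^ Fintype.card J) * E2)) := by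
      have h5 : QQ * (j₂ * ((∏ i : ((j : J) × (Fin (r j) × P)), (p i.2.2 : ℝ)) * E2)) ≤
          QQ * (j₂ * (((2 : ℝ) ^ ρ * (b : ℝ) ^ Fintype.card J * MM) * E2)) := by
        gcongr
      calc (16 : ℝ) * (j₁ * (QQ * E1) * MM + QQ * (j₂ *
          ((∏ i : ((j : J) × (Fin (r j) × P)), (p i.2.2 : ℝ)) * E2)))
          ≤ 16 * (j₁ * (QQ * E1) * MM +
            QQ * (j₂ * (((2 : ℝ) ^ ρ * (b : ℝ) ^ Fintype.card J * MM) * E2))) := by gcongr
        _ = _ := by ring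
    have h6 : (0 : ℝ) ≤ QQ * MM * (16 * (j₁ * E1 +
        j₂ * (2 ^ ρ * (b : ℝ) ^ Fintype.card J) * E2)) := by positivity
    have hcastEM : ((E * M : ℕ) : ℝ) = (E : ℝ) * M := by
      push_cast
      ring
    calc (Module.finrank F L : ℝ) * (16 * (j₁ * (QQ * E1) * MM + QQ * (j₂ *
        ((∏ i : ((j : J) × (Fin (r j) × P)), (p i.2.2 : ℝ)) * E2))))
        ≤ (Module.finrank F L : ℝ) * (QQ * MM * (16 * (j₁ * E1 +
          j₂ * (2 ^ ρ * (b : ℝ) ^ Fintype.card J) * E2))) :=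
          mul_le_mul_of_nonneg_left h4 (Nat.cast_nonneg _)
      _ ≤ ((E * M : ℕ) : ℝ) * (QQ * MM * (16 * (j₁ * E1 +
          j₂ * (2 ^ ρ * (b : ℝ) ^ Fintype.card J) * E2))) :=
          mul_le_mul_of_nonneg_right h2 h6
      _ = _ := by
          rw [hcastEM]
          ring
  · have h1 : {w : G × G | (S.submatrix e e) w.1 w.2 ≠ 0}.ncard =
        {w : ((∀ i, ZMod (q i)) × (∀ j, ZMod (m j))) × ((∀ i, ZMod (q i)) × (∀ j, ZMod (m j))) |
        S w.1 w.2 ≠ 0}.ncard := by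
      refine Set.ncard_congr (fun w _ => (e w.1, e w.2)) ?_ ?_ ?_
      · intro w hw
        exact hw
      · intro w w' _ _ h
        rw [Prod.ext_iff] at h
        exact Prod.ext (e.injective h.1) (e.injective h.2)
      · intro w hw
        refine ⟨(e.symm w.1, e.symm w.2), ?_, by simp⟩
        simpa using hw
    rw [h1]
    refine hS2.trans ?_
    rw [hcardX, hcardG]

end Grp

end Pool.Agent.W966.Kron
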