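import Mathlib

set_option autoImplicit false
set_option linter.unusedSectionVars false

/-!
# Tensor products of small matrices: sparse plus low rank

For matrices `M i` (`i : ι`) let `tens M` be their tensor product, a matrix indexed by tuples.
`Good s r T` says that `T` is the sum of a matrix of rank at most `r` and of a matrix which is
supported on the pairs of tuples at Hamming distance at most `s`.
-/

namespace Pool.Agent.W966.Kron

open Matrix Finset

variable {K : Type*} [Field K] {ι : Type*} [Fintype ι] [DecidableEq ι] {α : ι → Type*}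
  [∀ i, Fintype (α i)] [∀ i, DecidableEq (α i)]

/-- The tensor product of the matrices `M i`. -/
def tens (M : ∀ i, Matrix (α i) (α i) K) : Matrix (∀ i, α i) (∀ i, α i) K :=
  fun x y => ∏ i, M i (x i) (y i)

theorem tens_mul (A B : ∀ i, Matrix (α i) (α i) K) :
    tens A * tens B = tens (fun i => A i * B i) := by
  ext x y
  simp only [tens, Matrix.mul_apply]
  rw [Finset.prod_univ_sum]
  rw [Fintype.piFinset_univ]
  refine Finset.sum_congr rfl fun z _ => ?_
  rw [Finset.prod_mul_distrib]

theorem tens_transpose (A : ∀ i, Matrix (α i) (α i) K) :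
    (tens A)ᵀ = tens (fun i => (A i)ᵀ) := by
  ext x y
  simp [tens, Matrix.transpose_apply]

omit [DecidableEq ι] [∀ i, DecidableEq (α i)] in
theorem rank_add_le' {m : Type*} [Fintype m] (A B : Matrix m m K) :
    (A + B).rank ≤ A.rank + B.rank := by
  classical
  unfold Matrix.rank
  rw [Matrix.mulVecLin_add]
  calc Module.finrank K (LinearMap.range (A.mulVecLin + B.mulVecLin))
      ≤ Module.finrank K
        ((LinearMap.range A.mulVecLin ⊔ LinearMap.range B.mulVecLin : Submodule K (m → K))) :=
        Submodule.finrank_mono (LinearMap.range_add_le _ _)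
    _ ≤ _ := Submodule.finrank_add_le_finrank_add_finrank _ _

/-- `T` is the sum of a matrix supported on pairs at Hamming distance at most `s` and of a matrix
of rank at most `r`. -/
def Good (s : ℕ) (r : ℝ) (T : Matrix (∀ i, α i) (∀ i, α i) K) : Prop :=
  ∃ S R : Matrix (∀ i, α i) (∀ i, α i) K, T = S + R ∧ (R.rank : ℝ) ≤ r ∧
    ∀ x y, S x y ≠ 0 → hammingDist x y ≤ s

theorem Good.mul {s s' : ℕ} {r r' : ℝ} {T T' : Matrix (∀ i, α i) (∀ i, α i) K}
    (h : Good s r T) (h' : Good s' r' T') : Good (s + s') (r + r') (T * T') := by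
  obtain ⟨S, R, rfl, hR, hS⟩ := h
  obtain ⟨S', R', rfl, hR', hS'⟩ := h'
  refine ⟨S * S', R * (S' + R') + S * R', by noncomm_ring, ?_, ?_⟩
  · have h1 : (R * (S' + R') + S * R').rank ≤ R.rank + R'.rank :=
      (rank_add_le' _ _).trans (Nat.add_le_add (rank_mul_le_left _ _) (rank_mul_le_right _ _))
    have h2 : ((R * (S' + R') + S * R').rank : ℝ) ≤ (R.rank : ℝ) + R'.rank := by
      exact_mod_cast h1
    linarith
  · intro x y hxy
    rw [Matrix.mul_apply] at hxy
    obtain ⟨z, -, hz⟩ := Finset.exists_ne_zero_of_sum_ne_zero hxy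
    exact (hammingDist_triangle x z y).trans
      (Nat.add_le_add (hS _ _ (left_ne_zero_of_mul hz)) (hS' _ _ (right_ne_zero_of_mul hz)))

theorem Good.transpose {s : ℕ} {r : ℝ} {T : Matrix (∀ i, α i) (∀ i, α i) K}
    (h : Good s r T) : Good s r Tᵀ := by
  obtain ⟨S, R, rfl, hR, hS⟩ := h
  refine ⟨Sᵀ, Rᵀ, by rw [Matrix.transpose_add], by rwa [Matrix.rank_transpose], ?_⟩
  intro x y hxy
  rw [hammingDist_comm]
  exact hS _ _ hxy

theorem Good.mono {s s' : ℕ} {r r' : ℝ} {T : Matrix (∀ i, α i) (∀ i, α i) K}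
    (h : Good s r T) (hs : s ≤ s') (hr : r ≤ r') : Good s' r' T := by
  obtain ⟨S, R, hT, hR, hS⟩ := h
  exact ⟨S, R, hT, hR.trans hr, fun x y hxy => (hS x y hxy).trans hs⟩

/-- A tensor product of diagonal matrices is supported on the diagonal. -/
theorem good_diag (M : ∀ i, Matrix (α i) (α i) K) (h : ∀ i a c, M i a c ≠ 0 → a = c) :
    Good 0 0 (tens M) := by
  refine ⟨tens M, 0, by simp, by simp, ?_⟩
  intro x y hxy
  have : x = y := by
    funext i
    exact h i _ _ (Finset.prod_ne_zero_iff.1 hxy i (Finset.mem_univ i))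
  simp [this]

/-! ### Second moment -/

theorem sum_cross (g : ∀ i, α i → ℝ) (hg : ∀ i, ∑ a, g i a = 0) {i j : ι} (hij : i ≠ j) :
    ∑ x : (∀ i, α i), g i (x i) * g j (x j) = 0 := by
  have h1 : ∀ x : (∀ i, α i), g i (x i) * g j (x j) =
      ∏ l, (if l = i then g l (x l) else if l = j then g l (x l) else 1) := by
    intro x
    rw [← Finset.prod_subset (s₁ := {i, j}) (Finset.subset_univ _)]
    · rw [Finset.prod_pair hij]
      simp [hij.symm]
    · intro l _ hl
      simp only [Finset.mem_insert, Finset.mem_singleton, not_or] at hl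
      simp [hl.1, hl.2]
  have h2 := Finset.prod_univ_sum (fun i => (Finset.univ : Finset (α i)))
    (fun l a => (if l = i then g l a else if l = j then g l a else 1))
  rw [Fintype.piFinset_univ] at h2
  rw [Finset.sum_congr rfl (fun x _ => h1 x), ← h2]
  refine Finset.prod_eq_zero (Finset.mem_univ i) ?_
  simp [hg i]

theorem second_moment (g : ∀ i, α i → ℝ) (hg : ∀ i, ∑ a, g i a = 0)
    (hg1 : ∀ i a, |g i a| ≤ 1) :
    ∑ x : (∀ i, α i), (∑ i, g i (x i)) ^ 2 ≤
      (Fintype.card (∀ i, α i) : ℝ) * Fintype.card ι := by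
  have h1 : ∀ x : (∀ i, α i), (∑ i, g i (x i)) ^ 2 = ∑ i, ∑ j, g i (x i) * g j (x j) := by
    intro x
    rw [sq, Finset.sum_mul_sum]
  rw [Finset.sum_congr rfl (fun x _ => h1 x), Finset.sum_comm]
  have h2 : ∀ i, ∑ x : (∀ i, α i), ∑ j, g i (x i) * g j (x j) ≤ (Fintype.card (∀ i, α i) : ℝ) := by
    intro i
    rw [Finset.sum_comm, ← Finset.add_sum_erase _ _ (Finset.mem_univ i)]
    rw [Finset.sum_eq_zero (s := Finset.univ.erase i)]
    · rw [add_zero]
      calc ∑ x : (∀ i, α i), g i (x i) * g i (x i) ≤ ∑ x : (∀ i, α i), (1 : ℝ) := by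
            refine Finset.sum_le_sum fun x _ => ?_
            have := hg1 i (x i)
            rw [abs_le] at this
            nlinarith
        _ = _ := by simp
    · intro j hj
      exact sum_cross g hg (Finset.ne_of_mem_erase hj).symm
  calc _ ≤ ∑ _i : ι, (Fintype.card (∀ i, α i) : ℝ) := Finset.sum_le_sum fun i _ => h2 i
    _ = _ := by simp [mul_comm]

/-- Chebyshev's inequality for the number of coordinates with a given property. -/
theorem few_atypical (b : ∀ i, α i → ℕ) (hb : ∀ i a, b i a ≤ 1) [∀ i, Nonempty (α i)] :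
    ∃ μ : ℝ, ∀ t : ℝ, 0 < t →
      ((Finset.univ.filter fun x : (∀ i, α i) =>
        t < |(∑ i, (b i (x i) : ℝ)) - μ|).card : ℝ) ≤
        (Fintype.card (∀ i, α i) : ℝ) * Fintype.card ι / t ^ 2 := by
  classical
  let m : ι → ℝ := fun i => (∑ a, (b i a : ℝ)) / Fintype.card (α i)
  let g : ∀ i, α i → ℝ := fun i a => (b i a : ℝ) - m i
  have hcard : ∀ i, (0 : ℝ) < Fintype.card (α i) := fun i => by
    exact_mod_cast Fintype.card_pos
  have hg : ∀ i, ∑ a, g i a = 0 := by
    intro i
    have := (hcard i).ne'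
    simp only [g, m, Finset.sum_sub_distrib, Finset.sum_const, Finset.card_univ, nsmul_eq_mul]
    field_simp
    ring
  have hm0 : ∀ i, 0 ≤ m i := fun i => by positivity
  have hm1 : ∀ i, m i ≤ 1 := fun i => by
    rw [div_le_one (hcard i)]
    calc ∑ a, (b i a : ℝ) ≤ ∑ _a : α i, (1 : ℝ) :=
          Finset.sum_le_sum fun a _ => by exact_mod_cast hb i a
      _ = _ := by simp
  have hg1 : ∀ i a, |g i a| ≤ 1 := by
    intro i a
    have h0 : (0 : ℝ) ≤ b i a := by positivity
    have h1 : (b i a : ℝ) ≤ 1 := by exact_mod_cast hb i a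
    rw [abs_le]
    constructor <;> simp only [g] <;> linarith [hm0 i, hm1 i]
  refine ⟨∑ i, m i, fun t ht => ?_⟩
  rw [le_div_iff₀ (by positivity)]
  have h2 := second_moment g hg hg1
  refine le_trans ?_ h2
  rw [← nsmul_eq_mul, ← Finset.sum_const]
  refine (Finset.sum_le_sum (f := fun _ => t ^ 2)
    (g := fun x : (∀ i, α i) => (∑ i, g i (x i)) ^ 2) ?_).trans ?_
  · intro x hx
    rw [Finset.mem_filter] at hx
    have h3 : (∑ i, g i (x i)) = (∑ i, (b i (x i) : ℝ)) - ∑ i, m i := by
      simp [g, Finset.sum_sub_distrib]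
    rw [h3, ← sq_abs ((∑ i, (b i (x i) : ℝ)) - ∑ i, m i)]
    exact pow_le_pow_left₀ ht.le hx.2.le 2
  · exact Finset.sum_le_sum_of_subset_of_nonneg (Finset.filter_subset _ _)
      (fun x _ _ => sq_nonneg _)

/-- The key lemma: a tensor product of matrices all of whose off-diagonal entries decrease a bit
is the sum of a matrix of small rank and of a matrix supported near the diagonal. -/
theorem good_level (M : ∀ i, Matrix (α i) (α i) K) (b : ∀ i, α i → ℕ) (hb : ∀ i a, b i a ≤ 1)
    (h : ∀ i a c, M i a c ≠ 0 → a = c ∨ b i c < b i a) [∀ i, Nonempty (α i)] {t : ℕ}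
    (ht : 0 < t) :
    Good t (8 * (Fintype.card (∀ i, α i) : ℝ) * Fintype.card ι / t ^ 2) (tens M) := by
  classical
  obtain ⟨μ, hμ⟩ := few_atypical b hb
  have ht' : (0 : ℝ) < t := by exact_mod_cast ht
  have h1 := hμ (t / 2) (by positivity)
  set B := Finset.univ.filter fun x : (∀ i, α i) => (t : ℝ) / 2 < |(∑ i, (b i (x i) : ℝ)) - μ|
    with hB
  -- the three parts
  let S : Matrix (∀ i, α i) (∀ i, α i) K := fun x y => if x ∈ B ∨ y ∈ B then 0 else tens M x y
  let R₁ : Matrix (∀ i, α i) (∀ i, α i) K := fun x y => if x ∈ B then tens M x y else 0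
  let R₂ : Matrix (∀ i, α i) (∀ i, α i) K :=
    fun x y => if x ∉ B ∧ y ∈ B then tens M x y else 0
  refine ⟨S, R₁ + R₂, ?_, ?_, ?_⟩
  · ext x y
    change tens M x y = (if x ∈ B ∨ y ∈ B then 0 else tens M x y) +
      ((if x ∈ B then tens M x y else 0) + (if x ∉ B ∧ y ∈ B then tens M x y else 0))
    by_cases hx : x ∈ B <;> by_cases hy : y ∈ B <;> simp [hx, hy]
  · have e1 : R₁.rank ≤ B.card := by
      refine Matrix.rank_le_card_of_support_subset _ _ ?_
      intro x hx
      by_contra hxB
      apply hx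
      funext y
      have : x ∉ B := by simpa using hxB
      simp [R₁, Matrix.row, this]
    have e2 : R₂.rank ≤ B.card := by
      rw [← Matrix.rank_transpose]
      refine Matrix.rank_le_card_of_support_subset _ _ ?_
      intro x hx
      by_contra hxB
      apply hx
      funext y
      have : x ∉ B := by simpa using hxB
      change (if y ∉ B ∧ x ∈ B then tens M y x else 0) = 0
      simp [this]
    have e3 : (R₁ + R₂).rank ≤ B.card + B.card := (rank_add_le' _ _).trans (Nat.add_le_add e1 e2)
    have e4 : ((R₁ + R₂).rank : ℝ) ≤ B.card + B.card := by exact_mod_cast e3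
    refine e4.trans ?_
    have e5 : (Fintype.card (∀ i, α i) : ℝ) * Fintype.card ι / ((t : ℝ) / 2) ^ 2 =
        4 * (Fintype.card (∀ i, α i) : ℝ) * Fintype.card ι / t ^ 2 := by
      field_simp
      ring
    rw [e5] at h1
    have e6 : 8 * (Fintype.card (∀ i, α i) : ℝ) * Fintype.card ι / t ^ 2 =
        4 * (Fintype.card (∀ i, α i) : ℝ) * Fintype.card ι / t ^ 2 +
        4 * (Fintype.card (∀ i, α i) : ℝ) * Fintype.card ι / t ^ 2 := by ring
    rw [e6]
    linarith
  · intro x y hxy
    simp only [S] at hxy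
    rw [ite_ne_left_iff] at hxy
    obtain ⟨hB', hne⟩ := hxy
    rw [not_or] at hB'
    have hne' : tens M x y ≠ 0 := fun h0 => hne h0.symm
    have hxy : ∀ i, M i (x i) (y i) ≠ 0 := fun i =>
      Finset.prod_ne_zero_iff.1 hne' i (Finset.mem_univ i)
    -- Hamming distance is at most the difference of the weights
    have h3 : ∀ i, (if x i ≠ y i then 1 else 0) + b i (y i) ≤ b i (x i) := by
      intro i
      rcases h i _ _ (hxy i) with h4 | h4
      · simp [h4]
      · split_ifs <;> omega
    have h4 : hammingDist x y + ∑ i, b i (y i) ≤ ∑ i, b i (x i) := by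
      have : hammingDist x y = ∑ i, (if x i ≠ y i then 1 else 0) := by
        simp [hammingDist, Finset.card_filter]
      rw [this, ← Finset.sum_add_distrib]
      exact Finset.sum_le_sum fun i _ => h3 i
    have h5 : (hammingDist x y : ℝ) + ∑ i, (b i (y i) : ℝ) ≤ ∑ i, (b i (x i) : ℝ) := by
      exact_mod_cast h4
    have hx := hB'.1
    have hy := hB'.2
    simp only [hB, Finset.mem_filter, Finset.mem_univ, true_and, not_lt] at hx hy
    rw [abs_le] at hx hy
    have : (hammingDist x y : ℝ) ≤ t := by linarith [hx.2, hy.1]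
    exact_mod_cast this

end Pool.Agent.W966.Kron
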