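import Pool.Agent.W966.Grouping

set_option autoImplicit false
set_option linter.unusedSectionVars false

/-!
# Kronecker products of arbitrary square matrices: few changes reduce the rank
-/

namespace Pool.Agent.W966.Kron

open Matrix Finset

/-- The exponent saved in the rank. -/
noncomputable def gam (δ ℓ : ℝ) : ℝ := δ ^ 2 / (2 ^ 20 * Real.logb 2 (4 / δ) ^ 2 * ℓ ^ 3)

theorem logb_le_sub_one {u : ℝ} (hu : 2 ≤ u) : Real.logb 2 u ≤ u - 1 := by
  -- `log (u / 2) ≤ u / 2 - 1`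
  have h1 := Real.log_le_sub_one_of_pos (show 0 < u / 2 by linarith)
  have h2 : Real.log u = Real.log (u / 2) + Real.log 2 := by
    rw [← Real.log_mul (by linarith) (by norm_num)]
    congr 1
    ring
  have h3 := Real.log_two_gt_d9
  have h4 : 0 < Real.log 2 := by linarith
  rw [Real.logb, div_le_iff₀ h4, h2]
  nlinarith

theorem sparse_bound {δ ℓ u σ k' X D : ℝ} (hδ0 : 0 < δ) (hδ1 : δ ≤ 1)
    (hℓ : 1 ≤ ℓ) (hu : u = Real.logb 2 (4 / δ)) (hσ : σ = δ / (16 * u)) (hk' : k' = 2 * X / ℓ)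
    (hX : 0 ≤ X) (hD : D = 2 ^ (2 * ℓ)) {s : ℕ} (hs : (s : ℝ) ≤ σ * k') :
    0 < σ / D ∧ σ / D ≤ 1 ∧ 2 ≤ u ∧
      Real.exp (σ / D * (k' * D)) / (σ / D) ^ s ≤ (2 : ℝ) ^ (δ * X) := by
  have hu2 : 2 ≤ u := by
    rw [hu, Real.le_logb_iff_rpow_le (by norm_num) (by positivity)]
    have : (2 : ℝ) ^ (2 : ℝ) = 4 := by norm_num
    rw [this, le_div_iff₀ hδ0]
    linarith
  have hσ0 : 0 < σ := by rw [hσ]; positivity
  have hσ1 : σ ≤ 1 / 32 := by
    rw [hσ, div_le_iff₀ (by positivity)]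
    linarith
  have hD1 : 1 ≤ D := by
    rw [hD]
    exact Real.one_le_rpow (by norm_num) (by positivity)
  have hD0 : 0 < D := by linarith
  have hk0 : 0 ≤ k' := by rw [hk']; positivity
  refine ⟨by positivity, ?_, hu2, ?_⟩
  · rw [div_le_one hD0]
    linarith
  have e1 : σ / D * (k' * D) = σ * k' := by field_simp
  rw [e1, div_eq_mul_inv, ← inv_pow, inv_div]
  have e2 : (D / σ) ^ s ≤ (D / σ) ^ (σ * k') := by
    rw [← Real.rpow_natCast]
    apply Real.rpow_le_rpow_of_exponent_le _ hs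
    rw [le_div_iff₀ hσ0]
    linarith
  have e3 : Real.exp (σ * k') ≤ (2 : ℝ) ^ ((3 / 2) * (σ * k')) := by
    have h3 := Real.log_two_gt_d9
    rw [Real.rpow_def_of_pos (by norm_num)]
    apply Real.exp_le_exp.2
    have : 0 ≤ σ * k' := by positivity
    nlinarith
  have e4 : (D / σ) ^ (σ * k') = (2 : ℝ) ^ (Real.logb 2 (D / σ) * (σ * k')) := by
    rw [Real.rpow_mul (show (0 : ℝ) ≤ 2 by norm_num),
      Real.rpow_logb (by norm_num) (by norm_num) (by positivity)]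
  calc Real.exp (σ * k') * (D / σ) ^ s
      ≤ (2 : ℝ) ^ ((3 / 2) * (σ * k')) * (2 : ℝ) ^ (Real.logb 2 (D / σ) * (σ * k')) := by
        rw [← e4]
        gcongr
    _ = (2 : ℝ) ^ ((3 / 2 + Real.logb 2 (D / σ)) * (σ * k')) := by
        rw [← Real.rpow_add (by norm_num)]
        congr 1
        ring
    _ ≤ (2 : ℝ) ^ (δ * X) := by
        apply Real.rpow_le_rpow_of_exponent_le (by norm_num)
        have h5 : D / σ = 2 ^ (2 * ℓ) * (4 * u * (4 / δ)) := by
          rw [hσ, hD]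
          field_simp
          ring
        have h6 : Real.logb 2 (D / σ) = 2 * ℓ + (2 + Real.logb 2 u + u) := by
          rw [h5, Real.logb_mul (by positivity) (by positivity),
            Real.logb_mul (by positivity) (by positivity), ← hu,
            Real.logb_mul (by norm_num) (by positivity), Real.logb_rpow (by norm_num)
            (by norm_num)]
          have : Real.logb 2 4 = 2 := by
            rw [show (4 : ℝ) = 2 ^ (2 : ℝ) by norm_num, Real.logb_rpow (by norm_num) (by norm_num)]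
          rw [this]
        have h7 := logb_le_sub_one hu2
        have h8 : σ * (3 / 2 + Real.logb 2 (D / σ)) ≤ δ * ℓ / 2 := by
          rw [h6, hσ, div_mul_eq_mul_div, div_le_iff₀ (by positivity)]
          nlinarith [mul_pos hδ0 (show 0 < u by linarith),
            mul_nonneg (mul_nonneg hδ0.le (show 0 ≤ u - 2 by linarith))
              (show 0 ≤ ℓ - 1 by linarith), mul_nonneg hδ0.le (show 0 ≤ u - 2 by linarith),
            mul_nonneg hδ0.le (show 0 ≤ ℓ - 1 by linarith)]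
        have h9 : δ * X = δ * ℓ / 2 * k' := by
          rw [hk']
          field_simp
        rw [h9]
        calc (3 / 2 + Real.logb 2 (D / σ)) * (σ * k')
            = σ * (3 / 2 + Real.logb 2 (D / σ)) * k' := by ring
          _ ≤ _ := mul_le_mul_of_nonneg_right h8 hk0

theorem exp_bound {σ k' ℓ X N δ : ℝ} {j t : ℕ} (hσ0 : 0 < σ) (hℓ : 1 ≤ ℓ) (hX : 0 ≤ X)
    (hNX : N = 2 ^ X) (hgam : gam δ ℓ = σ ^ 2 / (4096 * ℓ ^ 3)) (hk'def : k' = 2 * X / ℓ)
    (hkpos : 0 < k') (hj0 : (0 : ℝ) < j) (hj4 : (j : ℝ) ≤ 4 * ℓ) (ht1 : 0 < t)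
    (ht : t = ⌊σ * k' / (4 * j)⌋₊) :
    Real.exp (-((t : ℝ) ^ 2 / (8 * k'))) ≤ N ^ (-gam δ ℓ) := by
  have hgam0 : 0 ≤ gam δ ℓ := by rw [hgam]; positivity
  rw [hNX, ← Real.rpow_mul (by norm_num), Real.rpow_def_of_pos (by norm_num)]
  apply Real.exp_le_exp.2
  have h3 : σ * k' / (4 * j) ≤ 2 * t := by
    have h4 : σ * k' / (4 * j) < t + 1 := by
      rw [ht]
      exact Nat.lt_floor_add_one _
    have h5 : (1 : ℝ) ≤ t := by exact_mod_cast ht1
    linarith
  have h6 : σ * k' / (16 * ℓ) ≤ 2 * t := by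
    refine le_trans ?_ h3
    apply div_le_div_of_nonneg_left (by positivity) (by positivity)
    linarith
  have h7 : σ * k' ≤ 32 * ℓ * t := by
    rw [div_le_iff₀ (by positivity)] at h6
    linarith
  have h8 : (σ * k') ^ 2 ≤ (32 * ℓ * t) ^ 2 := pow_le_pow_left₀ (by positivity) h7 2
  have h9 : Real.log 2 ≤ 1 := by
    have := Real.log_two_lt_d9
    linarith
  have h10 : 0 ≤ Real.log 2 := Real.log_nonneg (by norm_num)
  have h11 : gam δ ℓ * X ≤ (t : ℝ) ^ 2 / (8 * k') := by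
    rw [hgam, le_div_iff₀ (by positivity)]
    have h12 : X = k' * ℓ / 2 := by
      rw [hk'def]
      field_simp
    rw [h12, div_mul_eq_mul_div, div_mul_eq_mul_div, div_le_iff₀ (by positivity)]
    have h13 : σ ^ 2 * (k' * ℓ / 2) * (8 * k') = 4 * ℓ * (σ * k') ^ 2 := by ring
    rw [h13]
    calc 4 * ℓ * (σ * k') ^ 2 ≤ 4 * ℓ * (32 * ℓ * t) ^ 2 := by gcongr
      _ = (t : ℝ) ^ 2 * (4096 * ℓ ^ 3) := by ring
  have h14 : Real.log 2 * (gam δ ℓ * X) ≤ 1 * (gam δ ℓ * X) :=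
    mul_le_mul_of_nonneg_right h9 (mul_nonneg hgam0 hX)
  linarith

theorem kron_main {K : Type*} [Field K] {ι : Type*} [Fintype ι] [DecidableEq ι] (n : ι → ℕ)
    (M : ∀ i, Matrix (Fin (n i)) (Fin (n i)) K) (d : ℕ) (hd : 2 ≤ d)
    (hn : ∀ i, 0 < n i ∧ n i ≤ d) (δ : ℝ) (hδ0 : 0 < δ) (hδ1 : δ ≤ 1) :
    Spr (((∏ i, n i : ℕ) : ℝ) ^ δ) (64 * Real.logb 2 d *
      ((∏ i, n i : ℕ) : ℝ) ^ (1 - gam δ (Real.logb 2 d))) (tens M) := by
  classical
  set N := ∏ i, n i with hN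
  set ℓ := Real.logb 2 d with hℓdef
  set X := Real.logb 2 N with hXdef
  set u := Real.logb 2 (4 / δ) with hudef
  have hdR : (2 : ℝ) ≤ d := by exact_mod_cast hd
  have hℓ : 1 ≤ ℓ := by
    rw [hℓdef, Real.le_logb_iff_rpow_le (by norm_num) (by linarith), Real.rpow_one]
    exact hdR
  have hN1 : 1 ≤ N := Finset.prod_pos fun i _ => (hn i).1
  have hN1R : (1 : ℝ) ≤ N := by exact_mod_cast hN1
  have hN0 : (0 : ℝ) < N := by linarith
  have hX : 0 ≤ X := Real.logb_nonneg (by norm_num) hN1R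
  have hNX : (N : ℝ) = 2 ^ X := (Real.rpow_logb (by norm_num) (by norm_num) hN0).symm
  have hdℓ : (d : ℝ) = 2 ^ ℓ := (Real.rpow_logb (by norm_num) (by norm_num) (by linarith)).symm
  set σ := δ / (16 * u) with hσdef
  set k' := 2 * X / ℓ with hk'def
  obtain ⟨-, -, hu2, -⟩ := sparse_bound (s := 0) hδ0 hδ1 hℓ hudef hσdef hk'def hX rfl
    (by
      have hu2 : 2 ≤ u := by
        rw [hudef, Real.le_logb_iff_rpow_le (by norm_num) (by positivity)]
        have : (2 : ℝ) ^ (2 : ℝ) = 4 := by norm_num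
        rw [this, le_div_iff₀ hδ0]
        linarith
      have : 0 < σ := by rw [hσdef]; positivity
      simp only [Nat.cast_zero]
      positivity)
  have hσ0 : 0 < σ := by rw [hσdef]; positivity
  have hσ1 : σ ≤ 1 / 32 := by
    rw [hσdef, div_le_iff₀ (by positivity)]
    linarith
  have hk0 : 0 ≤ k' := by rw [hk'def]; positivity
  have hgam : gam δ ℓ = σ ^ 2 / (4096 * ℓ ^ 3) := by
    rw [gam, ← hudef, hσdef]
    field_simp
    ring
  have hgam0 : 0 ≤ gam δ ℓ := by rw [hgam]; positivity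
  -- the trivial case
  have triv : gam δ ℓ * X ≤ 6 → Spr ((N : ℝ) ^ δ) (64 * ℓ * (N : ℝ) ^ (1 - gam δ ℓ)) (tens M) := by
    intro h
    apply Spr.trivial _ (by positivity)
    have h1 : (Fintype.card (∀ i, Fin (n i)) : ℝ) = N := by
      simp [Fintype.card_pi, hN]
    rw [h1, Real.rpow_sub hN0, Real.rpow_one]
    have h2 : (N : ℝ) ^ gam δ ℓ ≤ 64 := by
      rw [hNX, ← Real.rpow_mul (by norm_num), mul_comm]
      calc (2 : ℝ) ^ (gam δ ℓ * X) ≤ 2 ^ (6 : ℝ) :=
            Real.rpow_le_rpow_of_exponent_le (by norm_num) h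
        _ = 64 := by norm_num
    have h3 : 0 < (N : ℝ) ^ gam δ ℓ := Real.rpow_pos_of_pos hN0 _
    rw [← mul_div_assoc, le_div_iff₀ h3]
    nlinarith
  by_cases hXℓ : X < ℓ
  · apply triv
    rw [hgam, div_mul_eq_mul_div, div_le_iff₀ (by positivity)]
    have h1 : ℓ ≤ ℓ ^ 3 := by nlinarith [mul_pos (show 0 < ℓ by linarith) (show 0 < ℓ by linarith)]
    have h2 : σ ^ 2 ≤ 1 := by nlinarith
    calc σ ^ 2 * X ≤ 1 * ℓ := mul_le_mul h2 hXℓ.le hX (by norm_num)
      _ ≤ 6 * (4096 * ℓ ^ 3) := by nlinarith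
  rw [not_lt] at hXℓ
  -- the number of levels
  set jn := Nat.clog 2 d with hjn
  have hjd : d ≤ 2 ^ jn := Nat.le_pow_clog (by norm_num) _
  have hjn2 : (jn : ℝ) ≤ 2 * ℓ := by
    have h1 : 2 ^ (jn - 1) < d := Nat.pow_pred_clog_lt_self (by norm_num) (by omega)
    have h2 : (2 : ℝ) ^ ((jn - 1 : ℕ) : ℝ) < 2 ^ ℓ := by
      rw [← hdℓ, Real.rpow_natCast]
      exact_mod_cast h1
    have h3 := (Real.rpow_lt_rpow_left_iff (by norm_num)).1 h2
    have h4 : (jn : ℝ) ≤ ((jn - 1 : ℕ) : ℝ) + 1 := by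
      have : jn ≤ (jn - 1) + 1 := by omega
      exact_mod_cast this
    linarith
  set j := 2 * jn with hj
  have hj4 : (j : ℝ) ≤ 4 * ℓ := by
    rw [hj]
    push_cast
    linarith
  have hjn0 : 0 < jn := Nat.clog_pos (by norm_num) (by omega)
  have hj0 : (0 : ℝ) < j := by
    rw [hj]
    exact_mod_cast (by omega : 0 < 2 * jn)
  have hdd : d * d ≤ 2 ^ j := by
    rw [hj, two_mul, pow_add]
    exact Nat.mul_le_mul hjd hjd
  set t := ⌊σ * k' / (4 * j)⌋₊ with ht
  by_cases ht0 : t = 0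
  · apply triv
    have h1 : σ * k' / (4 * j) < 1 := Nat.floor_eq_zero.1 ht0
    rw [div_lt_one (by positivity)] at h1
    have h2 : σ * (2 * X) ≤ 16 * ℓ ^ 2 := by
      have h3 : σ * (2 * X / ℓ) ≤ 16 * ℓ := by
        rw [← hk'def]
        linarith
      have h4 : σ * (2 * X) = σ * (2 * X / ℓ) * ℓ := by field_simp
      rw [h4]
      nlinarith
    rw [hgam, div_mul_eq_mul_div, div_le_iff₀ (by positivity)]
    have h5 : σ * (σ * (2 * X)) ≤ 1 * (16 * ℓ ^ 2) :=
      mul_le_mul (by linarith) h2 (by positivity) (by norm_num)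
    have h6 : ℓ ^ 2 ≤ ℓ ^ 3 := pow_le_pow_right₀ hℓ (by norm_num)
    nlinarith
  have ht1 : 0 < t := Nat.pos_of_ne_zero ht0
  have htle : (t : ℝ) ≤ σ * k' / (4 * j) := Nat.floor_le (by positivity)
  have hs : ((4 * j * t : ℕ) : ℝ) ≤ σ * k' := by
    push_cast
    rw [le_div_iff₀ (by positivity)] at htle
    linarith
  have hkpos : 0 < k' := by
    have : (1 : ℝ) ≤ t := by exact_mod_cast ht1
    by_contra hneg
    have : k' = 0 := le_antisymm (not_lt.1 hneg) hk0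
    rw [this] at htle
    simp at htle
    omega
  -- grouping
  obtain ⟨m, π, g1, g2, g3, g4⟩ := grouping n d (by omega) hn Finset.univ
  let π' : ι → Fin (m + 1) := fun i => ⟨π i, by have := g1 i (Finset.mem_univ i); omega⟩
  have hgr : ∀ g : Fin (m + 1), ∏ i : {i // π' i = g}, n i =
      ∏ i ∈ Finset.univ.filter (fun i => π i = (g : ℕ)), n i := by
    intro g
    refine (Finset.prod_subtype _ (fun i => ?_) _).symm
    rw [Finset.mem_filter, Fin.ext_iff]
    simp [π']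
  obtain ⟨M', Ψ, hM'⟩ := merge n M π'
  set n' : Fin (m + 1) → ℕ := fun g => ∏ i : {i // π' i = g}, n i with hn'
  have hn'pos : ∀ g, 0 < n' g := fun g => Finset.prod_pos fun i _ => (hn i).1
  have hn'le : ∀ g, n' g ≤ d * d := fun g => by
    rw [hn']
    simp only
    rw [hgr g]
    exact g2 g
  have hprod : ∏ g, n' g = N := by
    rw [hN]
    exact Fintype.prod_fiberwise (g := π') (f := n)
  have hmd : d ^ m ≤ N := by
    rw [← hprod, Fin.prod_univ_castSucc]
    calc d ^ m = ∏ g : Fin m, d := by simp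
      _ ≤ ∏ g : Fin m, n' g.castSucc := by
          refine Finset.prod_le_prod' fun g _ => ?_
          rw [hn']
          simp only
          rw [hgr]
          exact g4 g (by simp)
      _ ≤ (∏ g : Fin m, n' g.castSucc) * n' (Fin.last m) :=
          Nat.le_mul_of_pos_right _ (hn'pos _)
  have hm : ((m + 1 : ℕ) : ℝ) ≤ k' := by
    have h1 : (2 : ℝ) ^ (ℓ * m) ≤ 2 ^ X := by
      rw [Real.rpow_mul (by norm_num), ← hdℓ, ← hNX, Real.rpow_natCast]
      exact_mod_cast hmd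
    have h2 := (Real.rpow_le_rpow_left_iff (by norm_num)).1 h1
    rw [hk'def, le_div_iff₀ (by linarith)]
    push_cast
    nlinarith
  have hcard : (Fintype.card (Fin (m + 1)) : ℝ) ≤ k' := by
    rw [Fintype.card_fin]
    exact hm
  obtain ⟨e₁, e₂, hgood⟩ := good_arb M' hn'pos ht1 k' hcard hkpos j
    (fun g => (hn'le g).trans hdd)
  obtain ⟨hθ0, hθ1, -, hbound⟩ := sparse_bound hδ0 hδ1 hℓ hudef hσdef hk'def hX
    (D := 2 ^ (2 * ℓ)) rfl hs
  have h1 := (Spr.reindex _ _ (hgood.spr (σ / 2 ^ (2 * ℓ)) hθ0 hθ1))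
  rw [← hM'] at h1
  refine (Spr.reindex _ _ h1).mono ?_ ?_
  · rw [hNX, ← Real.rpow_mul (by norm_num), mul_comm X δ]
    refine le_trans ?_ hbound
    refine div_le_div_of_nonneg_right ?_ (pow_nonneg hθ0.le _)
    apply Real.exp_le_exp.2
    refine mul_le_mul_of_nonneg_left ?_ hθ0.le
    have hDd : (2 : ℝ) ^ (2 * ℓ) = ((d * d : ℕ) : ℝ) := by
      rw [two_mul, Real.rpow_add (by norm_num), ← hdℓ]
      push_cast
      ring
    calc ∑ g, (n' g : ℝ) ≤ ∑ g : Fin (m + 1), (2 : ℝ) ^ (2 * ℓ) := by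
          refine Finset.sum_le_sum fun g _ => ?_
          rw [hDd]
          exact_mod_cast hn'le g
      _ = ((m + 1 : ℕ) : ℝ) * 2 ^ (2 * ℓ) := by
          rw [Finset.sum_const, Finset.card_univ, Fintype.card_fin, nsmul_eq_mul]
      _ ≤ k' * 2 ^ (2 * ℓ) := by gcongr
  · have hprodR : ∏ g, (n' g : ℝ) = N := by
      rw [← hprod]
      push_cast
      rfl
    rw [hprodR]
    have h2 : Real.exp (-((t : ℝ) ^ 2 / (8 * k'))) ≤ (N : ℝ) ^ (-gam δ ℓ) :=
      exp_bound hσ0 hℓ hX hNX hgam hk'def hkpos hj0 hj4 ht1 ht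
    have h3 : (N : ℝ) ^ (1 - gam δ ℓ) = N * (N : ℝ) ^ (-gam δ ℓ) := by
      rw [sub_eq_add_neg, Real.rpow_add hN0, Real.rpow_one]
    rw [h3]
    calc 16 * (j : ℝ) * (N * Real.exp (-((t : ℝ) ^ 2 / (8 * k'))))
        ≤ 16 * (4 * ℓ) * (N * (N : ℝ) ^ (-gam δ ℓ)) := by gcongr
      _ = 64 * ℓ * (N * (N : ℝ) ^ (-gam δ ℓ)) := by ring

end Pool.Agent.W966.Kron
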