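import Pool.Agent.W966.Primes

set_option autoImplicit false

/-!
# Infinitely many lengths for which the discrete Fourier transform is not rigid
-/

namespace Pool.Agent.W966.Kron

open Matrix Finset

theorem exists_length (ε δ : ℝ) (hε : 0 < ε) (hδ : 0 < δ) (N₀ : ℕ) :
    ∃ N : ℕ, N₀ ≤ N ∧ ∀ (F : Type) [Field F] (w : F), IsPrimitiveRoot w N →
      ∃ B : Matrix (Fin N) (Fin N) F, (B.rank : ℝ) ≤ ε * N ∧
        (changes (dft w N) B : ℝ) < (N : ℝ) ^ (1 + δ) := by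
  classical
  set A : ℕ := ⌈16 / δ⌉₊ + 1 with hA
  set b : ℕ := ⌈32 * A / ε⌉₊ + 1 with hb
  have hA1 : 16 ≤ δ * A := by
    have h1 := Nat.le_ceil (16 / δ)
    rw [div_le_iff₀ hδ] at h1
    have h2 : ((⌈16 / δ⌉₊ : ℕ) : ℝ) ≤ A := by rw [hA]; push_cast; linarith
    nlinarith
  have hb1 : 32 * A ≤ ε * b := by
    have h1 := Nat.le_ceil (32 * A / ε)
    rw [div_le_iff₀ hε] at h1
    have h2 : ((⌈32 * A / ε⌉₊ : ℕ) : ℝ) ≤ b := by rw [hb]; push_cast; linarith
    nlinarith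
  have hb0 : 0 < b := by omega
  obtain ⟨l, hl, hlA, hlN, hl1⟩ := ((many_primes (A * b)).and
    ((Filter.eventually_ge_atTop A).and ((Filter.eventually_ge_atTop N₀).and
      (Filter.eventually_ge_atTop 1)))).exists
  obtain ⟨s, hs, hcard⟩ := Finset.exists_subset_card_eq hl
  -- the index type and the lengths
  let p : s → ℕ := fun i => (i : ℕ)
  have hps : ∀ i : s, 2 ^ l < p i ∧ p i ≤ 4 ^ l ∧ (p i).Prime := by
    intro i
    have := hs i.2
    rw [Finset.mem_filter, Finset.mem_Ioc] at this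
    exact ⟨this.1.1, this.1.2, this.2⟩
  have hp0 : ∀ i, 0 < p i := fun i => (hps i).2.2.pos
  have hp : Pairwise (Function.onFun Nat.Coprime p) := by
    intro i j hij
    exact (Nat.coprime_primes (hps i).2.2 (hps j).2.2).2 fun h => hij (Subtype.ext h)
  have hcard' : Fintype.card s = A * b * l ^ 3 := by rw [Fintype.card_coe, hcard]
  have hN : 2 ^ (l * (A * b * l ^ 3)) ≤ ∏ i, p i := by
    rw [pow_mul]
    calc (2 ^ l) ^ (A * b * l ^ 3) = ∏ _i : s, 2 ^ l := by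
          rw [Finset.prod_const, Finset.card_univ, hcard']
      _ ≤ ∏ i, p i := Finset.prod_le_prod' fun i _ => (hps i).1.le
  have hAb : 1 ≤ A * b := by
    have : 1 ≤ A := by omega
    exact Nat.one_le_iff_ne_zero.2 (by positivity)
  have hl4 : l ≤ l * (A * b * l ^ 3) := by
    have : 1 ≤ A * b * l ^ 3 := Nat.one_le_iff_ne_zero.2 (by positivity)
    nlinarith
  refine ⟨∏ i, p i, ?_, ?_⟩
  · calc N₀ ≤ l := hlN
      _ ≤ 2 ^ l := (Nat.lt_two_pow_self).le
      _ ≤ 2 ^ (l * (A * b * l ^ 3)) := Nat.pow_le_pow_right (by norm_num) hl4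
      _ ≤ _ := hN
  intro F _ w hw
  have ht : 0 < b * l ^ 2 := by positivity
  obtain ⟨B, hB1, hB2⟩ := dft_changes p hp0 hp w hw ht (2 * l)
    (fun i => by rw [pow_mul]; exact (hps i).2.1)
  refine ⟨B, hB1.trans ?_, ?_⟩
  · rw [hcard']
    have hlr : (0 : ℝ) < l := by exact_mod_cast hl1
    have hbr : (0 : ℝ) < b := by exact_mod_cast hb0
    have hNr : (0 : ℝ) ≤ ∏ i, (p i : ℝ) := Finset.prod_nonneg fun i _ => by positivity
    push_cast
    have e1 : 2 * (2 * (l : ℝ)) * (8 * (∏ i, (p i : ℝ)) * (A * b * l ^ 3) / (b * l ^ 2) ^ 2) =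
        32 * A / b * ∏ i, (p i : ℝ) := by
      field_simp
      ring
    rw [e1]
    apply mul_le_mul_of_nonneg_right _ hNr
    rw [div_le_iff₀ hbr]
    exact hb1
  · rw [hcard'] at hB2
    have hNpos : 0 < ∏ i, p i := Finset.prod_pos fun i _ => hp0 i
    have hNpos' : (0 : ℝ) < ((∏ i, p i : ℕ) : ℝ) := by exact_mod_cast hNpos
    have e2 : (2 : ℕ) ^ (A * b * l ^ 3) * (2 ^ (2 * l)) ^ (2 * (2 * l) * (b * l ^ 2)) =
        2 ^ (A * b * l ^ 3 + 8 * b * l ^ 4) := by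
      rw [← pow_mul, ← pow_add]
      congr 1
      ring
    rw [e2] at hB2
    have h1 : (changes (dft w (∏ i, p i)) B : ℝ) ≤
        ((∏ i, p i : ℕ) : ℝ) * 2 ^ (A * b * l ^ 3 + 8 * b * l ^ 4) := by
      exact_mod_cast hB2
    refine lt_of_le_of_lt h1 ?_
    rw [Real.rpow_add hNpos', Real.rpow_one]
    apply mul_lt_mul_of_pos_left _ hNpos'
    have h2 : ((2 : ℝ) ^ (l * (A * b * l ^ 3))) ≤ ((∏ i, p i : ℕ) : ℝ) := by exact_mod_cast hN
    have h3 : ((2 : ℝ) ^ (l * (A * b * l ^ 3))) ^ δ ≤ ((∏ i, p i : ℕ) : ℝ) ^ δ :=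
      Real.rpow_le_rpow (by positivity) h2 hδ.le
    refine lt_of_lt_of_le ?_ h3
    rw [← Real.rpow_natCast, ← Real.rpow_natCast, ← Real.rpow_mul (by norm_num)]
    apply Real.rpow_lt_rpow_of_exponent_lt (by norm_num)
    push_cast
    have hlr : (1 : ℝ) ≤ l := by exact_mod_cast hl1
    have hbr : (1 : ℝ) ≤ b := by exact_mod_cast hb0
    have hAr : (A : ℝ) ≤ l := by exact_mod_cast hlA
    have h4 : (A : ℝ) + 8 * l < δ * A * l := by nlinarith
    have h5 : (0 : ℝ) < b * l ^ 3 := by positivity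
    calc (A : ℝ) * b * l ^ 3 + 8 * b * l ^ 4 = (A + 8 * l) * (b * l ^ 3) := by ring
      _ < (δ * A * l) * (b * l ^ 3) := mul_lt_mul_of_pos_right h4 h5
      _ = _ := by ring

end Pool.Agent.W966.Kron
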