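import Pool.Agent.W966.Ball

set_option autoImplicit false

/-!
# Many primes, and infinitely many lengths for which the discrete Fourier transform is not rigid
-/

namespace Pool.Agent.W966.Kron

open Matrix Finset

/-- Chebyshev's bound: there are many primes between `2 ^ l` and `4 ^ l`. -/
theorem many_primes (C : ℕ) : ∀ᶠ l : ℕ in Filter.atTop,
    C * l ^ 3 ≤ ((Finset.Ioc (2 ^ l) (4 ^ l)).filter Nat.Prime).card := by
  have h1 : Filter.Tendsto (fun l : ℕ => (l : ℝ) ^ 4 / (2 : ℝ) ^ l) Filter.atTop (nhds 0) :=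
    tendsto_pow_const_div_const_pow_of_one_lt 4 (by norm_num)
  have h2 : ∀ᶠ l : ℕ in Filter.atTop, (l : ℝ) ^ 4 / (2 : ℝ) ^ l < 1 / (4 * (C + 4)) :=
    h1.eventually_lt_const (by positivity)
  filter_upwards [h2, Filter.eventually_ge_atTop 1] with l hl hl1
  have hl1' : (1 : ℝ) ≤ l := by exact_mod_cast hl1
  -- the number of primes up to `4 ^ l`
  have h3 := (Chebyshev.psi_ge (4 ^ l)).trans (Chebyshev.psi_le_primeCounting_mul_log (4 ^ l))
  have hlog4 : Real.log ((4 : ℝ) ^ l) = 2 * l * Real.log 2 := by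
    rw [Real.log_pow, show (4 : ℝ) = 2 ^ 2 by norm_num, Real.log_pow]
    push_cast
    ring
  have hlog2 : (0 : ℝ) < Real.log 2 := Real.log_pos (by norm_num)
  have h4 : Real.log ((4 : ℝ) ^ l + 1) ≤ (2 * l + 1) * Real.log 2 := by
    have : Real.log ((4 : ℝ) ^ l + 1) ≤ Real.log ((4 : ℝ) ^ l * 2) := by
      apply Real.log_le_log (by positivity)
      have : (1 : ℝ) ≤ (4 : ℝ) ^ l := one_le_pow₀ (by norm_num)
      linarith
    rw [Real.log_mul (by positivity) (by norm_num), hlog4] at this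
    linarith
  push_cast at h3
  rw [hlog4] at h3
  have h5 : ((4 : ℝ) ^ l - (2 * l + 1)) ≤ (Nat.primeCounting (4 ^ l) : ℝ) * (2 * l) := by
    have : ((4 : ℝ) ^ l - (2 * l + 1)) * Real.log 2 ≤
        ((Nat.primeCounting (4 ^ l) : ℝ) * (2 * l)) * Real.log 2 := by nlinarith
    exact le_of_mul_le_mul_right this hlog2
  -- the primes up to `4 ^ l` are the ones up to `2 ^ l` and the other ones
  have h6 : (Nat.primeCounting (4 ^ l)) ≤
      2 ^ l + 1 + ((Finset.Ioc (2 ^ l) (4 ^ l)).filter Nat.Prime).card := by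
    rw [Nat.primeCounting, Nat.primeCounting', Nat.count_eq_card_filter_range]
    have : (Finset.range (4 ^ l + 1)).filter Nat.Prime ⊆
        Finset.range (2 ^ l + 1) ∪ (Finset.Ioc (2 ^ l) (4 ^ l)).filter Nat.Prime := by
      intro q hq
      simp only [Finset.mem_filter, Finset.mem_range, Finset.mem_union, Finset.mem_Ioc] at hq ⊢
      by_cases h : q < 2 ^ l + 1
      · exact Or.inl h
      · exact Or.inr ⟨⟨by omega, by omega⟩, hq.2⟩
    refine (Finset.card_le_card this).trans ((Finset.card_union_le _ _).trans ?_)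
    rw [Finset.card_range]
  have h7 : ((Nat.primeCounting (4 ^ l) : ℕ) : ℝ) ≤
      2 ^ l + 1 + ((((Finset.Ioc (2 ^ l) (4 ^ l)).filter Nat.Prime).card : ℕ) : ℝ) := by
    exact_mod_cast h6
  have h8 : (4 : ℝ) ^ l = (2 : ℝ) ^ l * (2 : ℝ) ^ l := by
    rw [← mul_pow]; norm_num
  rw [div_lt_div_iff₀ (by positivity) (by positivity)] at hl
  have h9 : (1 : ℝ) ≤ (2 : ℝ) ^ l := one_le_pow₀ (by norm_num)
  have hl4 : (l : ℝ) ≤ (l : ℝ) ^ 4 := by
    calc (l : ℝ) = (l : ℝ) ^ 1 := (pow_one _).symm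
      _ ≤ (l : ℝ) ^ 4 := pow_le_pow_right₀ hl1' (by norm_num)
  suffices h : (C : ℝ) * l ^ 3 ≤
      ((((Finset.Ioc (2 ^ l) (4 ^ l)).filter Nat.Prime).card : ℕ) : ℝ) by exact_mod_cast h
  set P : ℝ := ((((Finset.Ioc (2 ^ l) (4 ^ l)).filter Nat.Prime).card : ℕ) : ℝ) with hP
  have h10 : (2 : ℝ) ^ l * (2 : ℝ) ^ l - (2 * l + 1) ≤ (2 ^ l + 1 + P) * (2 * l) := by
    rw [← h8]
    refine h5.trans ?_
    exact mul_le_mul_of_nonneg_right h7 (by positivity)
  -- `x = 2 ^ l ≥ 4 (C + 4) l ^ 4`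
  have h11 : (4 * (C + 4)) * (l : ℝ) ^ 4 ≤ (2 : ℝ) ^ l := by nlinarith
  set x : ℝ := (2 : ℝ) ^ l with hx
  have hC : (0 : ℝ) ≤ C := Nat.cast_nonneg C
  have h12 : 16 * (l : ℝ) ≤ x := by nlinarith
  have h13 : x * x ≥ 16 * l * x := by nlinarith
  have h14 : x * x ≥ (4 * (C + 4)) * (l : ℝ) ^ 4 * 1 := by nlinarith
  by_contra hcon
  rw [not_le] at hcon
  have h15 : P * (2 * l) < (C * l ^ 3) * (2 * l) := by
    apply mul_lt_mul_of_pos_right hcon (by positivity)
  have h16 : (C * (l : ℝ) ^ 3) * (2 * l) = 2 * C * (l : ℝ) ^ 4 := by ring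
  nlinarith

end Pool.Agent.W966.Kron
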