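import Pool.Agent.W966.Ball

set_option autoImplicit false
set_option linter.unusedSectionVars false

/-!
# Tensor products with exponentially small rank errors
-/

namespace Pool.Agent.W966.Kron

open Matrix Finset

variable {K : Type*} [Field K] {ι : Type*} [Fintype ι] [DecidableEq ι] {α : ι → Type*}
  [∀ i, Fintype (α i)] [∀ i, DecidableEq (α i)]

theorem exp_le_cosh_add (l y : ℝ) (hy : |y| ≤ 1) :
    Real.exp (l * y) ≤ Real.cosh l + y * Real.sinh l := by
  rw [abs_le] at hy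
  have h := convexOn_exp.2 (Set.mem_univ l) (Set.mem_univ (-l))
    (show 0 ≤ (1 + y) / 2 by linarith) (show 0 ≤ (1 - y) / 2 by linarith) (by ring)
  simp only [smul_eq_mul] at h
  have h1 : (1 + y) / 2 * l + (1 - y) / 2 * -l = l * y := by ring
  rw [h1] at h
  refine h.trans (le_of_eq ?_)
  rw [Real.cosh_eq, Real.sinh_eq]
  ring

theorem mgf_bound (g : ∀ i, α i → ℝ) (hg : ∀ i, ∑ a, g i a = 0)
    (hg1 : ∀ i a, |g i a| ≤ 1) (l : ℝ) :
    ∑ x : (∀ i, α i), Real.exp (l * ∑ i, g i (x i)) ≤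
      (Fintype.card (∀ i, α i) : ℝ) * Real.exp (Fintype.card ι * (l ^ 2 / 2)) := by
  have h1 : ∀ x : (∀ i, α i), Real.exp (l * ∑ i, g i (x i)) = ∏ i, Real.exp (l * g i (x i)) := by
    intro x
    rw [Finset.mul_sum, Real.exp_sum]
  have h2 := Finset.prod_univ_sum (fun i => (Finset.univ : Finset (α i)))
    (fun i a => Real.exp (l * g i a))
  rw [Fintype.piFinset_univ] at h2
  rw [Finset.sum_congr rfl (fun x _ => h1 x), ← h2]
  have h3 : ∀ i, ∑ a, Real.exp (l * g i a) ≤ (Fintype.card (α i) : ℝ) * Real.exp (l ^ 2 / 2) := by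
    intro i
    calc ∑ a, Real.exp (l * g i a) ≤ ∑ a, (Real.cosh l + g i a * Real.sinh l) :=
          Finset.sum_le_sum fun a _ => exp_le_cosh_add l _ (hg1 i a)
      _ = (Fintype.card (α i) : ℝ) * Real.cosh l := by
          rw [Finset.sum_add_distrib, ← Finset.sum_mul, hg i]
          simp
      _ ≤ _ := mul_le_mul_of_nonneg_left (Real.cosh_le_exp_half_sq l) (by positivity)
  calc ∏ i, ∑ a, Real.exp (l * g i a)
      ≤ ∏ i, ((Fintype.card (α i) : ℝ) * Real.exp (l ^ 2 / 2)) :=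
        Finset.prod_le_prod (fun i _ => Finset.sum_nonneg fun a _ => (Real.exp_pos _).le)
          (fun i _ => h3 i)
    _ = _ := by
        rw [Finset.prod_mul_distrib, Finset.prod_const, Finset.card_univ, ← Real.exp_nat_mul]
        congr 1
        rw [Fintype.card_pi]
        push_cast
        rfl

theorem tail_one (g : ∀ i, α i → ℝ) (hg : ∀ i, ∑ a, g i a = 0)
    (hg1 : ∀ i a, |g i a| ≤ 1) (κ τ : ℝ) (hκ : (Fintype.card ι : ℝ) ≤ κ) (hκ0 : 0 < κ)
    (hτ : 0 < τ) :
    ((Finset.univ.filter fun x : (∀ i, α i) => τ < ∑ i, g i (x i)).card : ℝ) ≤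
      (Fintype.card (∀ i, α i) : ℝ) * Real.exp (-(τ ^ 2 / (2 * κ))) := by
  classical
  have h1 := mgf_bound g hg hg1 (τ / κ)
  have h2 : ((Finset.univ.filter fun x : (∀ i, α i) => τ < ∑ i, g i (x i)).card : ℝ) *
      Real.exp (τ ^ 2 / κ) ≤ ∑ x : (∀ i, α i), Real.exp (τ / κ * ∑ i, g i (x i)) := by
    rw [← nsmul_eq_mul, ← Finset.sum_const]
    refine (Finset.sum_le_sum (f := fun _ => Real.exp (τ ^ 2 / κ))
      (g := fun x : (∀ i, α i) => Real.exp (τ / κ * ∑ i, g i (x i))) ?_).trans ?_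
    · intro x hx
      rw [Finset.mem_filter] at hx
      apply Real.exp_le_exp.2
      have : τ ^ 2 / κ = τ / κ * τ := by ring
      rw [this]
      exact mul_le_mul_of_nonneg_left hx.2.le (by positivity)
    · exact Finset.sum_le_sum_of_subset_of_nonneg (Finset.filter_subset _ _)
        (fun x _ _ => (Real.exp_pos _).le)
  have h3 : Real.exp (Fintype.card ι * ((τ / κ) ^ 2 / 2)) ≤ Real.exp (τ ^ 2 / (2 * κ)) := by
    apply Real.exp_le_exp.2
    calc (Fintype.card ι : ℝ) * ((τ / κ) ^ 2 / 2) ≤ κ * ((τ / κ) ^ 2 / 2) :=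
          mul_le_mul_of_nonneg_right hκ (by positivity)
      _ = τ ^ 2 / (2 * κ) := by field_simp
  have h4 : ((Finset.univ.filter fun x : (∀ i, α i) => τ < ∑ i, g i (x i)).card : ℝ) *
      Real.exp (τ ^ 2 / κ) ≤ (Fintype.card (∀ i, α i) : ℝ) * Real.exp (τ ^ 2 / (2 * κ)) :=
    h2.trans (h1.trans (mul_le_mul_of_nonneg_left h3 (by positivity)))
  have h5 : Real.exp (τ ^ 2 / (2 * κ)) =
      Real.exp (-(τ ^ 2 / (2 * κ))) * Real.exp (τ ^ 2 / κ) := by
    rw [← Real.exp_add]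
    congr 1
    field_simp
    ring
  rw [h5, ← mul_assoc] at h4
  exact le_of_mul_le_mul_right h4 (Real.exp_pos _)

/-- Hoeffding's inequality for the number of coordinates with a given property. -/
theorem few_atypical_exp (b : ∀ i, α i → ℕ) (hb : ∀ i a, b i a ≤ 1) [∀ i, Nonempty (α i)]
    (κ : ℝ) (hκ : (Fintype.card ι : ℝ) ≤ κ) (hκ0 : 0 < κ) :
    ∃ μ : ℝ, ∀ τ : ℝ, 0 < τ →
      ((Finset.univ.filter fun x : (∀ i, α i) =>
        τ < |(∑ i, (b i (x i) : ℝ)) - μ|).card : ℝ) ≤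
        2 * (Fintype.card (∀ i, α i) : ℝ) * Real.exp (-(τ ^ 2 / (2 * κ))) := by
  classical
  let m : ι → ℝ := fun i => (∑ a, (b i a : ℝ)) / Fintype.card (α i)
  let g : ∀ i, α i → ℝ := fun i a => (b i a : ℝ) - m i
  have hcard : ∀ i, (0 : ℝ) < Fintype.card (α i) := fun i => by
    exact_mod_cast Fintype.card_pos
  have hg : ∀ i, ∑ a, g i a = 0 := by
    intro i
    have := (hcard i).ne'
    simp only [g, m, Finset.sum_sub_distrib, Finset.sum_const, Finset.card_univ, nsmul_eq_mul]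
    field_simp
    ring
  have hm0 : ∀ i, 0 ≤ m i := fun i => by positivity
  have hm1 : ∀ i, m i ≤ 1 := fun i => by
    rw [div_le_one (hcard i)]
    calc ∑ a, (b i a : ℝ) ≤ ∑ _a : α i, (1 : ℝ) :=
          Finset.sum_le_sum fun a _ => by exact_mod_cast hb i a
      _ = _ := by simp
  have hg1 : ∀ i a, |g i a| ≤ 1 := by
    intro i a
    have h0 : (0 : ℝ) ≤ b i a := by positivity
    have h1 : (b i a : ℝ) ≤ 1 := by exact_mod_cast hb i a
    rw [abs_le]
    constructor <;> simp only [g] <;> linarith [hm0 i, hm1 i]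
  refine ⟨∑ i, m i, fun τ hτ => ?_⟩
  have h1 := tail_one g hg hg1 κ τ hκ hκ0 hτ
  have h2 := tail_one (fun i a => - g i a) (fun i => by rw [Finset.sum_neg_distrib, hg i, neg_zero])
    (fun i a => by rw [abs_neg]; exact hg1 i a) κ τ hκ hκ0 hτ
  have h3 : ∀ x : (∀ i, α i), (∑ i, g i (x i)) = (∑ i, (b i (x i) : ℝ)) - ∑ i, m i := fun x => by
    simp [g, Finset.sum_sub_distrib]
  have h4 : (Finset.univ.filter fun x : (∀ i, α i) =>
        τ < |(∑ i, (b i (x i) : ℝ)) - ∑ i, m i|) ⊆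
      (Finset.univ.filter fun x : (∀ i, α i) => τ < ∑ i, g i (x i)) ∪
      (Finset.univ.filter fun x : (∀ i, α i) => τ < ∑ i, - g i (x i)) := by
    intro x hx
    simp only [Finset.mem_filter, Finset.mem_univ, true_and, Finset.mem_union] at hx ⊢
    rw [← h3 x, lt_abs] at hx
    rcases hx with hx | hx
    · exact Or.inl hx
    · right
      rw [Finset.sum_neg_distrib]
      exact hx
  have h5 : ((Finset.univ.filter fun x : (∀ i, α i) =>
        τ < |(∑ i, (b i (x i) : ℝ)) - ∑ i, m i|).card : ℝ) ≤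
      ((Finset.univ.filter fun x : (∀ i, α i) => τ < ∑ i, g i (x i)).card : ℝ) +
      ((Finset.univ.filter fun x : (∀ i, α i) => τ < ∑ i, - g i (x i)).card : ℝ) := by
    exact_mod_cast (Finset.card_le_card h4).trans (Finset.card_union_le _ _)
  linarith

/-- A tensor product of matrices all of whose off-diagonal entries decrease a bit. -/
theorem good_level_exp (M : ∀ i, Matrix (α i) (α i) K) (b : ∀ i, α i → ℕ) (hb : ∀ i a, b i a ≤ 1)
    (h : ∀ i a c, M i a c ≠ 0 → a = c ∨ b i c < b i a) [∀ i, Nonempty (α i)] {t : ℕ}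
    (ht : 0 < t) (κ : ℝ) (hκ : (Fintype.card ι : ℝ) ≤ κ) (hκ0 : 0 < κ) :
    Good t (4 * (Fintype.card (∀ i, α i) : ℝ) * Real.exp (-((t : ℝ) ^ 2 / (8 * κ)))) (tens M) := by
  classical
  obtain ⟨μ, hμ⟩ := few_atypical_exp b hb κ hκ hκ0
  have ht' : (0 : ℝ) < t := by exact_mod_cast ht
  have h1 := hμ (t / 2) (by positivity)
  set B := Finset.univ.filter fun x : (∀ i, α i) => (t : ℝ) / 2 < |(∑ i, (b i (x i) : ℝ)) - μ|
    with hB
  -- the three parts
  let S : Matrix (∀ i, α i) (∀ i, α i) K := fun x y => if x ∈ B ∨ y ∈ B then 0 else tens M x y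
  let R₁ : Matrix (∀ i, α i) (∀ i, α i) K := fun x y => if x ∈ B then tens M x y else 0
  let R₂ : Matrix (∀ i, α i) (∀ i, α i) K :=
    fun x y => if x ∉ B ∧ y ∈ B then tens M x y else 0
  refine ⟨S, R₁ + R₂, ?_, ?_, ?_⟩
  · ext x y
    change tens M x y = (if x ∈ B ∨ y ∈ B then 0 else tens M x y) +
      ((if x ∈ B then tens M x y else 0) + (if x ∉ B ∧ y ∈ B then tens M x y else 0))
    by_cases hx : x ∈ B <;> by_cases hy : y ∈ B <;> simp [hx, hy]
  · have e1 : R₁.rank ≤ B.card := by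
      refine Matrix.rank_le_card_of_support_subset _ _ ?_
      intro x hx
      by_contra hxB
      apply hx
      funext y
      have : x ∉ B := by simpa using hxB
      simp [R₁, Matrix.row, this]
    have e2 : R₂.rank ≤ B.card := by
      rw [← Matrix.rank_transpose]
      refine Matrix.rank_le_card_of_support_subset _ _ ?_
      intro x hx
      by_contra hxB
      apply hx
      funext y
      have : x ∉ B := by simpa using hxB
      change (if y ∉ B ∧ x ∈ B then tens M y x else 0) = 0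
      simp [this]
    have e3 : (R₁ + R₂).rank ≤ B.card + B.card := (rank_add_le' _ _).trans (Nat.add_le_add e1 e2)
    have e4 : ((R₁ + R₂).rank : ℝ) ≤ B.card + B.card := by exact_mod_cast e3
    refine e4.trans ?_
    have e5 : ((t : ℝ) / 2) ^ 2 / (2 * κ) = (t : ℝ) ^ 2 / (8 * κ) := by
      field_simp
      ring
    rw [e5] at h1
    linarith
  · intro x y hxy
    simp only [S] at hxy
    rw [ite_ne_left_iff] at hxy
    obtain ⟨hB', hne⟩ := hxy
    rw [not_or] at hB'
    have hne' : tens M x y ≠ 0 := fun h0 => hne h0.symm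
    have hxy : ∀ i, M i (x i) (y i) ≠ 0 := fun i =>
      Finset.prod_ne_zero_iff.1 hne' i (Finset.mem_univ i)
    -- Hamming distance is at most the difference of the weights
    have h3 : ∀ i, (if x i ≠ y i then 1 else 0) + b i (y i) ≤ b i (x i) := by
      intro i
      rcases h i _ _ (hxy i) with h4 | h4
      · simp [h4]
      · split_ifs <;> omega
    have h4 : hammingDist x y + ∑ i, b i (y i) ≤ ∑ i, b i (x i) := by
      have : hammingDist x y = ∑ i, (if x i ≠ y i then 1 else 0) := by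
        simp [hammingDist, Finset.card_filter]
      rw [this, ← Finset.sum_add_distrib]
      exact Finset.sum_le_sum fun i _ => h3 i
    have h5 : (hammingDist x y : ℝ) + ∑ i, (b i (y i) : ℝ) ≤ ∑ i, (b i (x i) : ℝ) := by
      exact_mod_cast h4
    have hx := hB'.1
    have hy := hB'.2
    simp only [hB, Finset.mem_filter, Finset.mem_univ, true_and, not_lt] at hx hy
    rw [abs_le] at hx hy
    have : (hammingDist x y : ℝ) ≤ t := by linarith [hx.2, hy.1]
    exact_mod_cast this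

variable {n : ι → ℕ}

theorem good_trunc_exp (L : ∀ i, Matrix (Fin (n i)) (Fin (n i)) K)
    (hL : ∀ i a c, a < c → L i a c = 0) (hdet : ∀ i, (L i).det ≠ 0) (hn : ∀ i, 0 < n i)
    {t : ℕ} (ht : 0 < t) (κ : ℝ) (hκ : (Fintype.card ι : ℝ) ≤ κ) (hκ0 : 0 < κ) (j : ℕ) :
    Good (j * t) (j * (4 * (∏ i, (n i : ℝ)) * Real.exp (-((t : ℝ) ^ 2 / (8 * κ)))))
      (tens (fun i => trunc j (L i))) := by
  have : ∀ i, Nonempty (Fin (n i)) := fun i => ⟨⟨0, hn i⟩⟩
  induction j with
  | zero =>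
    have := good_diag (fun i => trunc 0 (L i)) (fun i a c h => trunc_zero_diag (L i) a c h)
    simpa using this
  | succ j ih =>
    have h1 : tens (fun i => trunc (j + 1) (L i)) =
        tens (fun i => trunc j (L i)) * tens (fun i => fac j (L i)) := by
      rw [tens_mul]
      congr 1
      funext i
      exact trunc_succ j (L i) (hL i) (hdet i)
    have h2 := good_level_exp (fun i => fac j (L i)) (fun i a => (a : ℕ) / 2 ^ j % 2)
      (fun i a => by have := Nat.mod_lt ((a : ℕ) / 2 ^ j) (by norm_num : 0 < 2); omega)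
      (fun i a c h => fac_ne j (L i) (hL i) (hdet i) a c h) ht κ hκ hκ0
    have h3 : (Fintype.card (∀ i, Fin (n i)) : ℝ) = ∏ i, (n i : ℝ) := by
      simp [Fintype.card_pi]
    rw [h3] at h2
    rw [h1]
    refine (ih.mul h2).mono (by rw [add_mul, one_mul]) (le_of_eq ?_)
    push_cast
    ring

theorem good_lower_exp (L : ∀ i, Matrix (Fin (n i)) (Fin (n i)) K)
    (hL : ∀ i a c, a < c → L i a c = 0) (hdet : ∀ i, (L i).det ≠ 0) (hn : ∀ i, 0 < n i)
    {t : ℕ} (ht : 0 < t) (κ : ℝ) (hκ : (Fintype.card ι : ℝ) ≤ κ) (hκ0 : 0 < κ) (j : ℕ)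
    (hj : ∀ i, n i ≤ 2 ^ j) :
    Good (j * t) (j * (4 * (∏ i, (n i : ℝ)) * Real.exp (-((t : ℝ) ^ 2 / (8 * κ))))) (tens L) := by
  have h1 := good_trunc_exp L hL hdet hn ht κ hκ hκ0 j
  have h2 : (fun i => trunc j (L i)) = L := funext fun i => trunc_top (hj i) (L i)
  rwa [h2] at h1

theorem good_upper_exp (L : ∀ i, Matrix (Fin (n i)) (Fin (n i)) K)
    (hL : ∀ i a c, c < a → L i a c = 0) (hdet : ∀ i, (L i).det ≠ 0) (hn : ∀ i, 0 < n i)
    {t : ℕ} (ht : 0 < t) (κ : ℝ) (hκ : (Fintype.card ι : ℝ) ≤ κ) (hκ0 : 0 < κ) (j : ℕ)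
    (hj : ∀ i, n i ≤ 2 ^ j) :
    Good (j * t) (j * (4 * (∏ i, (n i : ℝ)) * Real.exp (-((t : ℝ) ^ 2 / (8 * κ))))) (tens L) := by
  have h1 := good_lower_exp (fun i => (L i)ᵀ) (fun i a c h => hL i c a h)
    (fun i => by rw [Matrix.det_transpose]; exact hdet i) hn ht κ hκ hκ0 j hj
  have h2 := h1.transpose
  rw [tens_transpose] at h2
  simpa using h2

/-- **Tensor products of matrices with a triangular decomposition**, exponential version. -/
theorem good_lu_exp (L U : ∀ i, Matrix (Fin (n i)) (Fin (n i)) K)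
    (hL : ∀ i a c, a < c → L i a c = 0) (hU : ∀ i a c, c < a → U i a c = 0)
    (hLd : ∀ i, (L i).det ≠ 0) (hUd : ∀ i, (U i).det ≠ 0) (hn : ∀ i, 0 < n i)
    {t : ℕ} (ht : 0 < t) (κ : ℝ) (hκ : (Fintype.card ι : ℝ) ≤ κ) (hκ0 : 0 < κ) (j : ℕ)
    (hj : ∀ i, n i ≤ 2 ^ j) :
    Good (2 * j * t) (8 * j * ((∏ i, (n i : ℝ)) * Real.exp (-((t : ℝ) ^ 2 / (8 * κ)))))
      (tens (fun i => L i * U i)) := by
  rw [← tens_mul]
  refine ((good_lower_exp L hL hLd hn ht κ hκ hκ0 j hj).mul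
    (good_upper_exp U hU hUd hn ht κ hκ hκ0 j hj)).mono
    (by ring_nf; exact le_refl _) (le_of_eq (by ring))

theorem good_vand_exp (v : ∀ i, Fin (n i) → K) (hv : ∀ i, Function.Injective (v i))
    (hn : ∀ i, 0 < n i) {t : ℕ} (ht : 0 < t) (κ : ℝ) (hκ : (Fintype.card ι : ℝ) ≤ κ)
    (hκ0 : 0 < κ) (j : ℕ) (hj : ∀ i, n i ≤ 2 ^ j) :
    Good (2 * j * t) (8 * j * ((∏ i, (n i : ℝ)) * Real.exp (-((t : ℝ) ^ 2 / (8 * κ)))))
      (tens (fun i => Matrix.vandermonde (v i))) := by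
  choose L U h using fun i => vand_lu (v i) (hv i)
  have h1 : (fun i => Matrix.vandermonde (v i)) = fun i => L i * U i := funext fun i => (h i).1
  rw [h1]
  exact good_lu_exp L U (fun i => (h i).2.1) (fun i => (h i).2.2.1) (fun i => (h i).2.2.2.1)
    (fun i => (h i).2.2.2.2) hn ht κ hκ hκ0 j hj

end Pool.Agent.W966.Kron
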