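import Pool.Agent.W966.Kron

set_option autoImplicit false
set_option linter.unusedSectionVars false

/-!
# Tensor products of triangular matrices

A triangular matrix is a product of factors, one for each binary digit of the indices; every
off-diagonal entry of the factor of the digit `j` decreases this digit from `1` to `0`.
-/

namespace Pool.Agent.W966.Kron

open Matrix Finset

variable {K : Type*} [Field K]

/-- The block diagonal part of `L`, with blocks of size `2 ^ j`. -/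
def trunc {n : ℕ} (j : ℕ) (L : Matrix (Fin n) (Fin n) K) : Matrix (Fin n) (Fin n) K :=
  fun a c => if (a : ℕ) / 2 ^ j = (c : ℕ) / 2 ^ j then L a c else 0

theorem trunc_apply {n : ℕ} (j : ℕ) (L : Matrix (Fin n) (Fin n) K) (a c : Fin n) :
    trunc j L a c = if (a : ℕ) / 2 ^ j = (c : ℕ) / 2 ^ j then L a c else 0 := rfl

theorem trunc_top {n : ℕ} {j : ℕ} (hj : n ≤ 2 ^ j) (L : Matrix (Fin n) (Fin n) K) :
    trunc j L = L := by
  ext a c
  rw [trunc_apply, if_pos]
  rw [Nat.div_eq_of_lt (a.2.trans_le hj), Nat.div_eq_of_lt (c.2.trans_le hj)]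

theorem trunc_zero_diag {n : ℕ} (L : Matrix (Fin n) (Fin n) K) (a c : Fin n)
    (h : trunc 0 L a c ≠ 0) : a = c := by
  rw [trunc_apply] at h
  by_contra hac
  apply h
  rw [if_neg]
  simpa [Fin.ext_iff] using hac

theorem trunc_det {n : ℕ} (j : ℕ) (L : Matrix (Fin n) (Fin n) K) (hL : ∀ a c, a < c → L a c = 0) :
    (trunc j L).det = L.det := by
  rw [Matrix.det_of_isLowerTriangular L (fun a c h => hL a c (by simpa using h)),
    Matrix.det_of_isLowerTriangular (trunc j L) ?_]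
  · refine Finset.prod_congr rfl fun a _ => ?_
    rw [trunc_apply, if_pos rfl]
  · intro a c h
    have := hL a c (by simpa using h)
    rw [trunc_apply]
    split_ifs <;> simp [this]

/-- The inverse of a block diagonal matrix is block diagonal. -/
theorem inv_block {n : ℕ} (A : Matrix (Fin n) (Fin n) K) (hA : A.det ≠ 0) (f : Fin n → ℕ)
    (h : ∀ a c, A a c ≠ 0 → f a = f c) (a c : Fin n) (hac : A⁻¹ a c ≠ 0) : f a = f c := by
  have : Invertible A := Matrix.invertibleOfIsUnitDet A (isUnit_iff_ne_zero.2 hA)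
  have h1 : A.BlockTriangular f := by
    intro a c hlt
    by_contra hne
    exact absurd (h a c hne) (ne_of_gt hlt)
  have h2 : A.BlockTriangular (fun a => OrderDual.toDual (f a)) := by
    intro a c hlt
    by_contra hne
    have h0 := h a c hne
    have h1' : f a < f c := hlt
    exact absurd h0 (ne_of_lt h1')
  have h3 := Matrix.blockTriangular_inv_of_blockTriangular h1
  have h4 := Matrix.blockTriangular_inv_of_blockTriangular h2
  rcases lt_trichotomy (f a) (f c) with hlt | heq | hgt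
  · exact absurd (h4 (i := a) (j := c) (by simpa using hlt)) hac
  · exact heq
  · exact absurd (h3 (i := a) (j := c) hgt) hac

/-- The factor of the digit `j`. -/
noncomputable def fac {n : ℕ} (j : ℕ) (L : Matrix (Fin n) (Fin n) K) : Matrix (Fin n) (Fin n) K :=
  (trunc j L)⁻¹ * trunc (j + 1) L

theorem trunc_succ {n : ℕ} (j : ℕ) (L : Matrix (Fin n) (Fin n) K)
    (hL : ∀ a c, a < c → L a c = 0) (hdet : L.det ≠ 0) :
    trunc (j + 1) L = trunc j L * fac j L := by
  rw [fac, ← Matrix.mul_assoc, Matrix.mul_nonsing_inv, Matrix.one_mul]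
  rw [trunc_det j L hL]
  exact isUnit_iff_ne_zero.2 hdet

theorem fac_ne {n : ℕ} (j : ℕ) (L : Matrix (Fin n) (Fin n) K)
    (hL : ∀ a c, a < c → L a c = 0) (hdet : L.det ≠ 0) (a c : Fin n) (h : fac j L a c ≠ 0) :
    a = c ∨ (c : ℕ) / 2 ^ j % 2 < (a : ℕ) / 2 ^ j % 2 := by
  have hdet' : (trunc j L).det ≠ 0 := by rwa [trunc_det j L hL]
  let E : Matrix (Fin n) (Fin n) K := trunc (j + 1) L - trunc j L
  have h1 : fac j L = 1 + (trunc j L)⁻¹ * E := by
    rw [fac]
    have : trunc (j + 1) L = trunc j L + E := by simp [E]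
    rw [this, Matrix.mul_add, Matrix.nonsing_inv_mul _ (isUnit_iff_ne_zero.2 hdet')]
  rw [h1, Matrix.add_apply] at h
  by_cases hac : a = c
  · exact Or.inl hac
  right
  rw [Matrix.one_apply_ne hac, zero_add, Matrix.mul_apply] at h
  obtain ⟨z, -, hz⟩ := Finset.exists_ne_zero_of_sum_ne_zero h
  have h2 : (trunc j L)⁻¹ a z ≠ 0 := left_ne_zero_of_mul hz
  have h3 : E z c ≠ 0 := right_ne_zero_of_mul hz
  have h4 : (a : ℕ) / 2 ^ j = (z : ℕ) / 2 ^ j := by
    refine inv_block (trunc j L) hdet' (fun a => (a : ℕ) / 2 ^ j) ?_ a z h2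
    intro a c hne
    by_contra hcon
    apply hne
    rw [trunc_apply, if_neg hcon]
  have h5 : (z : ℕ) / 2 ^ (j + 1) = (c : ℕ) / 2 ^ (j + 1) ∧ (z : ℕ) / 2 ^ j ≠ (c : ℕ) / 2 ^ j ∧
      L z c ≠ 0 := by
    have h6 : E z c = (if (z : ℕ) / 2 ^ (j + 1) = (c : ℕ) / 2 ^ (j + 1) then L z c else 0) -
        (if (z : ℕ) / 2 ^ j = (c : ℕ) / 2 ^ j then L z c else 0) := rfl
    rw [h6] at h3
    by_cases h7 : (z : ℕ) / 2 ^ j = (c : ℕ) / 2 ^ j
    · exfalso
      apply h3
      have h8 : (z : ℕ) / 2 ^ (j + 1) = (c : ℕ) / 2 ^ (j + 1) := by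
        rw [pow_succ, ← Nat.div_div_eq_div_mul, ← Nat.div_div_eq_div_mul, h7]
      rw [if_pos h7, if_pos h8, sub_self]
    · rw [if_neg h7, sub_zero] at h3
      by_cases h8 : (z : ℕ) / 2 ^ (j + 1) = (c : ℕ) / 2 ^ (j + 1)
      · rw [if_pos h8] at h3
        exact ⟨h8, h7, h3⟩
      · rw [if_neg h8] at h3
        exact absurd rfl h3
  obtain ⟨h6, h7, h8⟩ := h5
  have h9 : (c : ℕ) ≤ z := by
    by_contra hlt
    exact h8 (hL z c (Fin.lt_def.2 (not_le.1 hlt)))
  have h10 : (c : ℕ) / 2 ^ j ≤ (z : ℕ) / 2 ^ j := Nat.div_le_div_right h9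
  rw [pow_succ, ← Nat.div_div_eq_div_mul, ← Nat.div_div_eq_div_mul] at h6
  rw [h4]
  omega

variable {ι : Type*} [Fintype ι] [DecidableEq ι] {n : ι → ℕ}

theorem good_trunc (L : ∀ i, Matrix (Fin (n i)) (Fin (n i)) K)
    (hL : ∀ i a c, a < c → L i a c = 0) (hdet : ∀ i, (L i).det ≠ 0) (hn : ∀ i, 0 < n i)
    {t : ℕ} (ht : 0 < t) (j : ℕ) :
    Good (j * t) (j * (8 * (∏ i, (n i : ℝ)) * Fintype.card ι / t ^ 2))
      (tens (fun i => trunc j (L i))) := by
  have : ∀ i, Nonempty (Fin (n i)) := fun i => ⟨⟨0, hn i⟩⟩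
  induction j with
  | zero =>
    have := good_diag (fun i => trunc 0 (L i)) (fun i a c h => trunc_zero_diag (L i) a c h)
    simpa using this
  | succ j ih =>
    have h1 : tens (fun i => trunc (j + 1) (L i)) =
        tens (fun i => trunc j (L i)) * tens (fun i => fac j (L i)) := by
      rw [tens_mul]
      congr 1
      funext i
      exact trunc_succ j (L i) (hL i) (hdet i)
    have h2 := good_level (fun i => fac j (L i)) (fun i a => (a : ℕ) / 2 ^ j % 2)
      (fun i a => by have := Nat.mod_lt ((a : ℕ) / 2 ^ j) (by norm_num : 0 < 2); omega)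
      (fun i a c h => fac_ne j (L i) (hL i) (hdet i) a c h) ht
    have h3 : (Fintype.card (∀ i, Fin (n i)) : ℝ) = ∏ i, (n i : ℝ) := by
      simp [Fintype.card_pi]
    rw [h3] at h2
    rw [h1]
    refine (ih.mul h2).mono (by rw [add_mul, one_mul]) (le_of_eq ?_)
    push_cast
    ring

theorem good_lower (L : ∀ i, Matrix (Fin (n i)) (Fin (n i)) K)
    (hL : ∀ i a c, a < c → L i a c = 0) (hdet : ∀ i, (L i).det ≠ 0) (hn : ∀ i, 0 < n i)
    {t : ℕ} (ht : 0 < t) (j : ℕ) (hj : ∀ i, n i ≤ 2 ^ j) :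
    Good (j * t) (j * (8 * (∏ i, (n i : ℝ)) * Fintype.card ι / t ^ 2)) (tens L) := by
  have h1 := good_trunc L hL hdet hn ht j
  have h2 : (fun i => trunc j (L i)) = L := funext fun i => trunc_top (hj i) (L i)
  rwa [h2] at h1

theorem good_upper (L : ∀ i, Matrix (Fin (n i)) (Fin (n i)) K)
    (hL : ∀ i a c, c < a → L i a c = 0) (hdet : ∀ i, (L i).det ≠ 0) (hn : ∀ i, 0 < n i)
    {t : ℕ} (ht : 0 < t) (j : ℕ) (hj : ∀ i, n i ≤ 2 ^ j) :
    Good (j * t) (j * (8 * (∏ i, (n i : ℝ)) * Fintype.card ι / t ^ 2)) (tens L) := by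
  have h1 := good_lower (fun i => (L i)ᵀ) (fun i a c h => hL i c a h)
    (fun i => by rw [Matrix.det_transpose]; exact hdet i) hn ht j hj
  have h2 := h1.transpose
  rw [tens_transpose] at h2
  simpa using h2

/-- **Tensor products of matrices with a triangular decomposition.** -/
theorem good_lu (L U : ∀ i, Matrix (Fin (n i)) (Fin (n i)) K)
    (hL : ∀ i a c, a < c → L i a c = 0) (hU : ∀ i a c, c < a → U i a c = 0)
    (hLd : ∀ i, (L i).det ≠ 0) (hUd : ∀ i, (U i).det ≠ 0) (hn : ∀ i, 0 < n i)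
    {t : ℕ} (ht : 0 < t) (j : ℕ) (hj : ∀ i, n i ≤ 2 ^ j) :
    Good (2 * j * t) (2 * j * (8 * (∏ i, (n i : ℝ)) * Fintype.card ι / t ^ 2))
      (tens (fun i => L i * U i)) := by
  rw [← tens_mul]
  refine ((good_lower L hL hLd hn ht j hj).mul (good_upper U hU hUd hn ht j hj)).mono
    (by ring_nf; exact le_refl _) (le_of_eq (by ring))

end Pool.Agent.W966.Kron
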